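import Pool.Agent.Q69.HW.Stm

/-!
# Assembly (MP_11bc5f_an)
-/

set_option autoImplicit false

open MeasureTheory

namespace Q69.HW

theorem exists_curve (h1 : S_PHI1) (h2 : S_DIAG) (h3 : S_IFT) (h4 : S_PB) (h5 : S_GG)
    (h6 : S_REAL) (h7 : S_ORTH) (h8 : S_HP) (h9 : S_CHI) (h10 : S_CHIV) (h11 : S_NONC)
    (h12 : S_CURVE) (ε : ℝ) (hε : 0 < ε) : ∃ H τ : ℝ → ℂ, GoodCurve ε H τ := by
  obtain ⟨G, hG1, hG2, hG3⟩ := h5 h1 h4
  obtain ⟨s, b, hs, hs2, hb, hG⟩ := h3 h2 G hG1 hG2 (min (1 / 4) (ε / 4)) (by positivity)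
  have e1 : min (1 / 4) (ε / 4) ≤ 1 / 4 := min_le_left _ _
  have e2 : min (1 / 4) (ε / 4) ≤ ε / 4 := min_le_right _ _
  have hP : P (Qf s b) = 0 := by rw [← hG3, hG, smul_zero]
  exact ⟨_, _, h12 h9 (h10) (h11) h7 h8 h6 s ε b hs (by linarith) (by linarith) (by linarith)
    (by linarith) hP⟩

lemma abs_exp_sub (x y δ : ℝ) (hδ : δ ≤ 1) (h : |x - y| ≤ δ) :
    |Real.exp x - Real.exp y| ≤ Real.exp y * (2 * δ) := by
  have h1 : Real.exp x - Real.exp y = Real.exp y * (Real.exp (x - y) - 1) := by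
    rw [mul_sub, ← Real.exp_add]; ring_nf
  rw [h1, abs_mul, abs_of_pos (Real.exp_pos y)]
  refine mul_le_mul_of_nonneg_left ?_ (Real.exp_pos y).le
  calc |Real.exp (x - y) - 1| ≤ 2 * |x - y| := by
        refine Real.abs_exp_sub_one_le (by linarith)
    _ ≤ 2 * δ := by linarith

theorem main (h1 : S_PHI1) (h2 : S_DIAG) (h3 : S_IFT) (h4 : S_PB) (h5 : S_GG)
    (h6 : S_REAL) (h7 : S_ORTH) (h8 : S_HP) (h9 : S_CHI) (h10 : S_CHIV) (h11 : S_NONC)
    (h12 : S_CURVE) (k1 : S_PSI) (k2 : S_IJ) (k3 : S_BND) (k4 : S_RMOM) (k5 : S_POL) (k6 : S_CONT)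
    (k7 : S_TOP) (k8 : S_NDISC) (j1 : S_HERM) (j2 : S_BARG) (j3 : S_STFT) (j4 : S_BZERO)
    (j5 : S_SER) (j6 : S_EIG) (ε : ℝ) (hε : 0 < ε) :
    ∃ R : ℝ → ℝ, ContDiff ℝ 1 R ∧ (∀ θ, R (θ + 2 * Real.pi) = R θ) ∧
      (∀ θ, 0 < R θ ∧ |R θ - 1 / Real.sqrt Real.pi| < ε) ∧
      IsOpen (dom R) ∧ SimplyConnectedSpace (dom R) ∧ 0 < volume (dom R) ∧ volume (dom R) < ⊤ ∧
      (∀ ρ : ℝ, ¬ (dom R =ᵐ[volume] {w : ℝ × ℝ | w.1 ^ 2 + w.2 ^ 2 < ρ ^ 2})) ∧
      IsEigenfunction 1 0 (dom R) := by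
  obtain ⟨H, τ, hH⟩ := exists_curve h1 h2 h3 h4 h5 h6 h7 h8 h9 h10 h11 h12 (min 1 (ε / 4))
    (by positivity)
  obtain ⟨ψ, hψ1, hψ2, hψ3, hψ4, hp1, hp2⟩ := k1 _ H τ hH
  have hHd : ContDiff ℝ 1 H := by
    rw [contDiff_one_iff_deriv]
    refine ⟨fun t => (hH.deriv t).differentiableAt, ?_⟩
    have : deriv H = fun t => Complex.I * τ t := funext fun t => (hH.deriv t).deriv
    rw [this]
    exact continuous_const.mul hH.contτ
  have hre : ContDiff ℝ 1 fun t => (H t).re :=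
    (Complex.reCLM.contDiff (n := 1)).comp hHd
  set R : ℝ → ℝ := fun θ => rad H (ψ θ) with hR
  have hRd : ContDiff ℝ 1 R := by
    show ContDiff ℝ 1 fun θ => Real.exp (H (ψ θ)).re
    exact (hre.comp hψ1).exp
  have hRp : ∀ θ, R (θ + 2 * Real.pi) = R θ := by
    intro θ
    simp only [hR, rad, hψ4, hH.per]
  have hR0 : ∀ θ, 0 < R θ := fun θ => Real.exp_pos _
  have hRc : Continuous R := hRd.continuous
  obtain ⟨ho, hst, h00, C, hC⟩ := k7 k6 R hRc hRp hR0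
  refine ⟨R, hRd, hRp, fun θ => ⟨hR0 θ, ?_⟩, ho, ?_, ?_, ?_, ?_, ?_⟩
  · have hq : 1 / Real.sqrt Real.pi = Real.exp (-(Real.log Real.pi / 2)) := by
      rw [Real.exp_neg, one_div]
      congr 1
      rw [← Real.log_sqrt Real.pi_pos.le, Real.exp_log (Real.sqrt_pos.2 Real.pi_pos)]
    have hd := hH.near (ψ θ)
    have h3 := abs_exp_sub (H (ψ θ)).re (-(Real.log Real.pi / 2)) (min 1 (ε / 4)) (min_le_left _ _)
      (by rw [sub_neg_eq_add]; exact hd)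
    rw [hq]
    have h4 : Real.exp (-(Real.log Real.pi / 2)) ≤ 1 := by
      rw [Real.exp_le_one_iff]
      have : 0 ≤ Real.log Real.pi := Real.log_nonneg (by linarith [Real.pi_gt_three])
      linarith
    have h5 : min 1 (ε / 4) ≤ ε / 4 := min_le_right _ _
    have h6 : 0 < min 1 (ε / 4) := by positivity
    calc |R θ - Real.exp (-(Real.log Real.pi / 2))|
        ≤ Real.exp (-(Real.log Real.pi / 2)) * (2 * min 1 (ε / 4)) := h3
      _ ≤ 1 * (2 * min 1 (ε / 4)) := by gcongr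
      _ < ε := by linarith
  · have : ContractibleSpace (dom R) := hst.contractibleSpace ⟨_, h00⟩
    exact SimplyConnectedSpace.ofContractible _
  · exact ho.measure_pos volume ⟨_, h00⟩
  · have hb : Bornology.IsBounded (dom R) := by
      rw [isBounded_iff_forall_norm_le]
      refine ⟨Real.sqrt C, fun w hw => ?_⟩
      have := hC w hw
      rw [Prod.norm_def]
      refine max_le ?_ ?_
      · rw [Real.norm_eq_abs]
        exact Real.abs_le_sqrt (by nlinarith [sq_nonneg w.2])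
      · rw [Real.norm_eq_abs]
        exact Real.abs_le_sqrt (by nlinarith [sq_nonneg w.1])
    exact hb.measure_lt_top
  · obtain ⟨t, ht⟩ := hH.nonconst
    refine k8 k6 k7 R hRc hRp hR0 ⟨phi H t, phi H 0, ?_⟩
    simp only [hR, hψ2, rad]
    intro h
    exact ht (Real.exp_injective h)
  · refine j6 j1 j2 j3 j4 j5 _ ho.measurableSet ⟨C, hC⟩ fun k hk => ?_
    rw [k5 R hRc hR0 k]
    exact k4 k3 k2 _ H τ hH ψ hψ1 hψ2 hψ3 hp1 hp2 k hk

end Q69.HW
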