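import Pool.Agent.Q69.HW.Stm

set_option autoImplicit false

open MeasureTheory Topology

namespace Q69.HW

/-- the kernel -/
noncomputable def ker (t : ℝ) (ζ : ℂ) : ℂ :=
  Complex.exp (-(Real.pi * t ^ 2 : ℝ) + 2 * Real.pi * t * ζ - Real.pi * ζ ^ 2 / 2)

lemma barg_eq (g : ℝ → ℂ) (ζ : ℂ) : barg g ζ = ∫ t : ℝ, g t * ker t ζ := rfl

lemma norm_ker_le (t : ℝ) (ζ : ℂ) (M : ℝ) (hζ : ‖ζ‖ ≤ M) :
    ‖ker t ζ‖ ≤ Real.exp (-(Real.pi * t ^ 2) + 2 * Real.pi * M * |t| + Real.pi * M ^ 2 / 2) := by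
  unfold ker
  rw [Complex.norm_exp]
  apply Real.exp_le_exp.2
  have hM : 0 ≤ M := (norm_nonneg _).trans hζ
  have h1 : |ζ.re| ≤ M := (Complex.abs_re_le_norm ζ).trans hζ
  have h2 : |(ζ ^ 2).re| ≤ M ^ 2 := by
    refine (Complex.abs_re_le_norm _).trans ?_
    rw [norm_pow]
    gcongr
  have h3 : (-(Real.pi * t ^ 2 : ℝ) + 2 * Real.pi * t * ζ - Real.pi * ζ ^ 2 / 2 : ℂ).re
      = -(Real.pi * t ^ 2) + 2 * Real.pi * (t * ζ.re) - Real.pi * (ζ ^ 2).re / 2 := by
    have e1 : (2 * Real.pi * t * ζ : ℂ) = ((2 * Real.pi * t : ℝ) : ℂ) * ζ := by push_cast; ring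
    have e2 : (Real.pi * ζ ^ 2 / 2 : ℂ) = ((Real.pi / 2 : ℝ) : ℂ) * ζ ^ 2 := by push_cast; ring
    rw [e1, e2, Complex.sub_re, Complex.add_re, Complex.re_ofReal_mul, Complex.re_ofReal_mul,
      Complex.neg_re, Complex.ofReal_re]
    ring
  rw [h3]
  have h4 : t * ζ.re ≤ |t| * M := by
    calc t * ζ.re ≤ |t * ζ.re| := le_abs_self _
      _ = |t| * |ζ.re| := abs_mul _ _
      _ ≤ |t| * M := by gcongr
  have h5 : -(ζ ^ 2).re ≤ M ^ 2 := (neg_le_abs _).trans h2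
  have hpi := Real.pi_pos
  nlinarith [mul_le_mul_of_nonneg_left h4 (by positivity : 0 ≤ 2 * Real.pi),
    mul_le_mul_of_nonneg_left h5 hpi.le]

/-- the constant -/
noncomputable def KM (M : ℝ) : ℝ := (2 * Real.pi + Real.pi * M + 1) *
  Real.exp (Real.pi * M ^ 2 / 2 + (1 + 2 * Real.pi * M) ^ 2 / (2 * Real.pi))

lemma ker_bound (t : ℝ) (ζ : ℂ) (M : ℝ) (hζ : ‖ζ‖ ≤ M) :
    (2 * Real.pi * |t| + Real.pi * M + 1) * ‖ker t ζ‖ ≤ KM M * Real.exp (-(Real.pi / 2) * t ^ 2) := by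
  have hM : 0 ≤ M := (norm_nonneg _).trans hζ
  have hpi := Real.pi_pos
  have h1 : |t| ≤ Real.exp |t| := by linarith [Real.add_one_le_exp |t|]
  have h2 : 1 ≤ Real.exp |t| := Real.one_le_exp (abs_nonneg t)
  have h3 : 2 * Real.pi * |t| + Real.pi * M + 1 ≤ (2 * Real.pi + Real.pi * M + 1) * Real.exp |t| := by
    have e1 : 2 * Real.pi * |t| ≤ 2 * Real.pi * Real.exp |t| := by gcongr
    have e2 : Real.pi * M * 1 ≤ Real.pi * M * Real.exp |t| := by gcongr
    nlinarith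
  calc (2 * Real.pi * |t| + Real.pi * M + 1) * ‖ker t ζ‖
      ≤ ((2 * Real.pi + Real.pi * M + 1) * Real.exp |t|) *
        Real.exp (-(Real.pi * t ^ 2) + 2 * Real.pi * M * |t| + Real.pi * M ^ 2 / 2) := by
        gcongr
        exact norm_ker_le t ζ M hζ
    _ = (2 * Real.pi + Real.pi * M + 1) *
        Real.exp (|t| + (-(Real.pi * t ^ 2) + 2 * Real.pi * M * |t| + Real.pi * M ^ 2 / 2)) := by
        rw [Real.exp_add |t|]; ring
    _ ≤ (2 * Real.pi + Real.pi * M + 1) *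
        Real.exp ((Real.pi * M ^ 2 / 2 + (1 + 2 * Real.pi * M) ^ 2 / (2 * Real.pi))
          + (-(Real.pi / 2) * t ^ 2)) := by
        refine mul_le_mul_of_nonneg_left (Real.exp_le_exp.2 ?_) (by positivity)
        have h4 : (1 + 2 * Real.pi * M) * |t| ≤ Real.pi / 2 * t ^ 2
            + (1 + 2 * Real.pi * M) ^ 2 / (2 * Real.pi) := by
          have h5 : 0 ≤ (Real.pi * |t| - (1 + 2 * Real.pi * M)) ^ 2 / (2 * Real.pi) := by positivity
          have h6 : (Real.pi * |t| - (1 + 2 * Real.pi * M)) ^ 2 / (2 * Real.pi)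
              = Real.pi / 2 * |t| ^ 2 - (1 + 2 * Real.pi * M) * |t|
                + (1 + 2 * Real.pi * M) ^ 2 / (2 * Real.pi) := by
            field_simp
            ring
          rw [h6, sq_abs] at h5
          linarith
        nlinarith
    _ = KM M * Real.exp (-(Real.pi / 2) * t ^ 2) := by
        unfold KM
        rw [Real.exp_add]
        ring

lemma KM_nonneg (M : ℝ) (hM : 0 ≤ M) : 0 ≤ KM M := by
  unfold KM
  have := Real.pi_pos
  positivity

lemma integrable_gauss (c : ℝ) (hc : 0 < c) : Integrable fun t : ℝ => Real.exp (-c * t ^ 2) :=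
  integrable_exp_neg_mul_sq hc

lemma integrable_norm_gauss {g : ℝ → ℂ} (hg : MemLp g 2) (K : ℝ) :
    Integrable fun t : ℝ => ‖g t‖ * (K * Real.exp (-(Real.pi / 2) * t ^ 2)) := by
  have h1 : Integrable fun t : ℝ => ‖g t‖ ^ 2 := hg.integrable_norm_pow (by norm_num)
  have h2 : Integrable fun t : ℝ => K ^ 2 * Real.exp (-Real.pi * t ^ 2) :=
    (integrable_gauss Real.pi Real.pi_pos).const_mul _
  refine (h1.add h2).mono' ?_ (Filter.Eventually.of_forall fun t => ?_)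
  · refine hg.aestronglyMeasurable.norm.mul ?_
    exact (by fun_prop : Continuous fun t : ℝ => K * Real.exp (-(Real.pi / 2) * t ^ 2)).aestronglyMeasurable
  · have h3 : Real.exp (-Real.pi * t ^ 2) = Real.exp (-(Real.pi / 2) * t ^ 2) ^ 2 := by
      rw [← Real.exp_nat_mul]; congr 1; push_cast; ring
    simp only [Pi.add_apply]
    rw [h3, Real.norm_eq_abs, abs_mul, abs_norm, abs_mul, abs_of_pos (Real.exp_pos _)]
    have h4 := two_mul_le_add_sq ‖g t‖ (|K| * Real.exp (-(Real.pi / 2) * t ^ 2))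
    have h5 : (|K| * Real.exp (-(Real.pi / 2) * t ^ 2)) ^ 2
        = K ^ 2 * Real.exp (-(Real.pi / 2) * t ^ 2) ^ 2 := by
      rw [mul_pow, sq_abs]
    have h6 : 0 ≤ ‖g t‖ * (|K| * Real.exp (-(Real.pi / 2) * t ^ 2)) := by positivity
    nlinarith

lemma continuous_ker (ζ : ℂ) : Continuous fun t : ℝ => ker t ζ := by
  unfold ker
  fun_prop

lemma integrable_ker {g : ℝ → ℂ} (hg : MemLp g 2) (ζ : ℂ) : Integrable fun t : ℝ => g t * ker t ζ := by
  refine (integrable_norm_gauss hg (KM ‖ζ‖)).mono' ?_ (Filter.Eventually.of_forall fun t => ?_)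
  · exact hg.aestronglyMeasurable.mul (continuous_ker ζ).aestronglyMeasurable
  · rw [norm_mul]
    refine mul_le_mul_of_nonneg_left ?_ (norm_nonneg _)
    have h1 := ker_bound t ζ ‖ζ‖ le_rfl
    have h2 : 0 ≤ 2 * Real.pi * |t| + Real.pi * ‖ζ‖ := by
      have := Real.pi_pos
      positivity
    have h3 : 0 ≤ (2 * Real.pi * |t| + Real.pi * ‖ζ‖) * ‖ker t ζ‖ := by positivity
    linarith

lemma norm_lin_le (t : ℝ) (ζ : ℂ) (M : ℝ) (hζ : ‖ζ‖ ≤ M) :
    ‖(2 * Real.pi * t - Real.pi * ζ : ℂ)‖ ≤ 2 * Real.pi * |t| + Real.pi * M := by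
  have hpi := Real.pi_pos
  refine (norm_sub_le _ _).trans (add_le_add ?_ ?_)
  · have : (2 * Real.pi * t : ℂ) = ((2 * Real.pi * t : ℝ) : ℂ) := by push_cast; ring
    rw [this, Complex.norm_real, Real.norm_eq_abs, abs_mul, abs_of_pos (by positivity)]
  · rw [norm_mul, Complex.norm_real, Real.norm_eq_abs, abs_of_pos hpi]
    gcongr

lemma lin_ker_bound (t : ℝ) (ζ : ℂ) (M : ℝ) (hζ : ‖ζ‖ ≤ M) :
    ‖(2 * Real.pi * t - Real.pi * ζ) * ker t ζ‖ ≤ KM M * Real.exp (-(Real.pi / 2) * t ^ 2) := by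
  rw [norm_mul]
  have h1 := ker_bound t ζ M hζ
  have h2 := mul_le_mul_of_nonneg_right (norm_lin_le t ζ M hζ) (norm_nonneg (ker t ζ))
  nlinarith [norm_nonneg (ker t ζ)]

lemma integrable_lin_ker {g : ℝ → ℂ} (hg : MemLp g 2) (ζ : ℂ) :
    Integrable fun t : ℝ => g t * ((2 * Real.pi * t - Real.pi * ζ) * ker t ζ) := by
  refine (integrable_norm_gauss hg (KM ‖ζ‖)).mono' ?_ (Filter.Eventually.of_forall fun t => ?_)
  · have hc : Continuous fun t : ℝ => (2 * Real.pi * t - Real.pi * ζ : ℂ) * ker t ζ := by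
      have := continuous_ker ζ
      fun_prop
    exact hg.aestronglyMeasurable.mul hc.aestronglyMeasurable
  · rw [norm_mul]
    exact mul_le_mul_of_nonneg_left (lin_ker_bound t ζ ‖ζ‖ le_rfl) (norm_nonneg _)

theorem task_BARG : S_BARG := by
  intro g hg ζ₀
  have h := hasDerivAt_integral_of_dominated_loc_of_deriv_le (𝕜 := ℂ) (μ := volume)
    (F := fun ζ t => g t * ker t ζ)
    (F' := fun ζ t => g t * ((2 * Real.pi * t - Real.pi * ζ) * ker t ζ))
    (x₀ := ζ₀) (s := Metric.ball ζ₀ 1)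
    (bound := fun t => ‖g t‖ * (KM (‖ζ₀‖ + 1) * Real.exp (-(Real.pi / 2) * t ^ 2)))
    (Metric.ball_mem_nhds ζ₀ one_pos)
    (Filter.Eventually.of_forall fun ζ =>
      hg.aestronglyMeasurable.mul (continuous_ker ζ).aestronglyMeasurable)
    (integrable_ker hg ζ₀) (integrable_lin_ker hg ζ₀).aestronglyMeasurable
    (Filter.Eventually.of_forall fun t ζ hζ => by
      rw [norm_mul]
      refine mul_le_mul_of_nonneg_left (lin_ker_bound t ζ _ ?_) (norm_nonneg _)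
      have h1 : ‖ζ - ζ₀‖ < 1 := by rwa [← mem_ball_iff_norm]
      have h2 := norm_add_le (ζ - ζ₀) ζ₀
      rw [sub_add_cancel] at h2
      linarith)
    (integrable_norm_gauss hg _)
    (Filter.Eventually.of_forall fun t ζ _ => by
      refine HasDerivAt.const_mul _ ?_
      unfold ker
      have h1 : HasDerivAt (fun ζ : ℂ => -(Real.pi * t ^ 2 : ℝ) + 2 * Real.pi * t * ζ
          - Real.pi * ζ ^ 2 / 2) (2 * Real.pi * t - Real.pi * ζ) ζ := by
        have h2 : HasDerivAt (fun ζ : ℂ => 2 * Real.pi * t * ζ) (2 * Real.pi * t * 1) ζ :=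
          (hasDerivAt_id ζ).const_mul _
        have h3 : HasDerivAt (fun ζ : ℂ => Real.pi * ζ ^ 2 / 2) (Real.pi * (2 * ζ) / 2) ζ := by
          have := ((hasDerivAt_pow 2 ζ).const_mul (Real.pi : ℂ)).div_const 2
          simpa using this
        refine ((h2.const_add _).fun_sub h3).congr_deriv ?_
        ring
      refine h1.cexp.congr_deriv ?_
      ring)
  exact h.2

theorem task_STFT : S_STFT := by
  intro _ g hg c1 w
  have hd : deriv (barg g) ((starRingEnd ℂ) (pt w)) = ∫ t : ℝ, g t *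
      ((2 * Real.pi * t - Real.pi * ((starRingEnd ℂ) (pt w))) * ker t ((starRingEnd ℂ) (pt w))) :=
    (task_BARG g hg _).deriv
  rw [hd, barg_eq]
  set ζ : ℂ := (starRingEnd ℂ) (pt w) with hζ
  have hζ1 : ζ = (w.1 : ℂ) - (w.2 : ℂ) * Complex.I := by
    rw [hζ]
    unfold pt
    simp
    ring
  have hI : Integrable fun t : ℝ => Real.pi * pt w * (g t * ker t ζ) := (integrable_ker hg ζ).const_mul _
  have h1 : (∫ t : ℝ, g t * ((2 * Real.pi * t - Real.pi * ζ) * ker t ζ)) - Real.pi * pt w *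
      (∫ t : ℝ, g t * ker t ζ) = ∫ t : ℝ, g t * ((2 * Real.pi * t - Real.pi * ζ) * ker t ζ)
        - Real.pi * pt w * (g t * ker t ζ) := by
    rw [integral_sub (integrable_lin_ker hg ζ) hI, integral_const_mul]
  rw [h1, ← integral_const_mul]
  unfold stft
  congr 1
  funext t
  have hpi : (Real.pi : ℂ) ≠ 0 := by exact_mod_cast Real.pi_ne_zero
  unfold tfShift ker pt
  rw [map_mul, Complex.conj_ofReal, ← Complex.exp_conj]
  have e1 : (starRingEnd ℂ) (2 * Real.pi * Complex.I * w.2 * t : ℂ)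
      = -(2 * Real.pi * Complex.I * w.2 * t) := by
    have e0 : (2 * Real.pi * Complex.I * w.2 * t : ℂ)
        = ((2 * Real.pi * w.2 * t : ℝ) : ℂ) * Complex.I := by push_cast; ring
    rw [e0, map_mul, Complex.conj_ofReal, Complex.conj_I]
    ring
  rw [e1]
  have e2 : ((c1 * ((t - w.1) * Real.exp (-(Real.pi * (t - w.1) ^ 2))) : ℝ) : ℂ)
      = c1 * ((t - w.1 : ℝ) : ℂ) * Complex.exp (-(Real.pi * (t - w.1) ^ 2 : ℝ)) := by
    push_cast
    ring
  rw [e2]
  have e3 : Complex.exp (-(2 * Real.pi * Complex.I * w.2 * t)) *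
      Complex.exp (-(Real.pi * (t - w.1) ^ 2 : ℝ))
      = Complex.exp (-(Real.pi * w.1 * w.2 : ℝ) * Complex.I) *
      Real.exp (-(Real.pi * (w.1 ^ 2 + w.2 ^ 2) / 2)) *
      Complex.exp (-(Real.pi * t ^ 2 : ℝ) + 2 * Real.pi * t * ζ - Real.pi * ζ ^ 2 / 2) := by
    rw [Complex.ofReal_exp, ← Complex.exp_add, ← Complex.exp_add, ← Complex.exp_add, hζ1]
    congr 1
    push_cast
    have hI2 : Complex.I ^ 2 = -1 := Complex.I_sq
    linear_combination ((Real.pi : ℂ) / 2 * (w.2 : ℂ) ^ 2) * hI2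
  have e4 : ((t - w.1 : ℝ) : ℂ) = (1 / (2 * Real.pi)) * ((2 * Real.pi * t - Real.pi * ζ)
      - Real.pi * ((w.1 : ℂ) + (w.2 : ℂ) * Complex.I)) := by
    rw [hζ1]
    push_cast
    field_simp
    ring
  rw [e4]
  have e5 : g t * (Complex.exp (-(2 * Real.pi * Complex.I * w.2 * t)) *
      (c1 * ((1 / (2 * Real.pi)) * ((2 * Real.pi * t - Real.pi * ζ)
      - Real.pi * ((w.1 : ℂ) + (w.2 : ℂ) * Complex.I))) *
        Complex.exp (-(Real.pi * (t - w.1) ^ 2 : ℝ))))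
      = g t * (c1 * ((1 / (2 * Real.pi)) * ((2 * Real.pi * t - Real.pi * ζ)
      - Real.pi * ((w.1 : ℂ) + (w.2 : ℂ) * Complex.I)))) *
      (Complex.exp (-(2 * Real.pi * Complex.I * w.2 * t)) *
      Complex.exp (-(Real.pi * (t - w.1) ^ 2 : ℝ))) := by ring
  rw [e5, e3]
  ring

end Q69.HW
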