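import Pool.Agent.Q69.HW.Stm

set_option autoImplicit false

open MeasureTheory

namespace Q69.HW

theorem task_IJ : S_IJ := by
  intro k r
  have hd : ∀ ρ : ℝ, HasDerivAt (fun ρ : ℝ => ρ ^ (k + 2) * Real.exp (-(Real.pi * ρ ^ 2)))
      (((k : ℝ) + 2) * (ρ ^ (k + 1) * Real.exp (-(Real.pi * ρ ^ 2)))
        - 2 * Real.pi * (ρ ^ (k + 3) * Real.exp (-(Real.pi * ρ ^ 2)))) ρ := by
    intro ρ
    have h1 : HasDerivAt (fun ρ : ℝ => ρ ^ (k + 2)) (((k + 2 : ℕ) : ℝ) * ρ ^ (k + 1)) ρ := by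
      simpa using hasDerivAt_pow (k + 2) ρ
    have h2 : HasDerivAt (fun ρ : ℝ => Real.exp (-(Real.pi * ρ ^ 2)))
        (Real.exp (-(Real.pi * ρ ^ 2)) * (-(Real.pi * (2 * ρ)))) ρ := by
      have h3 : HasDerivAt (fun ρ : ℝ => -(Real.pi * ρ ^ 2)) (-(Real.pi * (2 * ρ))) ρ := by
        exact (((hasDerivAt_pow 2 ρ).const_mul Real.pi).fun_neg).congr_deriv (by simp)
      exact h3.exp
    have h4 := h1.mul h2
    refine h4.congr_deriv ?_
    push_cast
    ring
  have hc1 : Continuous fun ρ : ℝ => ρ ^ (k + 1) * Real.exp (-(Real.pi * ρ ^ 2)) := by fun_prop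
  have hc3 : Continuous fun ρ : ℝ => ρ ^ (k + 3) * Real.exp (-(Real.pi * ρ ^ 2)) := by fun_prop
  have h5 := intervalIntegral.integral_eq_sub_of_hasDerivAt (a := 0) (b := r)
    (fun ρ _ => hd ρ) (by
      apply Continuous.intervalIntegrable
      fun_prop)
  rw [intervalIntegral.integral_sub ((hc1.const_mul _).intervalIntegrable _ _)
    ((hc3.const_mul _).intervalIntegrable _ _), intervalIntegral.integral_const_mul,
    intervalIntegral.integral_const_mul] at h5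
  have h6 : Ik k r = Real.pi * (∫ ρ in (0 : ℝ)..r, ρ ^ (k + 3) * Real.exp (-(Real.pi * ρ ^ 2)))
      - k * Jk k r := by
    unfold Ik Jk
    rw [← intervalIntegral.integral_const_mul, ← intervalIntegral.integral_const_mul,
      ← intervalIntegral.integral_sub ((hc3.const_mul _).intervalIntegrable _ _)
      ((hc1.const_mul _).intervalIntegrable _ _)]
    congr 1
    funext ρ
    ring
  have h7 : (∫ ρ in (0 : ℝ)..r, ρ ^ (k + 1) * Real.exp (-(Real.pi * ρ ^ 2))) = Jk k r := rfl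
  rw [h7] at h5
  rw [h6]
  have h8 : (0 : ℝ) ^ (k + 2) = 0 := by simp
  rw [h8, zero_mul, sub_zero] at h5
  have h9 : Real.pi * (∫ ρ in (0 : ℝ)..r, ρ ^ (k + 3) * Real.exp (-(Real.pi * ρ ^ 2)))
      = (((k : ℝ) + 2) * Jk k r - r ^ (k + 2) * Real.exp (-(Real.pi * r ^ 2))) / 2 := by
    linarith
  rw [h9]
  ring

end Q69.HW
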