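import Pool.Agent.Q69.HW.PSI
import Pool.Agent.Q69.HW.IJ

set_option autoImplicit false

open MeasureTheory Topology

namespace Q69.HW

lemma hasDerivAt_Jk (k : ℕ) (r : ℝ) :
    HasDerivAt (Jk k) (r ^ (k + 1) * Real.exp (-(Real.pi * r ^ 2))) r := by
  have hc : Continuous fun ρ : ℝ => ρ ^ (k + 1) * Real.exp (-(Real.pi * ρ ^ 2)) := by fun_prop
  exact (hc.integral_hasStrictDerivAt 0 r).hasDerivAt

lemma continuous_Jk (k : ℕ) : Continuous (Jk k) :=
  continuous_iff_continuousAt.2 fun r => (hasDerivAt_Jk k r).continuousAt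

lemma continuous_Ik (k : ℕ) : Continuous (Ik k) := by
  have h : Ik k = fun r => -(1 / 2) * (r ^ (k + 2) * Real.exp (-(Real.pi * r ^ 2)))
      + (2 - (k : ℝ)) / 2 * Jk k r := funext fun r => task_IJ k r
  rw [h]
  have := continuous_Jk k
  fun_prop

section

variable {ε : ℝ} {H τ : ℝ → ℂ} (h : GoodCurve ε H τ)

include h

lemma GoodCurve.cont_re : Continuous fun t => (H t).re := Complex.continuous_re.comp h.cont
lemma GoodCurve.cont_rad : Continuous (rad H) := Real.continuous_exp.comp h.cont_re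
lemma GoodCurve.cont_phi : Continuous (phi H) :=
  continuous_id.add (Complex.continuous_im.comp h.cont)

lemma GoodCurve.deriv_rad (t : ℝ) : HasDerivAt (rad H) (rad H t * (-(τ t).im)) t :=
  (h.deriv_re t).exp

lemma vv_eq (t : ℝ) : vv H t = Real.pi * rad H t ^ 2 := by
  unfold vv rad
  rw [← Real.exp_nat_mul]
  norm_num

lemma GoodCurve.cont_vv : Continuous (vv H) := by
  have h1 : vv H = fun t => Real.pi * rad H t ^ 2 := funext fun t => vv_eq h t
  rw [h1]
  exact continuous_const.mul (h.cont_rad.pow 2)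

/-- the exponential factor -/
lemma F_eq (k : ℕ) (t : ℝ) : Complex.exp (k * (t * Complex.I + H t))
    = Complex.exp (k * phi H t * Complex.I) * ((rad H t ^ k : ℝ) : ℂ) := by
  unfold rad
  rw [← Real.exp_nat_mul, Complex.ofReal_exp, ← Complex.exp_add]
  congr 1
  unfold phi
  apply Complex.ext <;> simp

theorem bnd_aux (k : ℕ) (hk : 1 ≤ k) :
    ∫ t in (-Real.pi)..Real.pi, Complex.exp (k * phi H t * Complex.I) * Ik k (rad H t) *
      ((1 + (τ t).re : ℝ) : ℂ) = 0 := by
  have hτre : Continuous fun t => (τ t).re := Complex.continuous_re.comp h.contτ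
  have hτim : Continuous fun t => (τ t).im := Complex.continuous_im.comp h.contτ
  have hτ := h.contτ
  have hH := h.cont
  have hrad := h.cont_rad
  have hphi := h.cont_phi
  have hvv := h.cont_vv
  have hk0 : (k : ℂ) ≠ 0 := by exact_mod_cast (by omega : k ≠ 0)
  -- notation
  set F : ℝ → ℂ := fun t => Complex.exp (k * (t * Complex.I + H t)) with hF
  set e : ℝ → ℂ := fun t => ((Real.exp (-vv H t) : ℝ) : ℂ) with he
  set ph : ℝ → ℂ := fun t => Complex.exp (k * phi H t * Complex.I) with hph
  have cF : Continuous F := by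
    rw [hF]; fun_prop
  have ce : Continuous e := by
    rw [he]; fun_prop
  have cph : Continuous ph := by
    rw [hph]
    have : Continuous fun t => ((phi H t : ℝ) : ℂ) := Complex.continuous_ofReal.comp hphi
    fun_prop
  have ha : phi H Real.pi = phi H (-Real.pi) + 2 * Real.pi := by
    rw [← h.phi_per]; congr 1; ring
  have hHp : H Real.pi = H (-Real.pi) := by
    rw [← h.per (-Real.pi)]; congr 1; ring
  have hradp : rad H Real.pi = rad H (-Real.pi) := by unfold rad; rw [hHp]
  have hphp : ph Real.pi = ph (-Real.pi) := by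
    simp only [hph]
    rw [ha, Complex.exp_eq_exp_iff_exists_int]
    exact ⟨k, by push_cast; ring⟩
  have hFp : F Real.pi = F (-Real.pi) := by
    simp only [hF]
    rw [hHp, Complex.exp_eq_exp_iff_exists_int]
    exact ⟨k, by push_cast; ring⟩
  have hep : e Real.pi = e (-Real.pi) := by
    simp only [he]
    unfold vv
    rw [hHp]
  -- derivatives
  have dphi : ∀ t, HasDerivAt (fun t => ((phi H t : ℝ) : ℂ)) ((1 + (τ t).re : ℝ) : ℂ) t := fun t =>
    (h.deriv_phi t).ofReal_comp
  have dph : ∀ t, HasDerivAt ph (ph t * (k * ((1 + (τ t).re : ℝ) : ℂ) * Complex.I)) t := fun t =>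
    (((dphi t).const_mul (k : ℂ)).mul_const Complex.I).cexp
  have dJ : ∀ t, HasDerivAt (fun t => ((Jk k (rad H t) : ℝ) : ℂ))
      (((rad H t) ^ (k + 1) * Real.exp (-(Real.pi * rad H t ^ 2)) * (rad H t * (-(τ t).im)) : ℝ) : ℂ)
      t := fun t => ((hasDerivAt_Jk k (rad H t)).comp t (h.deriv_rad t)).ofReal_comp
  have dF : ∀ t, HasDerivAt F (F t * (k * (1 * Complex.I + Complex.I * τ t))) t := by
    intro t
    have h0 : HasDerivAt (fun r : ℝ => (r : ℂ)) 1 t := Complex.ofRealCLM.hasDerivAt
    exact (((h0.mul_const Complex.I).add (h.deriv t)).const_mul (k : ℂ)).cexp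
  have dvv : ∀ t, HasDerivAt (vv H) (vv H t * (2 * (-(τ t).im))) t := by
    intro t
    have h1 := (((h.deriv_re t).const_mul 2).exp).const_mul Real.pi
    refine h1.congr_deriv ?_
    unfold vv
    ring
  have de : ∀ t, HasDerivAt e (e t * ((-(vv H t * (2 * (-(τ t).im))) : ℝ) : ℂ)) t := by
    intro t
    have h1 := ((dvv t).fun_neg.exp).ofReal_comp
    refine h1.congr_deriv ?_
    simp only [he]
    push_cast
    ring
  -- the two basic integrals
  set A1 : ℂ := ∫ t in (-Real.pi)..Real.pi, F t * e t * (((rad H t) ^ 2 * (1 + (τ t).re) : ℝ) : ℂ)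
    with hA1
  set A2 : ℂ := ∫ t in (-Real.pi)..Real.pi, F t * e t * (((rad H t) ^ 2 * (-(τ t).im) : ℝ) : ℂ)
    with hA2
  set A3 : ℂ := ∫ t in (-Real.pi)..Real.pi, ph t * Jk k (rad H t) * ((1 + (τ t).re : ℝ) : ℂ) with hA3
  have cJ : Continuous fun t => ((Jk k (rad H t) : ℝ) : ℂ) :=
    Complex.continuous_ofReal.comp ((continuous_Jk k).comp hrad)
  have c1 : Continuous fun t => F t * e t * (((rad H t) ^ 2 * (1 + (τ t).re) : ℝ) : ℂ) :=
    (cF.mul ce).mul (Complex.continuous_ofReal.comp ((hrad.pow 2).mul (continuous_const.add hτre)))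
  have c2 : Continuous fun t => F t * e t * (((rad H t) ^ 2 * (-(τ t).im) : ℝ) : ℂ) :=
    (cF.mul ce).mul (Complex.continuous_ofReal.comp ((hrad.pow 2).mul hτim.neg))
  have c3 : Continuous fun t => ph t * Jk k (rad H t) * ((1 + (τ t).re : ℝ) : ℂ) :=
    (cph.mul cJ).mul (Complex.continuous_ofReal.comp (continuous_const.add hτre))
  have c4 : Continuous fun t => F t * (e t * (1 + τ t)) := by fun_prop
  have i1 : ∀ c : ℂ, IntervalIntegrable (fun t => c *
      (F t * e t * (((rad H t) ^ 2 * (1 + (τ t).re) : ℝ) : ℂ))) volume (-Real.pi) Real.pi := fun c =>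
    (continuous_const.mul c1).intervalIntegrable _ _
  have i2 : ∀ c : ℂ, IntervalIntegrable (fun t => c *
      (F t * e t * (((rad H t) ^ 2 * (-(τ t).im) : ℝ) : ℂ))) volume (-Real.pi) Real.pi := fun c =>
    (continuous_const.mul c2).intervalIntegrable _ _
  have i3 : ∀ c : ℂ, IntervalIntegrable (fun t => c *
      (ph t * Jk k (rad H t) * ((1 + (τ t).re : ℝ) : ℂ))) volume (-Real.pi) Real.pi := fun c =>
    (continuous_const.mul c3).intervalIntegrable _ _
  have i4 : ∀ c : ℂ, IntervalIntegrable (fun t => c *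
      (F t * (e t * (1 + τ t)))) volume (-Real.pi) Real.pi := fun c =>
    (continuous_const.mul c4).intervalIntegrable _ _
  have j1 : IntervalIntegrable (fun t =>
      F t * e t * (((rad H t) ^ 2 * (1 + (τ t).re) : ℝ) : ℂ)) volume (-Real.pi) Real.pi :=
    c1.intervalIntegrable _ _
  have j2 : IntervalIntegrable (fun t =>
      F t * e t * (((rad H t) ^ 2 * (-(τ t).im) : ℝ) : ℂ)) volume (-Real.pi) Real.pi :=
    c2.intervalIntegrable _ _
  have j4 : IntervalIntegrable (fun t =>
      F t * (e t * (1 + τ t))) volume (-Real.pi) Real.pi := c4.intervalIntegrable _ _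
  have heq : ∀ t, ((Real.exp (-(Real.pi * rad H t ^ 2)) : ℝ) : ℂ) = e t := by
    intro t
    simp only [he]
    rw [vv_eq h]
  have hFeq : ∀ t, F t = ph t * ((rad H t : ℝ) : ℂ) ^ k := by
    intro t
    simp only [hF, hph]
    rw [F_eq h]
    push_cast
    rfl
  -- (a)
  have ea : (k : ℂ) * Complex.I * A3 + A2 = 0 := by
    have h1 := intervalIntegral.integral_eq_sub_of_hasDerivAt (a := -Real.pi) (b := Real.pi)
      (f := fun t => ph t * Jk k (rad H t))
      (f' := fun t => (k : ℂ) * Complex.I * (ph t * Jk k (rad H t) * ((1 + (τ t).re : ℝ) : ℂ))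
        + F t * e t * (((rad H t) ^ 2 * (-(τ t).im) : ℝ) : ℂ))
      (fun t _ => by
        refine ((dph t).mul (dJ t)).congr_deriv ?_
        rw [hFeq, ← heq]
        push_cast
        ring)
      ((i3 _).add j2)
    rw [intervalIntegral.integral_add (i3 _) j2, intervalIntegral.integral_const_mul] at h1
    rw [hA3, hA2, h1, hradp, hphp]
    ring
  -- (c)
  have ec : (k : ℂ) * Complex.I * (∫ t in (-Real.pi)..Real.pi, F t * (e t * (1 + τ t)))
      = 2 * Real.pi * A2 := by
    have h1 := intervalIntegral.integral_eq_sub_of_hasDerivAt (a := -Real.pi) (b := Real.pi)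
      (f := fun t => F t * e t)
      (f' := fun t => (k : ℂ) * Complex.I * (F t * (e t * (1 + τ t)))
        - 2 * Real.pi * (F t * e t * (((rad H t) ^ 2 * (-(τ t).im) : ℝ) : ℂ)))
      (fun t _ => by
        refine ((dF t).mul (de t)).congr_deriv ?_
        rw [vv_eq h]
        push_cast
        ring)
      ((i4 _).sub (i2 _))
    rw [intervalIntegral.integral_sub (i4 _) (i2 _), intervalIntegral.integral_const_mul,
      intervalIntegral.integral_const_mul, hFp, hep, sub_self] at h1
    rw [hA2]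
    exact sub_eq_zero.1 h1
  -- (d)
  have ed : (∫ t in (-Real.pi)..Real.pi, F t * (e t * (1 + τ t))) + Real.pi * (A1 + Complex.I * A2)
      = 0 := by
    have h1 := h.mom k hk
    rw [hA1, hA2, mul_add, ← mul_assoc, ← intervalIntegral.integral_const_mul,
      ← intervalIntegral.integral_const_mul, ← intervalIntegral.integral_add (i1 _) (i2 _),
      ← intervalIntegral.integral_add j4 ((i1 _).add (i2 _)), ← h1]
    congr 1
    funext t
    simp only [hF, he]
    rw [vv_eq h]
    have hc : (1 + (starRingEnd ℂ) (τ t)) = ((1 + (τ t).re : ℝ) : ℂ)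
        + Complex.I * ((-(τ t).im : ℝ) : ℂ) := by
      apply Complex.ext <;> simp
    rw [hc]
    push_cast
    ring
  -- (b)
  have eb : (∫ t in (-Real.pi)..Real.pi, ph t * Ik k (rad H t) * ((1 + (τ t).re : ℝ) : ℂ))
      = -(1 / 2) * A1 + (2 - (k : ℂ)) / 2 * A3 := by
    rw [hA1, hA3, ← intervalIntegral.integral_const_mul, ← intervalIntegral.integral_const_mul,
      ← intervalIntegral.integral_add (i1 _) (i3 _)]
    congr 1
    funext t
    rw [task_IJ, hFeq, ← heq]
    push_cast
    ring
  rw [eb]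
  have hI : Complex.I ≠ 0 := Complex.I_ne_zero
  have hpi : (Real.pi : ℂ) ≠ 0 := by exact_mod_cast Real.pi_ne_zero
  have e1 : A3 = -A2 / ((k : ℂ) * Complex.I) := by
    rw [eq_div_iff (mul_ne_zero hk0 hI)]
    linear_combination ea
  have e2 : (∫ t in (-Real.pi)..Real.pi, F t * (e t * (1 + τ t)))
      = 2 * Real.pi * A2 / ((k : ℂ) * Complex.I) := by
    rw [eq_div_iff (mul_ne_zero hk0 hI)]
    linear_combination ec
  rw [e2] at ed
  have e3 : A1 = -Complex.I * A2 - 2 * A2 / ((k : ℂ) * Complex.I) := by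
    have h1 : (Real.pi : ℂ) * (A1 + Complex.I * A2 + 2 * A2 / ((k : ℂ) * Complex.I)) = 0 := by
      rw [← ed]
      ring
    have h2 := (mul_eq_zero.1 h1).resolve_left hpi
    linear_combination h2
  rw [e3, e1]
  field_simp
  have hI2 : Complex.I ^ 2 = -1 := Complex.I_sq
  ring_nf
  rw [hI2]
  ring

end

theorem task_BND : S_BND := fun _ _ _ _ h k hk => bnd_aux h k hk

theorem task_RMOM : S_RMOM := by
  intro _ _ ε H τ h ψ hψ h1 h2 hp1 hp2 k hk
  have hb := bnd_aux h k hk
  have hτre : Continuous fun t => (τ t).re := Complex.continuous_re.comp h.contτ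
  have hg : Continuous fun θ : ℝ => Complex.exp (k * θ * Complex.I) * Ik k (rad H (ψ θ)) := by
    have c1 : Continuous fun θ : ℝ => ((Ik k (rad H (ψ θ)) : ℝ) : ℂ) :=
      Complex.continuous_ofReal.comp ((continuous_Ik k).comp (h.cont_rad.comp hψ.continuous))
    fun_prop
  have h3 := intervalIntegral.integral_comp_smul_deriv (a := -Real.pi) (b := Real.pi)
    (f := phi H) (f' := fun t => 1 + (τ t).re)
    (g := fun θ : ℝ => Complex.exp (k * θ * Complex.I) * Ik k (rad H (ψ θ)))
    (fun t _ => h.deriv_phi t) ((continuous_const.add hτre).continuousOn) hg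
  rw [hp1, hp2] at h3
  rw [← h3, ← hb]
  congr 1
  funext t
  simp only [Function.comp, h1]
  rw [Complex.real_smul]
  ring

end Q69.HW
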