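import Mathlib
import Pool.Agent.H937R3.ZProducts

/-!
# Localization operators with Hermite window: definitions

`Q69.HW` proves that the operator `H¹_Ω` (window `h_1`) has `h_0` as an eigenfunction for suitable
star-shaped domains `Ω` with continuously differentiable boundary which are not discs.

This file has the definitions: short-time Fourier transform, Hermite functions, the algebra
`ℓ¹(ℤ)` (`H937R3.EllOne (Multiplicative ℤ)`), the space `V = ℓ¹(ℕ)` of unknowns and the bounded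
linear maps between them.
-/

set_option autoImplicit false

open MeasureTheory

namespace Q69.HW

/-! ### The operators -/

/-- The time-frequency shift `π(x, ξ) f (t) = exp (2 π i ξ t) f (t - x)`. -/
noncomputable def tfShift (x ξ : ℝ) (f : ℝ → ℂ) (t : ℝ) : ℂ :=
  Complex.exp (2 * Real.pi * Complex.I * ξ * t) * f (t - x)

/-- The short-time Fourier transform `V_g f (w) = ⟨f, π(w) g⟩`, `w = (x, ξ)`. -/
noncomputable def stft (g f : ℝ → ℂ) (w : ℝ × ℝ) : ℂ :=
  ∫ t, f t * (starRingEnd ℂ) (tfShift w.1 w.2 g t)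

/-- `exp (π t²) (d/dt)^n exp (-2 π t²)`. -/
noncomputable def hermiteRaw (n : ℕ) (t : ℝ) : ℝ :=
  Real.exp (Real.pi * t ^ 2) * iteratedDeriv n (fun s : ℝ => Real.exp (-(2 * Real.pi * s ^ 2))) t

/-- The Hermite function `h_n`: the positive multiple of `hermiteRaw n` of norm one in `L²`. -/
noncomputable def hermiteFn (n : ℕ) (t : ℝ) : ℂ :=
  (((Real.sqrt (∫ s, hermiteRaw n s ^ 2))⁻¹ * hermiteRaw n t : ℝ) : ℂ)

/-- `h_j` is an eigenfunction of `H^r_Ω`, the operator given by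
`⟨H^r_Ω f, g⟩ = ∫_Ω V_{h_r} f · conj (V_{h_r} g)`. -/
def IsEigenfunction (r j : ℕ) (Ω : Set (ℝ × ℝ)) : Prop :=
  ∃ lam : ℂ, ∀ g : ℝ → ℂ, MemLp g 2 →
    ∫ w in Ω, stft (hermiteFn r) (hermiteFn j) w * (starRingEnd ℂ) (stft (hermiteFn r) g w)
      = lam * ∫ t, hermiteFn j t * (starRingEnd ℂ) (g t)

/-- The point `x + i ξ` of `w = (x, ξ)`. -/
noncomputable def pt (w : ℝ × ℝ) : ℂ := (w.1 : ℂ) + (w.2 : ℂ) * Complex.I

/-- The star-shaped domain `{w : |w| < R (arg w)}`. -/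
noncomputable def dom (R : ℝ → ℝ) : Set (ℝ × ℝ) :=
  {w | Real.sqrt (w.1 ^ 2 + w.2 ^ 2) < R (Complex.arg (pt w))}

/-! ### The algebra `ℓ¹(ℤ)` -/

/-- The convolution algebra `ℓ¹(ℤ)` (absolutely convergent Fourier series). -/
abbrev A : Type := H937R3.EllOne (Multiplicative ℤ)

instance : CompleteSpace A :=
  inferInstanceAs (CompleteSpace (lp (fun _ : Multiplicative ℤ => ℂ) 1))

/-- The basis vector `δ_n` (the function `exp (i n t)`). -/
noncomputable def dl (n : ℤ) : A := H937R3.EllOne.delta (Multiplicative.ofAdd n)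

/-- The `n`-th coefficient. -/
noncomputable def cf (n : ℤ) (a : A) : ℂ := H937R3.EllOne.coeff a (Multiplicative.ofAdd n)

lemma norm_dl (n : ℤ) : ‖dl n‖ = 1 := H937R3.EllOne.norm_delta _

lemma cf_summable (a : A) : Summable fun n : ℤ => ‖cf n a‖ := by
  have h := H937R3.L1.summable_norm (G := Multiplicative ℤ) a
  exact h

lemma norm_A (a : A) : ‖a‖ = ∑' n : ℤ, ‖cf n a‖ := by
  have h := H937R3.EllOne.norm_eq a
  rw [h]
  rfl

/-! ### The space of unknowns -/

/-- The real Banach space `ℓ¹(ℕ)`. -/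
abbrev V : Type := lp (fun _ : ℕ => ℝ) 1

lemma V_summable (b : V) : Summable fun j => ‖b j‖ := by
  have := (lp.hasSum_norm (p := 1) (by norm_num) b).summable
  simpa using this

lemma V_norm (b : V) : ‖b‖ = ∑' j, ‖b j‖ := by
  have h := lp.norm_eq_tsum_rpow (p := 1) (by norm_num) b
  rw [h]
  simp

section lift

variable {E : Type*} [NormedAddCommGroup E] [NormedSpace ℝ E] [CompleteSpace E]

lemma summable_liftV (v : ℕ → E) (C : ℝ) (hv : ∀ j, ‖v j‖ ≤ C) (b : V) :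
    Summable fun j => b j • v j := by
  refine Summable.of_norm_bounded (g := fun j => ‖b j‖ * C) ((V_summable b).mul_right C) ?_
  intro j
  rw [norm_smul]
  exact mul_le_mul_of_nonneg_left (hv j) (norm_nonneg _)

/-- The bounded linear map `b ↦ ∑ j, b j • v j` given by a bounded family `v`. -/
noncomputable def liftV (v : ℕ → E) (C : ℝ) (hv : ∀ j, ‖v j‖ ≤ C) : V →L[ℝ] E :=
  LinearMap.mkContinuous
    { toFun := fun b => ∑' j, b j • v j
      map_add' := fun b c => by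
        rw [← (summable_liftV v C hv b).tsum_add (summable_liftV v C hv c)]
        simp [add_smul]
      map_smul' := fun r b => by
        rw [RingHom.id_apply, ← (summable_liftV v C hv b).tsum_const_smul r]
        simp [mul_smul] } C (fun b => by
      have h1 : Summable (fun j => ‖b j‖ * C) := (V_summable b).mul_right C
      calc ‖∑' j, b j • v j‖ ≤ ∑' j, ‖b j‖ * C := by
            refine tsum_of_norm_bounded h1.hasSum ?_
            intro j
            rw [norm_smul]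
            exact mul_le_mul_of_nonneg_left (hv j) (norm_nonneg _)
        _ = C * ‖b‖ := by rw [tsum_mul_right, V_norm, mul_comm])

lemma liftV_apply (v : ℕ → E) (C : ℝ) (hv : ∀ j, ‖v j‖ ≤ C) (b : V) :
    liftV v C hv b = ∑' j, b j • v j := rfl

lemma liftV_bound (v : ℕ → E) (C : ℝ) (hC : 0 ≤ C) (hv : ∀ j, ‖v j‖ ≤ C) (b : V) :
    ‖liftV v C hv b‖ ≤ C * ‖b‖ :=
  (liftV v C hv).le_of_opNorm_le (LinearMap.mkContinuous_norm_le _ hC _) b

end lift

/-- The modes of `thL`. -/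
noncomputable def thv (j : ℕ) : A := if j = 0 then 0 else dl ((j : ℤ) + 1)
/-- The modes of `thcL`. -/
noncomputable def thcv (j : ℕ) : A := if j = 0 then 0 else dl (-((j : ℤ) + 1))
/-- The modes of `hL`. -/
noncomputable def hv (j : ℕ) : A := if j = 0 then 0 else ((j : ℝ) + 1)⁻¹ • dl ((j : ℤ) + 1)
/-- The modes of `hcL`. -/
noncomputable def hcv (j : ℕ) : A := if j = 0 then 0 else ((j : ℝ) + 1)⁻¹ • dl (-((j : ℤ) + 1))

lemma thv_le (j : ℕ) : ‖thv j‖ ≤ 1 := by
  unfold thv; split_ifs <;> simp [norm_dl]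
lemma thcv_le (j : ℕ) : ‖thcv j‖ ≤ 1 := by
  unfold thcv; split_ifs <;> simp [norm_dl]
lemma inv_le (j : ℕ) : ‖((j : ℝ) + 1)⁻¹‖ ≤ 1 := by
  rw [Real.norm_eq_abs, abs_of_nonneg (by positivity)]
  exact inv_le_one_of_one_le₀ (by linarith [(Nat.cast_nonneg j : (0 : ℝ) ≤ j)])
lemma hv_le (j : ℕ) : ‖hv j‖ ≤ 1 := by
  unfold hv
  split_ifs
  · simp
  · rw [norm_smul, norm_dl, mul_one]; exact inv_le j
lemma hcv_le (j : ℕ) : ‖hcv j‖ ≤ 1 := by
  unfold hcv
  split_ifs
  · simp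
  · rw [norm_smul, norm_dl, mul_one]; exact inv_le j

/-- `b ↦ ∑_{j ≥ 1} b_j δ_{j+1}`. -/
noncomputable def thL : V →L[ℝ] A := liftV thv 1 thv_le
/-- `b ↦ ∑_{j ≥ 1} b_j δ_{-(j+1)}`. -/
noncomputable def thcL : V →L[ℝ] A := liftV thcv 1 thcv_le
/-- `b ↦ ∑_{j ≥ 1} (b_j / (j + 1)) δ_{j+1}`. -/
noncomputable def hL : V →L[ℝ] A := liftV hv 1 hv_le
/-- `b ↦ ∑_{j ≥ 1} (b_j / (j + 1)) δ_{-(j+1)}`. -/
noncomputable def hcL : V →L[ℝ] A := liftV hcv 1 hcv_le

/-- `u b = δ_1 + δ_{-1} + ∑_{j ≥ 1} (b_j / (j + 1)) (δ_{j+1} + δ_{-(j+1)})`. -/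
noncomputable def uu (b : V) : A := (dl 1 + dl (-1)) + (hL b + hcL b)
/-- `θ b = δ_1 + ∑_{j ≥ 1} b_j δ_{j+1}`. -/
noncomputable def th (b : V) : A := dl 1 + thL b
/-- `θ̄ b = δ_{-1} + ∑_{j ≥ 1} b_j δ_{-(j+1)}`. -/
noncomputable def thc (b : V) : A := dl (-1) + thcL b

/-- `W = b_0 + s u(b)`. -/
noncomputable def Wf (s : ℝ) (b : V) : A := (b 0) • (1 : A) + s • uu b
/-- `v = exp W` -/
noncomputable def vf (s : ℝ) (b : V) : A := NormedSpace.exp (Wf s b)
/-- `E = exp (-v)` -/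
noncomputable def Ef (s : ℝ) (b : V) : A := NormedSpace.exp (-vf s b)
/-- `Q = (1 + v) E (1 + s θ) - s v E (θ - θ̄)`. -/
noncomputable def Qf (s : ℝ) (b : V) : A :=
  (1 + vf s b) * Ef s b * (1 + s • th b) - s • (vf s b * Ef s b * (th b - thc b))

/-- `h = (b_0 - log π) / 2 + s (δ_1 + ∑_{j ≥ 1} (b_j / (j + 1)) δ_{j+1})`. -/
noncomputable def hh (s : ℝ) (b : V) : A :=
  ((b 0 - Real.log Real.pi) / 2) • (1 : A) + s • (dl 1 + hL b)

lemma P_summable (a : A) : Summable fun j : ℕ => ‖(cf (-((j : ℤ) + 1)) a).re‖ := by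
  have h1 : Summable fun j : ℕ => ‖cf (-((j : ℤ) + 1)) a‖ := by
    have hinj : Function.Injective fun j : ℕ => (-((j : ℤ) + 1)) := by
      intro i j hij
      simp only [neg_inj, add_left_inj, Nat.cast_inj] at hij
      exact hij
    exact (cf_summable a).comp_injective hinj
  refine Summable.of_nonneg_of_le (fun _ => norm_nonneg _) (fun j => ?_) h1
  rw [Real.norm_eq_abs]
  exact Complex.abs_re_le_norm _

lemma P_mem (a : A) : Memℓp (fun j : ℕ => (cf (-((j : ℤ) + 1)) a).re) 1 := by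
  apply memℓp_gen
  simpa using P_summable a

/-- The projection `A → V` to the real parts of the coefficients with negative index:
`(P a)_j = re a_{-(j+1)}`. -/
noncomputable def P : A →L[ℝ] V :=
  LinearMap.mkContinuous
    { toFun := fun a => (⟨fun j : ℕ => (cf (-((j : ℤ) + 1)) a).re, P_mem a⟩ : V)
      map_add' := fun a c => by
        apply lp.ext
        funext j
        rfl
      map_smul' := fun r a => by
        apply lp.ext
        funext j
        show (cf (-((j : ℤ) + 1)) (r • a)).re = r * (cf (-((j : ℤ) + 1)) a).re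
        have : cf (-((j : ℤ) + 1)) (r • a) = (r : ℂ) * cf (-((j : ℤ) + 1)) a := rfl
        rw [this]
        simp } 1 (fun a => by
      rw [V_norm, norm_A, one_mul]
      have hinj : Function.Injective fun j : ℕ => (-((j : ℤ) + 1)) := by
        intro i j hij
        simp only [neg_inj, add_left_inj, Nat.cast_inj] at hij
        exact hij
      have h1 : Summable fun j : ℕ => ‖cf (-((j : ℤ) + 1)) a‖ := (cf_summable a).comp_injective hinj
      calc ∑' j : ℕ, ‖(cf (-((j : ℤ) + 1)) a).re‖ ≤ ∑' j : ℕ, ‖cf (-((j : ℤ) + 1)) a‖ :=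
            (P_summable a).tsum_le_tsum (fun j => by
              rw [Real.norm_eq_abs]; exact Complex.abs_re_le_norm _) h1
        _ ≤ ∑' n : ℤ, ‖cf n a‖ :=
            h1.tsum_le_tsum_of_inj (fun j : ℕ => (-((j : ℤ) + 1))) hinj
              (fun _ _ => norm_nonneg _) (fun _ => le_rfl) (cf_summable a))

lemma P_apply (a : A) (j : ℕ) : P a j = (cf (-((j : ℤ) + 1)) a).re := rfl

/-- Evaluation at `exp (i t)`: the continuous linear map with `δ_n ↦ exp (i n t)`. -/
noncomputable def chi (t : ℝ) : A →L[ℂ] ℂ :=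
  H937R3.EllOne.lift
    (fun n : Multiplicative ℤ => Complex.exp (((Multiplicative.toAdd n : ℤ) : ℂ) * t * Complex.I)) 1
    (fun n => by
      have : ((Multiplicative.toAdd n : ℤ) : ℂ) * t * Complex.I
          = (((Multiplicative.toAdd n : ℤ) * t : ℝ) : ℂ) * Complex.I := by push_cast; ring
      rw [this, Complex.norm_exp_ofReal_mul_I])

lemma chi_dl (t : ℝ) (n : ℤ) : chi t (dl n) = Complex.exp ((n : ℂ) * t * Complex.I) := by
  unfold chi dl
  rw [H937R3.EllOne.lift_delta]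
  simp

/-! ### Curves -/

/-- `v = π exp (2 re H)` -/
noncomputable def vv (H : ℝ → ℂ) (t : ℝ) : ℝ := Real.pi * Real.exp (2 * (H t).re)

/-- The curve `t ↦ exp (i t + H t)` bounds a domain of the required kind: `H` is continuously
differentiable with `H' = i τ`, is periodic, has `H (-t) = conj (H t)`, its real part is not
constant, and the moment conditions hold in the form
`∫ exp (k (i t + H)) exp (-v) ((1 + τ) + v (1 + conj τ)) dt = 0` for all `k ≥ 1`. -/
structure GoodCurve (ε : ℝ) (H τ : ℝ → ℂ) : Prop where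
  contτ : Continuous τ
  deriv : ∀ t, HasDerivAt H (Complex.I * τ t) t
  small : ∀ t, ‖τ t‖ ≤ 1 / 2
  per : ∀ t, H (t + 2 * Real.pi) = H t
  conj : ∀ t, H (-t) = (starRingEnd ℂ) (H t)
  near : ∀ t, |(H t).re + Real.log Real.pi / 2| ≤ ε
  nonconst : ∃ t, (H t).re ≠ (H 0).re
  mom : ∀ k : ℕ, 1 ≤ k →
    ∫ t in (-Real.pi)..Real.pi, Complex.exp (k * (t * Complex.I + H t)) *
      (Real.exp (-vv H t) * ((1 + τ t) + vv H t * (1 + (starRingEnd ℂ) (τ t)))) = 0

/-- The angle `φ (t) = t + im H (t)`. -/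
noncomputable def phi (H : ℝ → ℂ) (t : ℝ) : ℝ := t + (H t).im

/-- The radius `r (t) = exp (re H (t))`. -/
noncomputable def rad (H : ℝ → ℂ) (t : ℝ) : ℝ := Real.exp (H t).re

/-- `I_k (r) = ∫_0^r ρ^{k+1} (π ρ² - k) exp (-π ρ²) dρ`. -/
noncomputable def Ik (k : ℕ) (r : ℝ) : ℝ :=
  ∫ ρ in (0 : ℝ)..r, ρ ^ (k + 1) * (Real.pi * ρ ^ 2 - k) * Real.exp (-(Real.pi * ρ ^ 2))

/-- `J_k (r) = ∫_0^r ρ^{k+1} exp (-π ρ²) dρ`. -/
noncomputable def Jk (k : ℕ) (r : ℝ) : ℝ :=
  ∫ ρ in (0 : ℝ)..r, ρ ^ (k + 1) * Real.exp (-(Real.pi * ρ ^ 2))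

/-- The weight of the `k`-th moment. -/
noncomputable def mw (k : ℕ) (w : ℝ × ℝ) : ℂ :=
  pt w ^ k * (((Real.pi * (w.1 ^ 2 + w.2 ^ 2) - k) * Real.exp (-(Real.pi * (w.1 ^ 2 + w.2 ^ 2))) : ℝ) : ℂ)

/-- The entire function `F (ζ) = ∫ g(t) exp (-π t² + 2 π t ζ - π ζ² / 2) dt` (Bargmann transform
up to a constant factor). -/
noncomputable def barg (g : ℝ → ℂ) (ζ : ℂ) : ℂ :=
  ∫ t : ℝ, g t * Complex.exp (-(Real.pi * t ^ 2 : ℝ) + 2 * Real.pi * t * ζ - Real.pi * ζ ^ 2 / 2)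

end Q69.HW
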