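import Pool.Agent.Q69.HW.Stm

/-!
# Coefficients as continuous linear functionals; `PB`, `HP`
-/

set_option autoImplicit false

open MeasureTheory

namespace Q69.HW

/-- `cf n` as a continuous linear functional. -/
noncomputable def cfL (n : ℤ) : A →L[ℂ] ℂ :=
  (lp.evalCLM ℂ (fun _ : Multiplicative ℤ => ℂ) (p := 1) (Multiplicative.ofAdd n) :
    lp (fun _ : Multiplicative ℤ => ℂ) 1 →L[ℂ] ℂ)

lemma cfL_apply (n : ℤ) (a : A) : cfL n a = cf n a := rfl

lemma cf_dl (n m : ℤ) : cf n (dl m) = if n = m then 1 else 0 := by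
  have h := H937R3.L1.delta_apply (G := Multiplicative ℤ) (Multiplicative.ofAdd m)
    (Multiplicative.ofAdd n)
  have h2 : cf n (dl m) = if Multiplicative.ofAdd n = Multiplicative.ofAdd m then 1 else 0 := h
  rw [h2]
  simp

lemma one_eq : (1 : A) = dl 0 := H937R3.EllOne.one_def

lemma cf_add (n : ℤ) (a c : A) : cf n (a + c) = cf n a + cf n c := rfl

lemma cf_smulR (n : ℤ) (r : ℝ) (a : A) : cf n (r • a) = (r : ℂ) * cf n a := rfl

lemma cf_smulC (n : ℤ) (r : ℂ) (a : A) : cf n (r • a) = r * cf n a := rfl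

lemma cf_zero (n : ℤ) : cf n 0 = 0 := rfl

lemma cf_liftV (n : ℤ) (v : ℕ → A) (C : ℝ) (hv : ∀ j, ‖v j‖ ≤ C) (b : V) :
    cf n (liftV v C hv b) = ∑' j, (b j : ℂ) * cf n (v j) := by
  rw [liftV_apply, ← cfL_apply, (cfL n).map_tsum (summable_liftV v C hv b)]
  rfl

lemma dl_mul (n m : ℤ) : dl n * dl m = dl (n + m) := by
  unfold dl
  rw [H937R3.EllOne.delta_mul_delta, ← ofAdd_add]

lemma cf_thL (n : ℤ) (b : V) :
    cf n (thL b) = ∑' j, (b j : ℂ) * (if j = 0 then 0 else if n = (j : ℤ) + 1 then 1 else 0) := by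
  unfold thL
  rw [cf_liftV]
  refine tsum_congr fun j => ?_
  unfold thv
  split_ifs with h1 h2 <;> simp [cf_zero, cf_dl, *]

lemma cf_thcL (n : ℤ) (b : V) :
    cf n (thcL b) = ∑' j, (b j : ℂ) * (if j = 0 then 0 else if n = -((j : ℤ) + 1) then 1 else 0) := by
  unfold thcL
  rw [cf_liftV]
  refine tsum_congr fun j => ?_
  unfold thcv
  split_ifs with h1 h2
  · simp [cf_zero]
  · simp only [cf_dl]
    rw [if_pos h2]
  · simp only [cf_dl]
    rw [if_neg h2]

lemma cf_hL (n : ℤ) (b : V) :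
    cf n (hL b) = ∑' j, (b j : ℂ) * (if j = 0 then 0 else if n = (j : ℤ) + 1 then
      ((((j : ℝ) + 1)⁻¹ : ℝ) : ℂ) else 0) := by
  unfold hL
  rw [cf_liftV]
  refine tsum_congr fun j => ?_
  unfold hv
  split_ifs with h1 h2
  · simp [cf_zero]
  · rw [cf_smulR, cf_dl, if_pos h2, mul_one]
  · rw [cf_smulR, cf_dl, if_neg h2, mul_zero]

lemma cf_hcL (n : ℤ) (b : V) :
    cf n (hcL b) = ∑' j, (b j : ℂ) * (if j = 0 then 0 else if n = -((j : ℤ) + 1) then
      ((((j : ℝ) + 1)⁻¹ : ℝ) : ℂ) else 0) := by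
  unfold hcL
  rw [cf_liftV]
  refine tsum_congr fun j => ?_
  unfold hcv
  split_ifs with h1 h2
  · simp [cf_zero]
  · rw [cf_smulR, cf_dl, if_pos h2, mul_one]
  · rw [cf_smulR, cf_dl, if_neg h2, mul_zero]

/-- `cf n (hL b) = 0` for `n ≤ 1` -/
lemma cf_hL_eq_zero (n : ℤ) (hn : n ≤ 1) (b : V) : cf n (hL b) = 0 := by
  rw [cf_hL]
  rw [show (fun j : ℕ => (b j : ℂ) * (if j = 0 then 0 else if n = (j : ℤ) + 1 then
      ((((j : ℝ) + 1)⁻¹ : ℝ) : ℂ) else 0)) = fun _ => 0 from ?_, tsum_zero]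
  funext j
  split_ifs with h1 h2
  · simp
  · exfalso; omega
  · simp

lemma cf_thL_eq_zero (n : ℤ) (hn : n ≤ 1) (b : V) : cf n (thL b) = 0 := by
  rw [cf_thL]
  rw [show (fun j : ℕ => (b j : ℂ) * (if j = 0 then 0 else if n = (j : ℤ) + 1 then
      (1 : ℂ) else 0)) = fun _ => 0 from ?_, tsum_zero]
  funext j
  split_ifs with h1 h2
  · simp
  · exfalso; omega
  · simp

/-- `cf n (hcL b) = 0` for `n ≥ -1` -/
lemma cf_hcL_eq_zero (n : ℤ) (hn : -1 ≤ n) (b : V) : cf n (hcL b) = 0 := by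
  rw [cf_hcL]
  rw [show (fun j : ℕ => (b j : ℂ) * (if j = 0 then 0 else if n = -((j : ℤ) + 1) then
      ((((j : ℝ) + 1)⁻¹ : ℝ) : ℂ) else 0)) = fun _ => 0 from ?_, tsum_zero]
  funext j
  split_ifs with h1 h2
  · simp
  · exfalso; omega
  · simp

theorem task_HP : S_HP := by
  intro s b n hn
  unfold hh
  rw [cf_add, cf_smulR, cf_smulR, cf_add, one_eq, cf_dl, cf_dl, cf_hL_eq_zero n (by omega),
    if_neg (by omega), if_neg (by omega)]
  simp

lemma P_dl (m : ℤ) (j : ℕ) : P (dl m) j = if -((j : ℤ) + 1) = m then 1 else 0 := by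
  rw [P_apply, cf_dl]
  split_ifs <;> simp

theorem task_PB : S_PB := by
  refine ⟨fun r => ?_, ?_, fun j => ?_, fun b => ?_, fun b => ?_, fun b j => ?_, fun b j => ?_⟩
  · rw [map_smul, one_eq]
    have : P (dl 0) = 0 := by
      apply lp.ext
      funext j
      rw [P_dl, if_neg (by omega)]
      rfl
    rw [this, smul_zero]
  · apply lp.ext
    funext j
    rw [P_dl, if_neg (by omega)]
    rfl
  · rw [P_dl]
    by_cases h : j = 0
    · subst h; simp
    · rw [if_neg (by omega), if_neg h]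
  · apply lp.ext
    funext j
    rw [P_apply, cf_thL_eq_zero _ (by omega)]
    rfl
  · apply lp.ext
    funext j
    rw [P_apply, cf_hL_eq_zero _ (by omega)]
    rfl
  · rw [P_apply, cf_thcL, tsum_eq_single j]
    · by_cases h : j = 0
      · simp [h]
      · simp [h]
    · intro i hi
      have : ¬ (-((j : ℤ) + 1) = -((i : ℤ) + 1)) := by omega
      rw [if_neg this]
      simp
  · rw [P_apply, cf_hcL, tsum_eq_single j]
    · by_cases h : j = 0
      · simp [h]
      · simp only [if_neg h, if_true]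
        rw [← Complex.ofReal_mul, Complex.ofReal_re, div_eq_mul_inv]
    · intro i hi
      have : ¬ (-((j : ℤ) + 1) = -((i : ℤ) + 1)) := by omega
      rw [if_neg this]
      simp

end Q69.HW
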