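import Pool.Agent.Q69.HW.SUB

set_option autoImplicit false

open MeasureTheory Topology

namespace Q69.HW

lemma chi_apply (t : ℝ) (a : A) :
    chi t a = ∑' n : ℤ, cf n a * Complex.exp ((n : ℂ) * t * Complex.I) := by
  have h : chi t a = ∑' n : Multiplicative ℤ, H937R3.EllOne.coeff a n •
      Complex.exp (((Multiplicative.toAdd n : ℤ) : ℂ) * t * Complex.I) := rfl
  rw [h, ← Multiplicative.ofAdd.tsum_eq]
  rfl

lemma norm_exp_int (n : ℤ) (t : ℝ) : ‖Complex.exp ((n : ℂ) * t * Complex.I)‖ = 1 := by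
  have : (n : ℂ) * t * Complex.I = (((n : ℝ) * t : ℝ) : ℂ) * Complex.I := by push_cast; ring
  rw [this, Complex.norm_exp_ofReal_mul_I]

lemma chi_summable (t : ℝ) (a : A) :
    Summable fun n : ℤ => cf n a * Complex.exp ((n : ℂ) * t * Complex.I) := by
  refine Summable.of_norm_bounded (cf_summable a) fun n => ?_
  rw [norm_mul, norm_exp_int, mul_one]

lemma chi_mul (t : ℝ) (a c : A) : chi t (a * c) = chi t a * chi t c := by
  let M : A →L[ℂ] A →L[ℂ] A := ContinuousLinearMap.mul ℂ A
  let S : A →L[ℂ] A →L[ℂ] ℂ := (ContinuousLinearMap.compL ℂ A A ℂ (chi t)).comp M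
  let T : A →L[ℂ] A →L[ℂ] ℂ :=
    ((ContinuousLinearMap.compL ℂ A ℂ ℂ).flip (chi t)).comp
      ((ContinuousLinearMap.mul ℂ ℂ).comp (chi t))
  have hS : ∀ a c, S a c = chi t (a * c) := fun _ _ => rfl
  have hT : ∀ a c, T a c = chi t a * chi t c := fun _ _ => rfl
  have : S = T := by
    refine H937R3.EllOne.clm_ext fun x => H937R3.EllOne.clm_ext fun y => ?_
    show chi t ((H937R3.EllOne.delta x : A) * (H937R3.EllOne.delta y : A))
      = chi t (H937R3.EllOne.delta x : A) * chi t (H937R3.EllOne.delta y : A)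
    have hx : (H937R3.EllOne.delta x : A) = dl (Multiplicative.toAdd x) := rfl
    have hy : (H937R3.EllOne.delta y : A) = dl (Multiplicative.toAdd y) := rfl
    rw [hx, hy, dl_mul, chi_dl, chi_dl, chi_dl, ← Complex.exp_add]
    congr 1
    push_cast
    ring
  rw [← hS, ← hT, this]

lemma chi_one (t : ℝ) : chi t 1 = 1 := by
  rw [one_eq, chi_dl]
  simp

/-- `chi t` as a ring homomorphism -/
noncomputable def chiR (t : ℝ) : A →+* ℂ where
  toFun := chi t
  map_one' := chi_one t
  map_mul' := chi_mul t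
  map_zero' := map_zero _
  map_add' := map_add _

lemma chi_exp (t : ℝ) (a : A) : chi t (NormedSpace.exp a) = Complex.exp (chi t a) := by
  letI : NormedAlgebra ℚ A := NormedAlgebra.restrictScalars ℚ ℝ A
  have h := NormedSpace.map_exp (chiR t) (chi t).continuous a
  rw [Complex.exp_eq_exp_ℂ]
  exact h

lemma chi_continuous (a : A) : Continuous fun t => chi t a := by
  have h : (fun t => chi t a) = fun t : ℝ => ∑' n : ℤ, cf n a * Complex.exp ((n : ℂ) * t * Complex.I) :=
    funext fun t => chi_apply t a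
  rw [h]
  refine continuous_tsum (fun n => by fun_prop) (cf_summable a) fun n t => ?_
  rw [norm_mul, norm_exp_int, mul_one]

lemma integral_exp_int (n : ℤ) :
    ∫ t in (-Real.pi)..Real.pi, Complex.exp ((n : ℂ) * t * Complex.I)
      = if n = 0 then 2 * Real.pi else 0 := by
  split_ifs with h
  · subst h
    simp
    ring
  · have hn : (n : ℂ) * Complex.I ≠ 0 := by
      simp [h, Complex.I_ne_zero]
    have h1 : ∀ t : ℝ, Complex.exp ((n : ℂ) * t * Complex.I)
        = Complex.exp ((n : ℂ) * Complex.I * t) := by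
      intro t; congr 1; ring
    simp_rw [h1]
    rw [integral_exp_mul_complex hn]
    have h2 : Complex.exp ((n : ℂ) * Complex.I * (Real.pi : ℝ))
        = Complex.exp ((n : ℂ) * Complex.I * ((-Real.pi : ℝ) : ℂ)) := by
      rw [Complex.exp_eq_exp_iff_exists_int]
      exact ⟨n, by push_cast; ring⟩
    rw [h2]
    simp

lemma chi_integral (a : A) :
    ∫ t in (-Real.pi)..Real.pi, chi t a = 2 * Real.pi * cf 0 a := by
  have h : (fun t => chi t a) = fun t : ℝ => ∑' n : ℤ, cf n a * Complex.exp ((n : ℂ) * t * Complex.I) :=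
    funext fun t => chi_apply t a
  have h1 : HasSum (fun n : ℤ => ∫ t in (-Real.pi)..Real.pi,
      cf n a * Complex.exp ((n : ℂ) * t * Complex.I))
      (∫ t in (-Real.pi)..Real.pi, ∑' n : ℤ, cf n a * Complex.exp ((n : ℂ) * t * Complex.I)) := by
    refine intervalIntegral.hasSum_integral_of_dominated_convergence
      (fun n _ => ‖cf n a‖) (fun n => ?_) (fun n => ?_) ?_ ?_ ?_
    · exact (by fun_prop : Continuous fun t : ℝ =>
        cf n a * Complex.exp ((n : ℂ) * t * Complex.I)).aestronglyMeasurable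
    · refine Filter.Eventually.of_forall fun t _ => ?_
      rw [norm_mul, norm_exp_int, mul_one]
    · exact Filter.Eventually.of_forall fun t _ => cf_summable a
    · exact intervalIntegrable_const
    · exact Filter.Eventually.of_forall fun t _ => (chi_summable t a).hasSum
  rw [h, ← h1.tsum_eq]
  have h2 : ∀ n : ℤ, (∫ t in (-Real.pi)..Real.pi,
      cf n a * Complex.exp ((n : ℂ) * t * Complex.I)) = if n = 0 then 2 * Real.pi * cf 0 a else 0 := by
    intro n
    rw [intervalIntegral.integral_const_mul, integral_exp_int]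
    split_ifs with h3
    · subst h3; push_cast; ring
    · simp
  simp_rw [h2]
  rw [tsum_ite_eq]

lemma chi_per (t : ℝ) (a : A) : chi (t + 2 * Real.pi) a = chi t a := by
  rw [chi_apply, chi_apply]
  refine tsum_congr fun n => ?_
  congr 1
  rw [Complex.exp_eq_exp_iff_exists_int]
  exact ⟨n, by push_cast; ring⟩

lemma chi_norm (t : ℝ) (a : A) : ‖chi t a‖ ≤ ‖a‖ := by
  rw [chi_apply, norm_A]
  refine tsum_of_norm_bounded (cf_summable a).hasSum fun n => ?_
  rw [norm_mul, norm_exp_int, mul_one]

theorem task_CHI : S_CHI :=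
  ⟨chi_mul, chi_one, chi_exp, chi_continuous, chi_integral, chi_per, chi_norm⟩

end Q69.HW
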