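import Pool.Agent.Q69.HW.CHI

set_option autoImplicit false

open MeasureTheory Topology

namespace Q69.HW

lemma chi_smulR (t r : ℝ) (a : A) : chi t (r • a) = (r : ℂ) * chi t a := by
  rw [← Complex.coe_smul r a, map_smul, smul_eq_mul]

lemma chi_liftV (t : ℝ) (v : ℕ → A) (C : ℝ) (hv : ∀ j, ‖v j‖ ≤ C) (b : V) :
    chi t (liftV v C hv b) = ∑' j, (b j : ℂ) * chi t (v j) := by
  rw [liftV_apply, (chi t).map_tsum (summable_liftV v C hv b)]
  exact tsum_congr fun j => chi_smulR t _ _

lemma chi_thv (t : ℝ) (j : ℕ) :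
    chi t (thv j) = if j = 0 then 0 else Complex.exp ((((j : ℤ) + 1 : ℤ) : ℂ) * t * Complex.I) := by
  unfold thv
  split_ifs
  · exact map_zero _
  · exact chi_dl t _

lemma chi_thcv (t : ℝ) (j : ℕ) : chi t (thcv j) = (starRingEnd ℂ) (chi t (thv j)) := by
  rw [chi_thv]
  unfold thcv
  split_ifs
  · simp
  · rw [chi_dl, ← Complex.exp_conj]
    congr 1
    simp
    ring

lemma chi_hv (t : ℝ) (j : ℕ) :
    chi t (hv j) = (((j : ℝ) + 1)⁻¹ : ℝ) * chi t (thv j) := by
  unfold hv thv
  split_ifs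
  · simp
  · rw [chi_smulR]

lemma chi_hcv (t : ℝ) (j : ℕ) :
    chi t (hcv j) = (((j : ℝ) + 1)⁻¹ : ℝ) * chi t (thcv j) := by
  unfold hcv thcv
  split_ifs
  · simp
  · rw [chi_smulR]

lemma chi_thcL (t : ℝ) (b : V) : chi t (thcL b) = (starRingEnd ℂ) (chi t (thL b)) := by
  unfold thcL thL
  rw [chi_liftV, chi_liftV, Complex.conj_tsum]
  refine tsum_congr fun j => ?_
  rw [map_mul, Complex.conj_ofReal, chi_thcv]

lemma chi_hcL (t : ℝ) (b : V) : chi t (hcL b) = (starRingEnd ℂ) (chi t (hL b)) := by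
  unfold hcL hL
  rw [chi_liftV, chi_liftV, Complex.conj_tsum]
  refine tsum_congr fun j => ?_
  rw [map_mul, Complex.conj_ofReal, chi_hv, chi_hcv, map_mul, Complex.conj_ofReal, chi_thcv]

lemma chi_neg_thv (t : ℝ) (j : ℕ) : chi (-t) (thv j) = (starRingEnd ℂ) (chi t (thv j)) := by
  rw [chi_thv, chi_thv]
  split_ifs
  · simp
  · rw [← Complex.exp_conj]
    congr 1
    simp

lemma chi_neg_hL (t : ℝ) (b : V) : chi (-t) (hL b) = (starRingEnd ℂ) (chi t (hL b)) := by
  unfold hL
  rw [chi_liftV, chi_liftV, Complex.conj_tsum]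
  refine tsum_congr fun j => ?_
  rw [map_mul, Complex.conj_ofReal, chi_hv, chi_hv, map_mul, Complex.conj_ofReal, chi_neg_thv]

lemma norm_chi_thv (t : ℝ) (j : ℕ) : ‖chi t (thv j)‖ ≤ 1 :=
  (chi_norm t _).trans (thv_le j)

lemma chi_hL_deriv (b : V) (t : ℝ) :
    HasDerivAt (fun r => chi r (hL b)) (Complex.I * chi t (thL b)) t := by
  have h1 : (fun r => chi r (hL b)) = fun r => ∑' j, (b j : ℂ) * chi r (hv j) := by
    funext r
    unfold hL
    exact chi_liftV r _ _ _ b
  have h2 : Complex.I * chi t (thL b) = ∑' j, (b j : ℂ) * (Complex.I * chi t (thv j)) := by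
    unfold thL
    rw [chi_liftV, ← tsum_mul_left]
    exact tsum_congr fun j => by ring
  rw [h1, h2]
  refine hasDerivAt_tsum (𝕜 := ℝ) (F := ℂ) (u := fun j : ℕ => ‖b j‖)
    (g := fun (j : ℕ) (r : ℝ) => (b j : ℂ) * chi r (hv j))
    (g' := fun (j : ℕ) (r : ℝ) => (b j : ℂ) * (Complex.I * chi r (thv j)))
    (V_summable b) (fun j r => ?_) (fun j r => ?_)
    (y₀ := t) ?_ t
  · refine HasDerivAt.const_mul _ ?_
    have h3 : (fun r : ℝ => chi r (hv j)) = fun r : ℝ => (((j : ℝ) + 1)⁻¹ : ℝ) *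
        (if j = 0 then 0 else Complex.exp ((((j : ℤ) + 1 : ℤ) : ℂ) * r * Complex.I)) := by
      funext r
      rw [chi_hv, chi_thv]
    rw [h3, chi_thv]
    split_ifs with hj
    · simp only [mul_zero]
      exact hasDerivAt_const _ _
    · have h40 : HasDerivAt (fun r : ℝ => (r : ℂ)) 1 r := Complex.ofRealCLM.hasDerivAt
      have h4 : HasDerivAt (fun r : ℝ => (((j : ℤ) + 1 : ℤ) : ℂ) * r * Complex.I)
          ((((j : ℤ) + 1 : ℤ) : ℂ) * 1 * Complex.I) r :=
        (h40.const_mul _).mul_const _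
      refine (h4.cexp.const_mul _).congr_deriv ?_
      have h5 : ((j : ℂ) + 1) ≠ 0 := by
        have : ((j + 1 : ℕ) : ℂ) ≠ 0 := by exact_mod_cast Nat.succ_ne_zero j
        simpa using this
      push_cast
      field_simp
  · rw [norm_mul, norm_mul, Complex.norm_I, one_mul, Complex.norm_real]
    exact mul_le_of_le_one_right (norm_nonneg _) (norm_chi_thv r j)
  · refine Summable.of_norm_bounded (V_summable b) fun j => ?_
    rw [norm_mul, Complex.norm_real]
    exact mul_le_of_le_one_right (norm_nonneg _) ((chi_norm t _).trans (hv_le j))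

theorem task_CHIV : S_CHIV :=
  ⟨chi_thcL, chi_hcL, chi_hL_deriv,
    fun t b => (chi_norm t _).trans (by
      have h := liftV_bound hv 1 zero_le_one hv_le b
      rw [one_mul] at h
      exact h),
    fun t b => (chi_norm t _).trans (by
      have h := liftV_bound thv 1 zero_le_one thv_le b
      rw [one_mul] at h
      exact h), chi_neg_hL⟩

lemma chi_dlc (t : ℝ) : chi t (dl (-1)) = (starRingEnd ℂ) (chi t (dl 1)) := by
  rw [chi_dl, chi_dl, ← Complex.exp_conj]
  congr 1
  simp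

theorem task_NONC : S_NONC := by
  intro _ _ s b hs
  by_contra hcon
  push Not at hcon
  set c : ℝ := (chi 0 (hh s b)).re with hc
  let a : A := hh s b + (((b 0 - Real.log Real.pi) / 2) • (1 : A) + s • (dl (-1) + hcL b))
  have ha : ∀ t, chi t a = ((2 * c : ℝ) : ℂ) := by
    intro t
    have h1 : chi t (((b 0 - Real.log Real.pi) / 2) • (1 : A) + s • (dl (-1) + hcL b))
        = (starRingEnd ℂ) (chi t (hh s b)) := by
      unfold hh
      rw [map_add, map_add, chi_smulR, chi_smulR, chi_smulR, chi_one, map_add, map_add, chi_dlc,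
        chi_hcL, map_add, map_mul, map_mul, Complex.conj_ofReal, Complex.conj_ofReal, map_add,
        map_one]
    have h2 : chi t a = chi t (hh s b) + (starRingEnd ℂ) (chi t (hh s b)) := by
      show chi t (hh s b + _) = _
      rw [map_add, h1]
    rw [h2, Complex.add_conj, hcon t]
  have h3 : ∫ t in (-Real.pi)..Real.pi, chi t (dl (-1) * a) = 0 := by
    have h4 : (fun t => chi t (dl (-1) * a))
        = fun t : ℝ => Complex.exp (((-1 : ℤ) : ℂ) * t * Complex.I) * ((2 * c : ℝ) : ℂ) := by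
      funext t
      rw [chi_mul, ha, chi_dl]
    rw [h4, intervalIntegral.integral_mul_const, integral_exp_int, if_neg (by norm_num)]
    simp
  rw [chi_integral] at h3
  have hpi : (2 * Real.pi : ℂ) ≠ 0 := by
    have : ((2 * Real.pi : ℝ) : ℂ) ≠ 0 := by
      exact_mod_cast (by positivity : (2 * Real.pi : ℝ) ≠ 0)
    simpa using this
  have h5 : cf 0 (dl (-1) * a) = 0 := by
    rcases mul_eq_zero.1 h3 with h | h
    · exact absurd h hpi
    · exact h
  have h6 : cf 0 (dl (-1) * a) = cf 1 a := by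
    rw [cf_mul, tsum_eq_single (-1 : ℤ)]
    · rw [cf_dl, if_pos rfl, one_mul]
      norm_num
    · intro m hm
      rw [cf_dl, if_neg hm, zero_mul]
  have h7 : cf 1 a = s := by
    show cf 1 (hh s b + _) = _
    unfold hh
    rw [cf_add, cf_add, cf_add, cf_smulR, cf_smulR, cf_smulR, cf_add, cf_add, one_eq, cf_dl, cf_dl,
      cf_dl, cf_hL_eq_zero 1 le_rfl, cf_hcL_eq_zero 1 (by norm_num)]
    norm_num
  rw [h6, h7] at h5
  exact hs (by exact_mod_cast h5)

end Q69.HW
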