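import Pool.Agent.Q69.HW.CHIV

set_option autoImplicit false

open MeasureTheory Topology

namespace Q69.HW

lemma chi_hh (t s : ℝ) (b : V) : chi t (hh s b)
    = (((b 0 - Real.log Real.pi) / 2 : ℝ) : ℂ) + s * (chi t (dl 1) + chi t (hL b)) := by
  unfold hh
  rw [map_add, chi_smulR, chi_smulR, chi_one, map_add, mul_one]

lemma chi_th (t : ℝ) (b : V) : chi t (th b) = chi t (dl 1) + chi t (thL b) := by
  unfold th
  rw [map_add]

lemma chi_thc (t : ℝ) (b : V) : chi t (thc b) = (starRingEnd ℂ) (chi t (th b)) := by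
  unfold thc
  rw [map_add, chi_th, map_add, chi_dlc, chi_thcL]

lemma chi_dl_one (t : ℝ) : chi t (dl 1) = Complex.exp (t * Complex.I) := by
  rw [chi_dl]
  simp

lemma norm_chi_dl_one (t : ℝ) : ‖chi t (dl 1)‖ ≤ 1 := by
  refine (chi_norm t _).trans ?_
  rw [norm_dl]

lemma norm_chi_hL (t : ℝ) (b : V) : ‖chi t (hL b)‖ ≤ ‖b‖ := task_CHIV.2.2.2.1 t b
lemma norm_chi_thL (t : ℝ) (b : V) : ‖chi t (thL b)‖ ≤ ‖b‖ := task_CHIV.2.2.2.2.1 t b

lemma chi_Wf (t s : ℝ) (b : V) : chi t (Wf s b)
    = ((2 * (chi t (hh s b)).re + Real.log Real.pi : ℝ) : ℂ) := by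
  have h1 : chi t (Wf s b) = (b 0 : ℂ) + s * ((chi t (dl 1) + chi t (hL b))
      + (starRingEnd ℂ) (chi t (dl 1) + chi t (hL b))) := by
    unfold Wf uu
    rw [map_add, chi_smulR, chi_smulR, chi_one, map_add, map_add, map_add, chi_dlc, chi_hcL,
      map_add (starRingEnd ℂ)]
    ring
  rw [h1, Complex.add_conj, chi_hh]
  simp only [Complex.add_re, Complex.ofReal_re, Complex.re_ofReal_mul]
  push_cast
  ring

theorem task_CURVE : S_CURVE := by
  intro _ _ hN _ _ _ s ε b hs hs1 hs2 hb1 hb2 hP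
  have hdH : ∀ t, HasDerivAt (fun t => chi t (hh s b)) (Complex.I * (s * chi t (th b))) t := by
    intro t
    have e1 : (fun t => chi t (hh s b)) = fun t : ℝ =>
        (((b 0 - Real.log Real.pi) / 2 : ℝ) : ℂ) + s * (Complex.exp (t * Complex.I) + chi t (hL b)) := by
      funext t
      rw [chi_hh, chi_dl_one]
    rw [e1, chi_th, chi_dl_one]
    have h0 : HasDerivAt (fun r : ℝ => (r : ℂ)) 1 t := Complex.ofRealCLM.hasDerivAt
    have h1 : HasDerivAt (fun r : ℝ => Complex.exp ((r : ℂ) * Complex.I))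
        (Complex.exp ((t : ℂ) * Complex.I) * (1 * Complex.I)) t := (h0.mul_const _).cexp
    refine (((h1.add (chi_hL_deriv b t)).const_mul (s : ℂ)).const_add _).congr_deriv ?_
    ring
  have hQ : ∀ n : ℤ, n < 0 → cf n (Qf s b) = 0 := by
    intro n hn
    obtain ⟨j, hj⟩ : ∃ j : ℕ, n = -((j : ℤ) + 1) := ⟨(-n - 1).toNat, by omega⟩
    have h1 : (P (Qf s b)) j = (0 : V) j := by rw [hP]
    rw [P_apply, ← hj] at h1
    apply Complex.ext
    · exact h1
    · exact task_REAL s b n
  constructor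
  · exact continuous_const.mul (chi_continuous _)
  · exact hdH
  · intro t
    rw [chi_th, norm_mul, Complex.norm_real, Real.norm_eq_abs, abs_of_pos hs]
    have h1 : ‖chi t (dl 1) + chi t (thL b)‖ ≤ 1 + ‖b‖ :=
      (norm_add_le _ _).trans (add_le_add (norm_chi_dl_one t) (norm_chi_thL t b))
    calc s * ‖chi t (dl 1) + chi t (thL b)‖ ≤ s * (1 + ‖b‖) := by gcongr
      _ ≤ (1 / 4) * (1 + 1) := by gcongr
      _ = 1 / 2 := by norm_num
  · intro t
    exact chi_per t _
  · intro t
    rw [chi_hh, chi_hh, map_add, map_mul, map_add, Complex.conj_ofReal, Complex.conj_ofReal,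
      chi_neg_hL, chi_dl_one, chi_dl_one, ← Complex.exp_conj]
    congr 4
    simp
  · intro t
    rw [chi_hh]
    simp only [Complex.add_re, Complex.ofReal_re, Complex.re_ofReal_mul]
    have h1 : |(chi t (dl 1)).re + (chi t (hL b)).re| ≤ 1 + ‖b‖ := by
      refine (abs_add_le _ _).trans (add_le_add ?_ ?_)
      · exact (Complex.abs_re_le_norm _).trans (norm_chi_dl_one t)
      · exact (Complex.abs_re_le_norm _).trans (norm_chi_hL t b)
    have h2 : |b 0| ≤ ‖b‖ := lp.norm_apply_le_norm (p := 1) (by norm_num) b 0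
    have h3 : (b 0 - Real.log Real.pi) / 2 + s * ((chi t (dl 1)).re + (chi t (hL b)).re)
        + Real.log Real.pi / 2 = b 0 / 2 + s * ((chi t (dl 1)).re + (chi t (hL b)).re) := by ring
    rw [h3]
    calc |b 0 / 2 + s * ((chi t (dl 1)).re + (chi t (hL b)).re)|
        ≤ |b 0 / 2| + |s * ((chi t (dl 1)).re + (chi t (hL b)).re)| := abs_add_le _ _
      _ = |b 0| / 2 + s * |(chi t (dl 1)).re + (chi t (hL b)).re| := by
          rw [abs_div, abs_mul, abs_of_pos hs, abs_of_pos (by norm_num : (0 : ℝ) < 2)]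
      _ ≤ ε / 2 + (ε / 4) * (1 + 1) := by
          have h4 : 0 ≤ ε / 4 := hs.le.trans hs2
          gcongr
          · exact h2.trans hb2
          · exact h1.trans (by linarith)
      _ = ε := by ring
  · obtain ⟨t, ht⟩ := hN task_CHI task_CHIV s b hs.ne'
    exact ⟨t, ht⟩
  · intro k hk
    have h1 := task_ORTH k (hh s b) (Qf s b) hk (task_HP s b) hQ
    have h2 := chi_integral (dl 1 ^ k * NormedSpace.exp ((k : ℝ) • hh s b) * Qf s b)
    rw [h1, mul_zero] at h2
    rw [← h2]
    congr 1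
    funext t
    have hv : chi t (vf s b) = ((vv (fun t => chi t (hh s b)) t : ℝ) : ℂ) := by
      unfold vf vv
      rw [chi_exp, chi_Wf, ← Complex.ofReal_exp, Real.exp_add, Real.exp_log Real.pi_pos]
      congr 1
      ring
    have hE : chi t (Ef s b) = ((Real.exp (-vv (fun t => chi t (hh s b)) t) : ℝ) : ℂ) := by
      unfold Ef
      rw [chi_exp, map_neg, hv, Complex.ofReal_exp, Complex.ofReal_neg]
    have hQt : chi t (Qf s b) = (Real.exp (-vv (fun t => chi t (hh s b)) t) : ℂ) *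
        ((1 + s * chi t (th b)) + (vv (fun t => chi t (hh s b)) t : ℂ) *
          (1 + (starRingEnd ℂ) (s * chi t (th b)))) := by
      unfold Qf
      rw [map_sub, chi_smulR, chi_mul, chi_mul, chi_mul, chi_mul, map_add, map_add, map_sub, chi_one,
        chi_smulR, hv, hE, chi_thc, map_mul (starRingEnd ℂ), Complex.conj_ofReal]
      ring
    have hpow : chi t (dl 1 ^ k) = Complex.exp (t * Complex.I) ^ k := by
      rw [← chi_dl_one]
      exact map_pow (chiR t) (dl 1) k
    rw [chi_mul, chi_mul, chi_exp, chi_smulR, hpow, hQt, ← Complex.exp_nat_mul, ← Complex.exp_add]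
    congr 2
    push_cast
    ring

end Q69.HW
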