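import Pool.Agent.Q69.HW.Stm

set_option autoImplicit false

open MeasureTheory

namespace Q69.HW

lemma diag_mem (d : ℕ → ℝ) (C : ℝ) (hd : ∀ j, |d j| ≤ C) (b : V) :
    Memℓp (fun j : ℕ => d j * b j) 1 := by
  apply memℓp_gen
  have h : Summable fun j : ℕ => ‖d j * b j‖ := by
    refine Summable.of_nonneg_of_le (fun _ => norm_nonneg _) (fun j => ?_)
      ((V_summable b).mul_left C)
    rw [norm_mul]
    exact mul_le_mul_of_nonneg_right (hd j) (norm_nonneg _)
  simpa using h

/-- The diagonal operator. -/
noncomputable def diagL (d : ℕ → ℝ) (C : ℝ) (hd : ∀ j, |d j| ≤ C) : V →L[ℝ] V :=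
  LinearMap.mkContinuous
    { toFun := fun b => (⟨fun j => d j * b j, diag_mem d C hd b⟩ : V)
      map_add' := fun b c => by
        apply lp.ext
        funext j
        show d j * (b j + c j) = d j * b j + d j * c j
        ring
      map_smul' := fun r b => by
        apply lp.ext
        funext j
        show d j * (r * b j) = r * (d j * b j)
        ring } C (fun b => by
      rw [V_norm, V_norm, ← tsum_mul_left]
      have h : Summable fun j : ℕ => ‖d j * b j‖ := by
        refine Summable.of_nonneg_of_le (fun _ => norm_nonneg _) (fun j => ?_)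
          ((V_summable b).mul_left C)
        rw [norm_mul]
        exact mul_le_mul_of_nonneg_right (hd j) (norm_nonneg _)
      refine h.tsum_le_tsum (fun j => ?_) ((V_summable b).mul_left C)
      show ‖d j * b j‖ ≤ C * ‖b j‖
      rw [norm_mul]
      exact mul_le_mul_of_nonneg_right (hd j) (norm_nonneg _))

lemma diagL_apply (d : ℕ → ℝ) (C : ℝ) (hd : ∀ j, |d j| ≤ C) (b : V) (j : ℕ) :
    diagL d C hd b j = d j * b j := rfl

theorem task_DIAG : S_DIAG := by
  intro d c C hc h1 h2
  have h3 : ∀ j, |(d j)⁻¹| ≤ c⁻¹ := by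
    intro j
    rw [abs_inv]
    exact inv_anti₀ hc (h1 j)
  have h4 : ∀ j, d j ≠ 0 := by
    intro j h
    have := h1 j
    rw [h, abs_zero] at this
    linarith
  refine ⟨ContinuousLinearEquiv.equivOfInverse (diagL d C h2) (diagL (fun j => (d j)⁻¹) c⁻¹ h3)
    (fun b => ?_) (fun b => ?_), fun b j => rfl⟩
  · apply lp.ext
    funext j
    rw [diagL_apply, diagL_apply]
    field_simp [h4 j]
  · apply lp.ext
    funext j
    rw [diagL_apply, diagL_apply]
    field_simp [h4 j]

end Q69.HW
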