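import Pool.Agent.Q69.HW.Stm

set_option autoImplicit false

open MeasureTheory Topology

namespace Q69.HW

lemma hermiteRaw_zero (t : ℝ) : hermiteRaw 0 t = Real.exp (-(Real.pi * t ^ 2)) := by
  unfold hermiteRaw
  rw [iteratedDeriv_zero, ← Real.exp_add]
  congr 1
  ring

lemma hermiteRaw_one (t : ℝ) :
    hermiteRaw 1 t = -(4 * Real.pi) * (t * Real.exp (-(Real.pi * t ^ 2))) := by
  unfold hermiteRaw
  rw [iteratedDeriv_one]
  have h3 : HasDerivAt (fun s : ℝ => -(2 * Real.pi * s ^ 2)) (-(2 * Real.pi * (2 * t))) t :=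
    (((hasDerivAt_pow 2 t).const_mul (2 * Real.pi)).fun_neg).congr_deriv (by simp)
  rw [h3.exp.deriv]
  have h4 : Real.exp (-(2 * Real.pi * t ^ 2))
      = Real.exp (-(Real.pi * t ^ 2)) * Real.exp (-(Real.pi * t ^ 2)) := by
    rw [← Real.exp_add]; congr 1; ring
  have h5 : Real.exp (Real.pi * t ^ 2) * Real.exp (-(Real.pi * t ^ 2)) = 1 := by
    rw [← Real.exp_add]; simp
  rw [h4]
  linear_combination (Real.exp (-(Real.pi * t ^ 2)) * (-(2 * Real.pi * (2 * t)))) * h5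

lemma int_raw_zero : 0 < ∫ s, hermiteRaw 0 s ^ 2 := by
  have h1 : (fun s => hermiteRaw 0 s ^ 2) = fun s : ℝ => Real.exp (-(2 * Real.pi) * s ^ 2) := by
    funext s
    rw [hermiteRaw_zero, ← Real.exp_nat_mul]
    congr 1
    push_cast
    ring
  rw [h1, integral_gaussian]
  positivity

lemma int_raw_one : 0 < ∫ s, hermiteRaw 1 s ^ 2 := by
  have h1 : (fun s => hermiteRaw 1 s ^ 2)
      = fun s : ℝ => 16 * Real.pi ^ 2 * (s ^ (2 : ℝ) * Real.exp (-(2 * Real.pi) * s ^ 2)) := by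
    funext s
    rw [hermiteRaw_one]
    have h2 : Real.exp (-(2 * Real.pi) * s ^ 2) = Real.exp (-(Real.pi * s ^ 2)) ^ 2 := by
      rw [← Real.exp_nat_mul]; congr 1; push_cast; ring
    rw [h2, Real.rpow_two]
    ring
  have hi : Integrable fun s : ℝ => 16 * Real.pi ^ 2 * (s ^ (2 : ℝ) * Real.exp (-(2 * Real.pi) * s ^ 2)) :=
    (integrable_rpow_mul_exp_neg_mul_sq (by positivity) (by norm_num)).const_mul _
  have hc : Continuous fun s => hermiteRaw 1 s ^ 2 := by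
    have : (fun s => hermiteRaw 1 s ^ 2) = fun s : ℝ =>
        (-(4 * Real.pi) * (s * Real.exp (-(Real.pi * s ^ 2)))) ^ 2 := by
      funext s; rw [hermiteRaw_one]
    rw [this]
    fun_prop
  refine integral_pos_of_integrable_nonneg_nonzero (x := 1) hc (by rw [h1]; exact hi)
    (fun s => sq_nonneg _) ?_
  rw [hermiteRaw_one]
  exact pow_ne_zero _ (mul_ne_zero (neg_ne_zero.2 (by positivity)) (by positivity))

theorem task_HERM : S_HERM := by
  refine ⟨⟨(Real.sqrt (∫ s, hermiteRaw 0 s ^ 2))⁻¹, ?_, fun t => ?_⟩,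
    ⟨(Real.sqrt (∫ s, hermiteRaw 1 s ^ 2))⁻¹ * (-(4 * Real.pi)), ?_, fun t => ?_⟩⟩
  · have := Real.sqrt_pos.2 int_raw_zero
    positivity
  · unfold hermiteFn
    rw [hermiteRaw_zero]
  · have h1 := Real.sqrt_pos.2 int_raw_one
    have h2 := Real.pi_pos
    exact mul_ne_zero (inv_ne_zero h1.ne') (by nlinarith)
  · unfold hermiteFn
    rw [hermiteRaw_one]
    congr 1
    ring

theorem task_BZERO : S_BZERO := by
  refine ⟨Real.sqrt (1 / 2), by positivity, fun c0 ζ => ?_⟩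
  unfold barg
  have h1 : ∀ t : ℝ, ((c0 * Real.exp (-(Real.pi * t ^ 2)) : ℝ) : ℂ) *
      Complex.exp (-(Real.pi * t ^ 2 : ℝ) + 2 * Real.pi * t * ζ - Real.pi * ζ ^ 2 / 2)
      = c0 * Complex.exp ((-(2 * Real.pi) : ℂ) * (t : ℂ) ^ 2 + (2 * Real.pi * ζ) * t
        + (-(Real.pi * ζ ^ 2 / 2))) := by
    intro t
    rw [Complex.ofReal_mul, Complex.ofReal_exp, mul_assoc, ← Complex.exp_add]
    congr 2
    push_cast
    ring
  simp_rw [h1]
  rw [integral_const_mul, integral_cexp_quadratic (by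
    have : (-(2 * (Real.pi : ℂ))).re = -(2 * Real.pi) := by simp
    rw [this]
    have := Real.pi_pos
    linarith)]
  have hpi : (Real.pi : ℂ) ≠ 0 := by exact_mod_cast Real.pi_ne_zero
  have h2 : (-(Real.pi * ζ ^ 2 / 2)) - (2 * Real.pi * ζ) ^ 2 / (4 * (-(2 * Real.pi) : ℂ)) = 0 := by
    field_simp
    ring
  rw [h2, Complex.exp_zero, mul_one]
  have h3 : (Real.pi : ℂ) / -(-(2 * Real.pi) : ℂ) = (((1 : ℝ) / 2 : ℝ) : ℂ) := by
    push_cast
    field_simp
  rw [h3]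
  have h4 : ((1 : ℂ) / 2) = (((1 : ℝ) / 2 : ℝ) : ℂ) := by push_cast; rfl
  rw [h4, ← Complex.ofReal_cpow (by norm_num), Real.sqrt_eq_rpow]

end Q69.HW
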