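import Pool.Agent.Q69.HW.SER
import Pool.Agent.Q69.HW.BARG
import Pool.Agent.Q69.HW.HERM

set_option autoImplicit false

open MeasureTheory Topology

namespace Q69.HW

lemma memLp_gauss (c0 : ℝ) : MemLp (fun t : ℝ => ((c0 * Real.exp (-(Real.pi * t ^ 2)) : ℝ) : ℂ)) 2 := by
  have hm : AEStronglyMeasurable (fun t : ℝ => ((c0 * Real.exp (-(Real.pi * t ^ 2)) : ℝ) : ℂ)) volume := by
    exact (by fun_prop : Continuous fun t : ℝ =>
      ((c0 * Real.exp (-(Real.pi * t ^ 2)) : ℝ) : ℂ)).aestronglyMeasurable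
  rw [memLp_two_iff_integrable_sq_norm hm]
  have h : (fun t : ℝ => ‖((c0 * Real.exp (-(Real.pi * t ^ 2)) : ℝ) : ℂ)‖ ^ 2)
      = fun t : ℝ => c0 ^ 2 * Real.exp (-(2 * Real.pi) * t ^ 2) := by
    funext t
    rw [Complex.norm_real, Real.norm_eq_abs, sq_abs, mul_pow, ← Real.exp_nat_mul]
    congr 2
    push_cast
    ring
  rw [h]
  exact (integrable_gauss (2 * Real.pi) (by positivity)).const_mul _

theorem task_EIG : S_EIG := by
  intro hherm _ _ hbz _ Ω hΩ hb hmom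
  obtain ⟨⟨c0, hc0, h0⟩, ⟨c1, hc1, h1⟩⟩ := hherm
  obtain ⟨κ, hκ, hbz⟩ := hbz
  have e0 : hermiteFn 0 = fun t : ℝ => ((c0 * Real.exp (-(Real.pi * t ^ 2)) : ℝ) : ℂ) := funext h0
  have e1 : hermiteFn 1 = fun t : ℝ => ((c1 * (t * Real.exp (-(Real.pi * t ^ 2))) : ℝ) : ℂ) :=
    funext h1
  set L : ℝ := ∫ w in Ω, Real.pi * (w.1 ^ 2 + w.2 ^ 2) * Real.exp (-(Real.pi * (w.1 ^ 2 + w.2 ^ 2)))
    with hL
  set K : ℝ := -((c1 / (2 * Real.pi)) ^ 2 * Real.pi * c0 * κ) with hK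
  refine ⟨((-(K * L) / c0 : ℝ) : ℂ), fun g hg => ?_⟩
  -- the two transforms
  have hb0 : barg (hermiteFn 0) = fun _ => ((c0 * κ : ℝ) : ℂ) := by
    funext ζ
    rw [e0, hbz]
    push_cast
    ring
  have ht0 : ∀ w : ℝ × ℝ, stft (hermiteFn 1) (hermiteFn 0) w =
      (c1 / (2 * Real.pi)) * Complex.exp (-(Real.pi * w.1 * w.2 : ℝ) * Complex.I) *
      Real.exp (-(Real.pi * (w.1 ^ 2 + w.2 ^ 2) / 2)) * (- Real.pi * pt w * (c0 * κ)) := by
    intro w
    have hm : MemLp (hermiteFn 0) 2 := by rw [e0]; exact memLp_gauss c0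
    rw [e1, task_STFT task_BARG (hermiteFn 0) hm c1 w, hb0]
    simp only [deriv_const']
    push_cast
    ring
  have htg : ∀ w : ℝ × ℝ, stft (hermiteFn 1) g w =
      (c1 / (2 * Real.pi)) * Complex.exp (-(Real.pi * w.1 * w.2 : ℝ) * Complex.I) *
      Real.exp (-(Real.pi * (w.1 ^ 2 + w.2 ^ 2) / 2)) *
      (deriv (barg g) ((starRingEnd ℂ) (pt w)) - Real.pi * pt w * barg g ((starRingEnd ℂ) (pt w))) := by
    intro w
    rw [e1]
    exact task_STFT task_BARG g hg c1 w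
  have hprod : ∀ w : ℝ × ℝ, stft (hermiteFn 1) (hermiteFn 0) w *
      (starRingEnd ℂ) (stft (hermiteFn 1) g w) =
      (starRingEnd ℂ) ((K : ℂ) * ((starRingEnd ℂ) (pt w) * (deriv (barg g) ((starRingEnd ℂ) (pt w)) -
      Real.pi * pt w * barg g ((starRingEnd ℂ) (pt w))) *
        Real.exp (-(Real.pi * (w.1 ^ 2 + w.2 ^ 2))))) := by
    intro w
    rw [ht0, htg]
    have hphase : Complex.exp (-(Real.pi * w.1 * w.2 : ℝ) * Complex.I) *
        (starRingEnd ℂ) (Complex.exp (-(Real.pi * w.1 * w.2 : ℝ) * Complex.I)) = 1 := by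
      rw [← Complex.exp_conj, ← Complex.exp_add]
      simp
    have hgauss : ((Real.exp (-(Real.pi * (w.1 ^ 2 + w.2 ^ 2))) : ℝ) : ℂ)
        = Real.exp (-(Real.pi * (w.1 ^ 2 + w.2 ^ 2) / 2)) *
          Real.exp (-(Real.pi * (w.1 ^ 2 + w.2 ^ 2) / 2)) := by
      rw [← Complex.ofReal_mul, ← Real.exp_add]
      congr 2
      ring
    have hc : (starRingEnd ℂ) (c1 / (2 * Real.pi) : ℂ) = c1 / (2 * Real.pi) := by
      have : (c1 / (2 * Real.pi) : ℂ) = ((c1 / (2 * Real.pi) : ℝ) : ℂ) := by push_cast; ring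
      rw [this, Complex.conj_ofReal]
    generalize deriv (barg g) ((starRingEnd ℂ) (pt w)) - Real.pi * pt w *
      barg g ((starRingEnd ℂ) (pt w)) = Z
    rw [map_mul, map_mul, map_mul, map_mul, map_mul, map_mul, Complex.conj_ofReal,
      Complex.conj_ofReal, Complex.conj_ofReal, Complex.conj_conj, hc, hgauss, hK]
    generalize ((Real.exp (-(Real.pi * (w.1 ^ 2 + w.2 ^ 2) / 2)) : ℝ) : ℂ) = G
    generalize hEe : Complex.exp (-(Real.pi * w.1 * w.2 : ℝ) * Complex.I) = E at hphase ⊢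
    push_cast
    linear_combination (-(c1 / (2 * Real.pi)) ^ 2 * G ^ 2 * Real.pi * pt w * (c0 * κ) *
      (starRingEnd ℂ) Z) * hphase
  simp_rw [hprod]
  rw [integral_conj, integral_const_mul,
    task_SER Ω hΩ hb hmom (barg g) (fun ζ => (task_BARG g hg ζ).differentiableAt)]
  have hF0 : barg g 0 = (1 / c0 : ℝ) * ∫ t : ℝ, g t * hermiteFn 0 t := by
    unfold barg
    rw [← integral_const_mul]
    congr 1
    funext t
    rw [e0]
    have hc : (c0 : ℂ) ≠ 0 := by exact_mod_cast hc0.ne'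
    simp only [mul_zero, add_zero, zero_pow (two_ne_zero), zero_div, sub_zero]
    push_cast
    field_simp
  have hconj : (starRingEnd ℂ) (∫ t : ℝ, g t * hermiteFn 0 t)
      = ∫ t : ℝ, hermiteFn 0 t * (starRingEnd ℂ) (g t) := by
    rw [← integral_conj]
    congr 1
    funext t
    rw [e0, map_mul, Complex.conj_ofReal]
    ring
  rw [hF0, map_mul, map_mul, map_mul, map_neg, Complex.conj_ofReal, Complex.conj_ofReal,
    Complex.conj_ofReal, hconj]
  push_cast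
  ring

end Q69.HW
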