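import Pool.Agent.Q69.HW.Stm

set_option autoImplicit false

open MeasureTheory Topology

namespace Q69.HW

section

variable (φ : A → A)

noncomputable def gv0 (p : ℝ × V) : ℝ := Real.exp (p.2 0)
noncomputable def ge0 (p : ℝ × V) : ℝ := Real.exp (-gv0 p)
noncomputable def gv1 (p : ℝ × V) : A := gv0 p • (uu p.2 * φ (p.1 • uu p.2))
noncomputable def gv (p : ℝ × V) : A := gv0 p • (1 : A) + p.1 • gv1 φ p
noncomputable def gE1 (p : ℝ × V) : A := -(ge0 p • (gv1 φ p * φ (-(p.1 • gv1 φ p))))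
noncomputable def gE (p : ℝ × V) : A := ge0 p • (1 : A) + p.1 • gE1 φ p
noncomputable def gK1 (p : ℝ × V) : A := (1 + gv φ p) * gE1 φ p + ge0 p • gv1 φ p
noncomputable def gH (p : ℝ × V) : A :=
  gK1 φ p + (1 + gv φ p) * gE φ p * th p.2 - gv φ p * gE φ p * (th p.2 - thc p.2)

lemma exp_smul_one (r : ℝ) : NormedSpace.exp (r • (1 : A)) = Real.exp r • (1 : A) := by
  rw [← Algebra.algebraMap_eq_smul_one, ← Algebra.algebraMap_eq_smul_one,
    ← NormedSpace.algebraMap_exp_comm, Real.exp_eq_exp_ℝ]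

variable {φ} (hφ : ∀ x : A, x * φ x = NormedSpace.exp x - 1)

include hφ in
lemma exp_split (r : ℝ) (a : A) :
    NormedSpace.exp (r • (1 : A) + a) = Real.exp r • (1 + a * φ a) := by
  letI : NormedAlgebra ℚ A := NormedAlgebra.restrictScalars ℚ ℝ A
  rw [NormedSpace.exp_add, exp_smul_one, hφ]
  rw [Algebra.smul_def, Algebra.smul_def]
  ring

include hφ in
lemma vf_eq (s : ℝ) (b : V) : vf s b = gv φ (s, b) := by
  unfold vf Wf gv gv1 gv0
  rw [exp_split hφ]
  simp only [Algebra.smul_def]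
  ring

include hφ in
lemma Ef_eq (s : ℝ) (b : V) : Ef s b = gE φ (s, b) := by
  unfold Ef
  rw [vf_eq hφ]
  have h1 : -gv φ (s, b) = (-gv0 (s, b)) • (1 : A) + (-(s • gv1 φ (s, b))) := by
    unfold gv
    rw [neg_add, neg_smul]
  rw [h1, exp_split hφ]
  unfold gE gE1 ge0
  simp only [Algebra.smul_def]
  ring

include hφ in
lemma Qf_eq (s : ℝ) (b : V) :
    Qf s b = ((1 + gv0 (s, b)) * ge0 (s, b)) • (1 : A) + s • gH φ (s, b) := by
  unfold Qf
  rw [vf_eq hφ, Ef_eq hφ]
  unfold gH gK1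
  have h1 : gv φ (s, b) = gv0 (s, b) • (1 : A) + s • gv1 φ (s, b) := rfl
  have h2 : gE φ (s, b) = ge0 (s, b) • (1 : A) + s • gE1 φ (s, b) := rfl
  rw [h1, h2]
  generalize gv0 (s, b) = x0
  generalize ge0 (s, b) = y0
  generalize gv1 φ (s, b) = x1
  generalize gE1 φ (s, b) = y1
  simp only [Algebra.smul_def, map_mul, map_add, map_one]
  ring

end

lemma contDiff_uu : ContDiff ℝ 1 fun b : V => uu b := by
  unfold uu
  exact contDiff_const.add (hL.contDiff.add hcL.contDiff)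

lemma contDiff_th : ContDiff ℝ 1 fun b : V => th b := by
  unfold th
  exact contDiff_const.add thL.contDiff

lemma contDiff_thc : ContDiff ℝ 1 fun b : V => thc b := by
  unfold thc
  exact contDiff_const.add thcL.contDiff

lemma contDiff_gv0 : ContDiff ℝ 1 fun p : ℝ × V => gv0 p := by
  unfold gv0
  have h : ContDiff ℝ 1 fun p : ℝ × V => p.2 0 :=
    ((lp.evalCLM ℝ (fun _ : ℕ => ℝ) (p := 1) 0).contDiff).comp contDiff_snd
  exact h.exp

lemma contDiff_ge0 : ContDiff ℝ 1 fun p : ℝ × V => ge0 p := by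
  unfold ge0
  exact contDiff_gv0.neg.exp

section

variable {φ : A → A} (hd : ContDiff ℝ 1 φ)

include hd in
lemma contDiff_gv1 : ContDiff ℝ 1 fun p : ℝ × V => gv1 φ p := by
  unfold gv1
  have hu : ContDiff ℝ 1 fun p : ℝ × V => uu p.2 := contDiff_uu.comp contDiff_snd
  exact contDiff_gv0.smul (hu.mul (hd.comp (contDiff_fst.smul hu)))

include hd in
lemma contDiff_gv : ContDiff ℝ 1 fun p : ℝ × V => gv φ p := by
  unfold gv
  exact (contDiff_gv0.smul contDiff_const).add (contDiff_fst.smul (contDiff_gv1 hd))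

include hd in
lemma contDiff_gE1 : ContDiff ℝ 1 fun p : ℝ × V => gE1 φ p := by
  unfold gE1
  exact (contDiff_ge0.smul ((contDiff_gv1 hd).mul
    (hd.comp ((contDiff_fst.smul (contDiff_gv1 hd)).neg)))).neg

include hd in
lemma contDiff_gE : ContDiff ℝ 1 fun p : ℝ × V => gE φ p := by
  unfold gE
  exact (contDiff_ge0.smul contDiff_const).add (contDiff_fst.smul (contDiff_gE1 hd))

include hd in
lemma contDiff_gK1 : ContDiff ℝ 1 fun p : ℝ × V => gK1 φ p := by
  unfold gK1
  exact ((contDiff_const.add (contDiff_gv hd)).mul (contDiff_gE1 hd)).add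
    (contDiff_ge0.smul (contDiff_gv1 hd))

include hd in
lemma contDiff_gH : ContDiff ℝ 1 fun p : ℝ × V => gH φ p := by
  unfold gH
  have ht : ContDiff ℝ 1 fun p : ℝ × V => th p.2 := contDiff_th.comp contDiff_snd
  have htc : ContDiff ℝ 1 fun p : ℝ × V => thc p.2 := contDiff_thc.comp contDiff_snd
  exact ((contDiff_gK1 hd).add (((contDiff_const.add (contDiff_gv hd)).mul
    (contDiff_gE hd)).mul ht)).sub (((contDiff_gv hd).mul (contDiff_gE hd)).mul (ht.sub htc))

end

theorem task_GG : S_GG := by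
  intro h1 h2
  obtain ⟨φ, hd, h0, hφ⟩ := h1 A
  obtain ⟨p1, p2, p3, p4, p5, p6, p7⟩ := h2
  refine ⟨fun p => P (gH φ p), P.contDiff.comp (contDiff_gH hd), ?_, ?_⟩
  · intro b j
    have hv1 : gv1 φ ((0 : ℝ), b) = gv0 ((0 : ℝ), b) • uu b := by
      simp [gv1, h0]
    have hv : gv φ ((0 : ℝ), b) = gv0 ((0 : ℝ), b) • (1 : A) := by
      simp [gv]
    have hE1 : gE1 φ ((0 : ℝ), b) = -(ge0 ((0 : ℝ), b) • gv0 ((0 : ℝ), b) • uu b) := by
      simp [gE1, h0, hv1]
    have hE : gE φ ((0 : ℝ), b) = ge0 ((0 : ℝ), b) • (1 : A) := by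
      simp [gE]
    have hH : gH φ ((0 : ℝ), b) = (-(ge0 ((0 : ℝ), b) * gv0 ((0 : ℝ), b) ^ 2)) • uu b
        + ((1 + gv0 ((0 : ℝ), b)) * ge0 ((0 : ℝ), b)) • th b
        - (gv0 ((0 : ℝ), b) * ge0 ((0 : ℝ), b)) • (th b - thc b) := by
      unfold gH gK1
      rw [hv1, hv, hE1, hE]
      simp only [Algebra.smul_def, map_mul, map_add, map_one, map_neg, map_pow]
      ring
    have hth : P (th b) = 0 := by
      unfold th
      rw [map_add, p2, p4, add_zero]
    have hPH : P (gH φ ((0 : ℝ), b)) = (-(ge0 ((0 : ℝ), b) * gv0 ((0 : ℝ), b) ^ 2)) • P (uu b)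
        + (gv0 ((0 : ℝ), b) * ge0 ((0 : ℝ), b)) • P (thc b) := by
      rw [hH, map_sub, map_add, map_smul, map_smul, map_smul, map_sub, hth]
      simp
    have hj : P (gH φ ((0 : ℝ), b)) j = (-(ge0 ((0 : ℝ), b) * gv0 ((0 : ℝ), b) ^ 2)) * P (uu b) j
        + (gv0 ((0 : ℝ), b) * ge0 ((0 : ℝ), b)) * P (thc b) j := by
      rw [hPH]
      rfl
    have hu : P (uu b) j = (if j = 0 then 1 else 0) + (if j = 0 then 0 else b j / ((j : ℝ) + 1)) := by
      unfold uu
      rw [map_add, map_add, map_add, p2, p5, zero_add, zero_add]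
      show P (dl (-1)) j + P (hcL b) j = _
      rw [p3, p7]
    have htc : P (thc b) j = (if j = 0 then 1 else 0) + (if j = 0 then 0 else b j) := by
      unfold thc
      rw [map_add]
      show P (dl (-1)) j + P (thcL b) j = _
      rw [p3, p6]
    show P (gH φ ((0 : ℝ), b)) j = _
    rw [hj, hu, htc]
    have g0 : gv0 ((0 : ℝ), b) = Real.exp (b 0) := rfl
    have g1 : ge0 ((0 : ℝ), b) = Real.exp (-Real.exp (b 0)) := rfl
    rw [g0, g1]
    unfold lamf
    by_cases h : j = 0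
    · subst h
      simp
      ring
    · simp only [if_neg h]
      have hj1 : ((j : ℝ) + 1) ≠ 0 := by positivity
      field_simp
      ring
  · intro s b
    rw [Qf_eq hφ s b, map_add, p1, zero_add, map_smul]

end Q69.HW
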