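import Pool.Agent.Q69.HW.Stm

set_option autoImplicit false

open MeasureTheory Topology

namespace Q69.HW

/-- the derivative of the diagonal part -/
noncomputable def dd (j : ℕ) : ℝ :=
  if j = 0 then -Real.exp (-1) else Real.exp (-1) * (1 - 1 / ((j : ℝ) + 1))

lemma dd_lower (j : ℕ) : Real.exp (-1) / 2 ≤ |dd j| := by
  have he : 0 < Real.exp (-1) := Real.exp_pos _
  unfold dd
  split_ifs with h
  · rw [abs_neg, abs_of_pos he]; linarith
  · have hj : (1 : ℝ) ≤ j := by exact_mod_cast Nat.one_le_iff_ne_zero.2 h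
    have h2 : 1 / ((j : ℝ) + 1) ≤ 1 / 2 := by
      apply one_div_le_one_div_of_le <;> linarith
    rw [abs_of_nonneg (mul_nonneg he.le (by linarith))]
    nlinarith

lemma dd_upper (j : ℕ) : |dd j| ≤ 1 := by
  have he : 0 < Real.exp (-1) := Real.exp_pos _
  have he1 : Real.exp (-1) ≤ 1 := by
    rw [Real.exp_le_one_iff]; norm_num
  unfold dd
  split_ifs with h
  · rw [abs_neg, abs_of_pos he]; exact he1
  · have hj : (0 : ℝ) ≤ j := Nat.cast_nonneg j
    have h2 : 0 ≤ 1 / ((j : ℝ) + 1) := by positivity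
    have h3 : 1 / ((j : ℝ) + 1) ≤ 1 := by
      rw [div_le_one (by linarith)]; linarith
    rw [abs_of_nonneg (mul_nonneg he.le (by linarith))]
    nlinarith

lemma lamf_zero (j : ℕ) : lamf 0 j = Real.exp (-1) * (1 - 1 / ((j : ℝ) + 1)) := by
  unfold lamf
  simp

lemma hasDerivAt_lamf (j : ℕ) (x : ℝ) : ∃ l : ℝ, HasDerivAt (fun x => lamf x j) l x ∧
    (x = 0 → j = 0 → l = -Real.exp (-1)) := by
  have h1 : HasDerivAt (fun x : ℝ => Real.exp x) (Real.exp x) x := Real.hasDerivAt_exp x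
  have h2 : HasDerivAt (fun x : ℝ => Real.exp (-Real.exp x))
      (Real.exp (-Real.exp x) * (-Real.exp x)) x := (h1.fun_neg).exp
  have h3 : HasDerivAt (fun x : ℝ => 1 - Real.exp x / ((j : ℝ) + 1))
      (0 - Real.exp x / ((j : ℝ) + 1)) x :=
    (hasDerivAt_const x 1).fun_sub (h1.div_const _)
  refine ⟨_, (h1.mul h2).mul h3, ?_⟩
  intro hx hj
  subst hx hj
  simp

theorem task_IFT : S_IFT := by
  intro hD G hG hform ε hε
  obtain ⟨D, hDb⟩ := hD dd (Real.exp (-1) / 2) 1 (by positivity) dd_lower dd_upper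
  have hlam0 : lamf 0 0 = 0 := by rw [lamf_zero]; simp
  have hV0 : ∀ j : ℕ, (0 : V) j = 0 := fun j => rfl
  have hG0 : G (0, 0) = 0 := by
    apply lp.ext
    funext j
    rw [hform 0 j]
    by_cases h : j = 0
    · simp [h, hV0, hlam0]
    · simp [h, hV0]
  have hs : HasStrictFDerivAt G (fderiv ℝ G (0, 0)) (0, 0) :=
    hG.contDiffAt.hasStrictFDerivAt (by norm_num)
  set G' := fderiv ℝ G (0, 0) with hG'
  have key : ∀ b : V, G' (0, b) = D b := by
    intro b
    apply lp.ext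
    funext j
    have hc : HasDerivAt (fun r : ℝ => ((0 : ℝ), r • b)) ((0 : ℝ), b) 0 := by
      refine HasDerivAt.prodMk (hasDerivAt_const _ _) ?_
      have := (hasDerivAt_id (0 : ℝ)).smul_const b
      simpa using this
    have hh : HasFDerivAt G G' ((0 : ℝ), (0 : ℝ) • b) := by
      rw [zero_smul]; exact hs.hasFDerivAt
    have h1 : HasDerivAt (fun r : ℝ => G (0, r • b)) (G' (0, b)) 0 :=
      HasFDerivAt.comp_hasDerivAt (0 : ℝ) hh hc
    have h2 : HasDerivAt (fun r : ℝ => G (0, r • b) j) (G' (0, b) j) 0 :=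
      ((lp.evalCLM ℝ (fun _ : ℕ => ℝ) (p := 1) j).hasFDerivAt.comp_hasDerivAt (0 : ℝ) h1)
    have h3 : HasDerivAt (fun r : ℝ => G (0, r • b) j) (dd j * b j) 0 := by
      have e1 : (fun r : ℝ => G (0, r • b) j)
          = fun r : ℝ => if j = 0 then lamf (r * b 0) 0 else lamf (r * b 0) j * (r * b j) := by
        funext r
        rw [hform]
        rfl
      rw [e1]
      obtain ⟨l, hl, hl2⟩ := hasDerivAt_lamf j (0 * b 0)
      have hm : HasDerivAt (fun r : ℝ => r * b 0) (b 0) 0 := by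
        simpa using (hasDerivAt_id (0 : ℝ)).mul_const (b 0)
      have hl3 : HasDerivAt (fun r : ℝ => lamf (r * b 0) j) (l * b 0) 0 :=
        HasDerivAt.comp (h₂ := fun x => lamf x j) (h := fun r : ℝ => r * b 0) (0 : ℝ) hl hm
      by_cases h : j = 0
      · subst h
        simp only [if_true]
        refine hl3.congr_deriv ?_
        rw [hl2 (by simp) rfl]
        simp [dd]
      · simp only [h, if_false]
        have hm2 : HasDerivAt (fun r : ℝ => r * b j) (b j) 0 := by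
          simpa using (hasDerivAt_id (0 : ℝ)).mul_const (b j)
        refine (hl3.mul hm2).congr_deriv ?_
        rw [zero_mul, mul_zero, zero_add, zero_mul, lamf_zero, dd, if_neg h]
    show G' (0, b) j = D b j
    rw [hDb]
    exact h2.unique h3
  have hsplit : ∀ (s : ℝ) (b : V), G' (s, b) = G' (s, 0) + D b := by
    intro s b
    rw [← key, ← map_add]
    simp
  let L : (ℝ × V) →L[ℝ] (ℝ × V) := (ContinuousLinearMap.fst ℝ ℝ V).prod G'
  let M : (ℝ × V) →L[ℝ] (ℝ × V) := (ContinuousLinearMap.fst ℝ ℝ V).prod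
    ((D.symm : V →L[ℝ] V).comp (ContinuousLinearMap.snd ℝ ℝ V -
      G'.comp ((ContinuousLinearMap.inl ℝ ℝ V).comp (ContinuousLinearMap.fst ℝ ℝ V))))
  have hL : ∀ p : ℝ × V, L p = (p.1, G' (p.1, 0) + D p.2) := by
    intro p
    show (p.1, G' p) = _
    rw [← hsplit]
  have hM : ∀ p : ℝ × V, M p = (p.1, D.symm (p.2 - G' (p.1, 0))) := by
    intro p
    rfl
  have e1 : Function.LeftInverse M L := by
    intro p
    rw [hL, hM]
    simp
  have e2 : Function.RightInverse M L := by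
    intro p
    rw [hM, hL]
    simp
  let E : (ℝ × V) ≃L[ℝ] (ℝ × V) := ContinuousLinearEquiv.equivOfInverse L M e1 e2
  have hf : HasStrictFDerivAt (fun p : ℝ × V => (p.1, G p)) (E : (ℝ × V) →L[ℝ] (ℝ × V))
      ((0 : ℝ), (0 : V)) :=
    hasStrictFDerivAt_fst.prodMk hs
  have hmap := hf.map_nhds_eq_of_equiv
  have hU : {p : ℝ × V | |p.1| < ε ∧ ‖p.2‖ < ε} ∈ 𝓝 ((0 : ℝ), (0 : V)) := by
    refine IsOpen.mem_nhds ?_ (by simp [hε])
    have c1 : Continuous fun p : ℝ × V => |p.1| := continuous_fst.abs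
    have c2 : Continuous fun p : ℝ × V => ‖p.2‖ := continuous_snd.norm
    exact (isOpen_lt c1 continuous_const).inter (isOpen_lt c2 continuous_const)
  have him : (fun p : ℝ × V => (p.1, G p)) '' {p : ℝ × V | |p.1| < ε ∧ ‖p.2‖ < ε}
      ∈ 𝓝 ((0 : ℝ), (0 : V)) := by
    have h1 := Filter.image_mem_map (m := fun p : ℝ × V => (p.1, G p)) hU
    rw [hmap] at h1
    simpa [hG0] using h1
  obtain ⟨δ, hδ, hball⟩ := Metric.mem_nhds_iff.1 him
  have hmem : ((δ / 2 : ℝ), (0 : V)) ∈ Metric.ball ((0 : ℝ), (0 : V)) δ := by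
    rw [Metric.mem_ball, dist_eq_norm]
    simp [Prod.norm_def, abs_of_pos hδ]
    linarith
  obtain ⟨p, ⟨hp1, hp2⟩, hp3⟩ := hball hmem
  have h5 : p.1 = δ / 2 := congrArg Prod.fst hp3
  have h6 : G p = 0 := congrArg Prod.snd hp3
  refine ⟨p.1, p.2, by rw [h5]; linarith, ?_, hp2, h6⟩
  rw [abs_of_pos (by rw [h5]; linarith)] at hp1
  exact hp1

end Q69.HW
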