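import Pool.Agent.Q69.HW.Stm

set_option autoImplicit false

open MeasureTheory Topology

namespace Q69.HW

theorem task_PHI1 : S_PHI1 := by
  intro B _ _ _
  let c : ℕ → ℝ := fun n => ((n + 1).factorial : ℝ)⁻¹
  let p : FormalMultilinearSeries ℝ B B := FormalMultilinearSeries.ofScalars B c
  have hc : ∀ n, c n ≠ 0 := fun n => inv_ne_zero (by exact_mod_cast (n + 1).factorial_ne_zero)
  have hr : p.radius = ⊤ := by
    refine FormalMultilinearSeries.ofScalars_radius_eq_top_of_tendsto B c
      (Filter.Eventually.of_forall hc) ?_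
    have h1 : (fun n : ℕ => ‖c n.succ‖ / ‖c n‖) = fun n : ℕ => 1 / ((n : ℝ) + 2) := by
      funext n
      have h2 : ((n.succ + 1).factorial : ℝ) = ((n : ℝ) + 2) * ((n + 1).factorial : ℝ) := by
        rw [Nat.factorial_succ (n.succ)]
        push_cast
        ring
      have h3 : ((n + 1).factorial : ℝ) ≠ 0 := by exact_mod_cast (n + 1).factorial_ne_zero
      have h4 : ((n : ℝ) + 2) ≠ 0 := by positivity
      have h5 : (0 : ℝ) < ((n + 1).factorial : ℝ) := by exact_mod_cast (n + 1).factorial_pos
      simp only [c, h2, Real.norm_eq_abs]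
      rw [abs_of_pos (by positivity), abs_of_pos (by positivity)]
      field_simp
    rw [h1]
    have h5 : Filter.Tendsto (fun n : ℕ => (n : ℝ) + 2) Filter.atTop Filter.atTop :=
      Filter.tendsto_atTop_add_const_right _ _ tendsto_natCast_atTop_atTop
    simp only [one_div]
    exact h5.inv_tendsto_atTop
  have hp : HasFPowerSeriesOnBall p.sum p 0 p.radius :=
    p.hasFPowerSeriesOnBall (by rw [hr]; exact ENNReal.zero_lt_top)
  have hsum : ∀ x : B, HasSum (fun n => c n • x ^ n) (p.sum x) := by
    intro x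
    have h1 := hp.hasSum (y := x) (by rw [hr]; simp)
    rw [zero_add] at h1
    have h2 : (fun n => p n fun _ => x) = fun n => c n • x ^ n := by
      funext n
      exact FormalMultilinearSeries.ofScalars_apply_eq c x n
    rw [h2] at h1
    exact h1
  refine ⟨p.sum, ?_, ?_, ?_⟩
  · rw [contDiff_iff_contDiffAt]
    intro x
    have h1 : AnalyticAt ℝ p.sum x := hp.analyticOnNhd x (by rw [hr]; simp)
    exact h1.contDiffAt
  · have h1 := (hsum 0).unique (hasSum_single 0 (fun n hn => by simp [hn]))
    rw [h1]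
    simp [c]
  · intro x
    have h1 := (hsum x).mul_left x
    have h2 := NormedSpace.exp_series_hasSum_exp' (𝕂 := ℝ) x
    have h3 := (hasSum_nat_add_iff' 1).2 h2
    have h4 : (fun n : ℕ => x * (c n • x ^ n)) = fun n : ℕ => (((n + 1).factorial : ℝ)⁻¹) • x ^ (n + 1) := by
      funext n
      rw [mul_smul_comm, pow_succ']
    rw [h4] at h1
    rw [h1.unique h3]
    simp

end Q69.HW
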