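import Pool.Agent.Q69.HW.TOP

set_option autoImplicit false

open MeasureTheory Topology

namespace Q69.HW

/-- The radial density. -/
noncomputable def rdens (k : ℕ) (ρ : ℝ) : ℝ :=
  ρ ^ (k + 1) * (Real.pi * ρ ^ 2 - k) * Real.exp (-(Real.pi * ρ ^ 2))

lemma continuous_rdens (k : ℕ) : Continuous (rdens k) := by
  unfold rdens
  fun_prop

lemma pt_polar (r θ : ℝ) :
    pt (r * Real.cos θ, r * Real.sin θ) = (r : ℂ) * Complex.exp (θ * Complex.I) := by
  unfold pt
  rw [Complex.exp_mul_I]
  push_cast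
  ring

lemma mw_polar (k : ℕ) (r θ : ℝ) :
    r • mw k (r * Real.cos θ, r * Real.sin θ)
      = Complex.exp (k * θ * Complex.I) * ((rdens k r : ℝ) : ℂ) := by
  unfold mw rdens
  rw [pt_polar, mul_pow, ← Complex.exp_nat_mul]
  have h1 : (r * Real.cos θ) ^ 2 + (r * Real.sin θ) ^ 2 = r ^ 2 := by
    have := Real.sin_sq_add_cos_sq θ
    nlinarith
  have h2 : ((r * Real.cos θ, r * Real.sin θ) : ℝ × ℝ).1 ^ 2
      + ((r * Real.cos θ, r * Real.sin θ) : ℝ × ℝ).2 ^ 2 = r ^ 2 := h1
  rw [h2, Complex.real_smul, mul_assoc (k : ℂ)]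
  push_cast
  ring

theorem task_POL : S_POL := by
  intro R hR h0 k
  have hSm : MeasurableSet (dom R) := by
    have h1 : Measurable fun w : ℝ × ℝ => Real.sqrt (w.1 ^ 2 + w.2 ^ 2) := continuous_sq.measurable
    have h2 : Measurable fun w : ℝ × ℝ => R (Complex.arg (pt w)) :=
      hR.measurable.comp (Complex.measurable_arg.comp continuous_pt'.measurable)
    exact measurableSet_lt h1 h2
  set T : Set (ℝ × ℝ) := {z | z.2 < R z.1} with hT
  have hTm : MeasurableSet T :=
    (isOpen_lt continuous_snd (hR.comp continuous_fst)).measurableSet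
  set g : ℝ × ℝ → ℂ := fun z => Complex.exp (k * z.1 * Complex.I) * ((rdens k z.2 : ℝ) : ℂ) with hg
  have hgc : Continuous g := by
    rw [hg]
    have := continuous_rdens k
    fun_prop
  rw [← integral_indicator hSm, ← integral_comp_polarCoord_symm]
  have e1 : (∫ p in polarCoord.target,
        p.1 • (dom R).indicator (fun w => mw k w) (polarCoord.symm p))
      = ∫ p in polarCoord.target, T.indicator g p.swap := by
    refine setIntegral_congr_fun polarCoord.open_target.measurableSet ?_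
    intro p hp
    rw [polarCoord_target] at hp
    obtain ⟨hp1, hp2⟩ := hp
    have hp1' : 0 < p.1 := hp1
    have hp2' : p.2 ∈ Set.Ioc (-Real.pi) Real.pi := ⟨hp2.1, hp2.2.le⟩
    have hsym : polarCoord.symm p = (p.1 * Real.cos p.2, p.1 * Real.sin p.2) := polarCoord_symm_apply p
    have hiff : polarCoord.symm p ∈ dom R ↔ p.swap ∈ T := by
      rw [hsym, mem_dom, arg_polar _ _ hp1' hp2', sqrt_polar _ _ hp1']
      rfl
    show p.1 • (dom R).indicator (fun w => mw k w) (polarCoord.symm p) = T.indicator g p.swap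
    by_cases hmem : p.swap ∈ T
    · rw [Set.indicator_of_mem hmem, Set.indicator_of_mem (hiff.2 hmem), hsym, mw_polar]
      rfl
    · rw [Set.indicator_of_notMem hmem, Set.indicator_of_notMem (fun h => hmem (hiff.1 h)), smul_zero]
  rw [e1, polarCoord_target, Measure.volume_eq_prod]
  have e2 := setIntegral_prod_swap (μ := (volume : Measure ℝ)) (ν := (volume : Measure ℝ))
    (Set.Ioo (-Real.pi) Real.pi) (Set.Ioi (0 : ℝ)) (T.indicator g)
  rw [e2]
  -- integrability
  obtain ⟨m, M, hm, hM, hb⟩ := exists_bounds R hR h0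
  have hbd : ∀ θ ∈ Set.Ioo (-Real.pi) Real.pi, R θ ≤ M := by
    intro θ hθ
    have h1 := (hb (pt (1 * Real.cos θ, 1 * Real.sin θ))).2
    rwa [arg_polar 1 θ one_pos ⟨hθ.1, hθ.2.le⟩] at h1
  have hint : IntegrableOn (T.indicator g) (Set.Ioo (-Real.pi) Real.pi ×ˢ Set.Ioi (0 : ℝ))
      ((volume : Measure ℝ).prod volume) := by
    have h1 : IntegrableOn (T.indicator g) (Set.Icc (-Real.pi) Real.pi ×ˢ Set.Icc (0 : ℝ) M)
        ((volume : Measure ℝ).prod volume) := by
      have h2 : IntegrableOn g (Set.Icc (-Real.pi) Real.pi ×ˢ Set.Icc (0 : ℝ) M)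
          ((volume : Measure ℝ).prod volume) :=
        hgc.continuousOn.integrableOn_compact (isCompact_Icc.prod isCompact_Icc)
      exact Integrable.indicator h2 hTm
    refine h1.of_forall_diff_eq_zero (measurableSet_Ioo.prod measurableSet_Ioi) ?_
    rintro z ⟨⟨hz1, hz2⟩, hz3⟩
    apply Set.indicator_of_notMem
    intro hz4
    apply hz3
    have hz4' : z.2 < R z.1 := hz4
    have hz2' : 0 < z.2 := hz2
    exact ⟨⟨hz1.1.le, hz1.2.le⟩, ⟨hz2'.le, (hz4'.le).trans (hbd _ hz1)⟩⟩
  rw [setIntegral_prod _ hint, intervalIntegral.integral_of_le (by linarith [Real.pi_pos]),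
    integral_Ioc_eq_integral_Ioo]
  refine setIntegral_congr_fun measurableSet_Ioo ?_
  intro θ hθ
  show ∫ y in Set.Ioi (0 : ℝ), T.indicator g (θ, y) = Complex.exp (k * θ * Complex.I) * Ik k (R θ)
  have e3 : (fun y : ℝ => T.indicator g (θ, y))
      = (Set.Iio (R θ)).indicator fun y => g (θ, y) := by
    funext y
    by_cases hy : y < R θ
    · rw [Set.indicator_of_mem (show (θ, y) ∈ T from hy), Set.indicator_of_mem (Set.mem_Iio.2 hy)]
    · rw [Set.indicator_of_notMem (show (θ, y) ∉ T from hy),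
        Set.indicator_of_notMem (fun h => hy (Set.mem_Iio.1 h))]
  rw [e3, setIntegral_indicator measurableSet_Iio]
  have e4 : Set.Ioi (0 : ℝ) ∩ Set.Iio (R θ) = Set.Ioo 0 (R θ) := rfl
  rw [e4, ← integral_Ioc_eq_integral_Ioo, ← intervalIntegral.integral_of_le (h0 θ).le]
  show ∫ y in (0 : ℝ)..(R θ), Complex.exp (k * θ * Complex.I) * ((rdens k y : ℝ) : ℂ) = _
  rw [intervalIntegral.integral_const_mul, intervalIntegral.integral_ofReal]
  rfl

end Q69.HW
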