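import Pool.Agent.Q69.HW.Stm

set_option autoImplicit false

open MeasureTheory Topology

namespace Q69.HW

lemma GoodCurve.cont {ε : ℝ} {H τ : ℝ → ℂ} (h : GoodCurve ε H τ) : Continuous H :=
  continuous_iff_continuousAt.2 fun t => (h.deriv t).continuousAt

lemma GoodCurve.deriv_re {ε : ℝ} {H τ : ℝ → ℂ} (h : GoodCurve ε H τ) (t : ℝ) :
    HasDerivAt (fun t => (H t).re) (-(τ t).im) t := by
  have h1 := (Complex.reCLM.hasFDerivAt (x := H t)).comp_hasDerivAt t (h.deriv t)
  refine h1.congr_deriv ?_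
  simp [Complex.mul_re]

lemma GoodCurve.deriv_im {ε : ℝ} {H τ : ℝ → ℂ} (h : GoodCurve ε H τ) (t : ℝ) :
    HasDerivAt (fun t => (H t).im) ((τ t).re) t := by
  have h1 := (Complex.imCLM.hasFDerivAt (x := H t)).comp_hasDerivAt t (h.deriv t)
  refine h1.congr_deriv ?_
  simp [Complex.mul_im]

lemma GoodCurve.deriv_phi {ε : ℝ} {H τ : ℝ → ℂ} (h : GoodCurve ε H τ) (t : ℝ) :
    HasDerivAt (phi H) (1 + (τ t).re) t :=
  (hasDerivAt_id t).add (h.deriv_im t)

lemma GoodCurve.phi_lower {ε : ℝ} {H τ : ℝ → ℂ} (h : GoodCurve ε H τ) (t : ℝ) :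
    1 / 2 ≤ 1 + (τ t).re := by
  have h1 := Complex.abs_re_le_norm (τ t)
  have h2 := h.small t
  have h3 := neg_abs_le (τ t).re
  linarith

lemma GoodCurve.phi_per {ε : ℝ} {H τ : ℝ → ℂ} (h : GoodCurve ε H τ) (t : ℝ) :
    phi H (t + 2 * Real.pi) = phi H t + 2 * Real.pi := by
  unfold phi
  rw [h.per]
  ring

lemma GoodCurve.im_pi {ε : ℝ} {H τ : ℝ → ℂ} (h : GoodCurve ε H τ) : (H Real.pi).im = 0 := by
  have h1 := h.conj Real.pi
  have h2 := h.per (-Real.pi)
  have h3 : -Real.pi + 2 * Real.pi = Real.pi := by ring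
  rw [h3] at h2
  have h4 : (H (-Real.pi)).im = -(H Real.pi).im := by rw [h1]; simp
  rw [← h2] at h4
  linarith

theorem task_PSI : S_PSI := by
  intro ε H τ h
  have hmono : StrictMono (phi H) := by
    refine strictMono_of_deriv_pos fun t => ?_
    rw [(h.deriv_phi t).deriv]
    have := h.phi_lower t
    linarith
  have hcont : Continuous (phi H) :=
    continuous_iff_continuousAt.2 fun t => (h.deriv_phi t).continuousAt
  have hg : Monotone fun t => phi H t - t / 2 := by
    have hd : ∀ t, HasDerivAt (fun t => phi H t - t / 2) ((1 + (τ t).re) - 1 / 2) t := fun t =>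
      (h.deriv_phi t).sub ((hasDerivAt_id t).div_const 2)
    refine monotone_of_deriv_nonneg (fun t => (hd t).differentiableAt) fun t => ?_
    rw [(hd t).deriv]
    have := h.phi_lower t
    linarith
  have htop : Filter.Tendsto (phi H) Filter.atTop Filter.atTop := by
    have h1 : Filter.Tendsto (fun t : ℝ => phi H 0 + t / 2) Filter.atTop Filter.atTop :=
      Filter.tendsto_atTop_add_const_left _ _ (Filter.tendsto_id.atTop_div_const (by norm_num))
    refine Filter.tendsto_atTop_mono' _ ?_ h1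
    filter_upwards [Filter.eventually_ge_atTop 0] with t ht
    have := hg ht
    simp only at this
    linarith
  have hbot : Filter.Tendsto (phi H) Filter.atBot Filter.atBot := by
    have h1 : Filter.Tendsto (fun t : ℝ => phi H 0 + t / 2) Filter.atBot Filter.atBot :=
      Filter.tendsto_atBot_add_const_left _ _ (Filter.tendsto_id.atBot_div_const (by norm_num))
    refine Filter.tendsto_atBot_mono' _ ?_ h1
    filter_upwards [Filter.eventually_le_atBot 0] with t ht
    have := hg ht
    simp only at this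
    linarith
  have hsurj : Function.Surjective (phi H) := hcont.surjective htop hbot
  let e : ℝ ≃o ℝ := hmono.orderIsoOfSurjective _ hsurj
  have he : ∀ t, e t = phi H t := fun t => rfl
  let ψ : ℝ → ℝ := e.symm
  have h1 : ∀ t, ψ (phi H t) = t := fun t => e.symm_apply_apply t
  have h2 : ∀ θ, phi H (ψ θ) = θ := fun θ => e.apply_symm_apply θ
  have hψc : Continuous ψ := e.symm.continuous
  have hψd : ∀ θ, HasDerivAt ψ (1 + (τ (ψ θ)).re)⁻¹ θ := by
    intro θ
    refine HasDerivAt.of_local_left_inverse hψc.continuousAt (h.deriv_phi (ψ θ)) ?_ ?_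
    · have := h.phi_lower (ψ θ)
      exact ne_of_gt (by linarith)
    · exact Filter.Eventually.of_forall h2
  refine ⟨ψ, ?_, h1, h2, ?_, ?_, ?_⟩
  · rw [contDiff_one_iff_deriv]
    refine ⟨fun θ => (hψd θ).differentiableAt, ?_⟩
    have h3 : deriv ψ = fun θ => (1 + (τ (ψ θ)).re)⁻¹ := funext fun θ => (hψd θ).deriv
    rw [h3]
    refine Continuous.inv₀ ?_ fun θ => ?_
    · exact continuous_const.add (Complex.continuous_re.comp (h.contτ.comp hψc))
    · have := h.phi_lower (ψ θ)
      exact ne_of_gt (by linarith)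
  · intro θ
    apply hmono.injective
    rw [h2, h.phi_per, h2]
  · unfold phi
    have h3 := h.conj Real.pi
    have h4 : (H (-Real.pi)).im = 0 := by rw [h3]; simp [h.im_pi]
    rw [h4, add_zero]
  · unfold phi
    rw [h.im_pi, add_zero]

end Q69.HW
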