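import Pool.Agent.Q69.HW.CF

/-!
# Closed subalgebras: series without negative modes, real series; `ORTH`, `REAL`
-/

set_option autoImplicit false

open MeasureTheory Topology

namespace Q69.HW

lemma exp_mem (S : Subalgebra ℝ A) (hS : IsClosed (S : Set A)) {a : A} (ha : a ∈ S) :
    NormedSpace.exp a ∈ S := by
  have h := NormedSpace.exp_series_hasSum_exp' (𝕂 := ℝ) a
  refine hS.mem_of_tendsto h.tendsto_sum_nat (Filter.Eventually.of_forall fun n => ?_)
  refine Subalgebra.sum_mem _ fun i _ => ?_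
  exact S.smul_mem (S.pow_mem ha i) _

lemma cf_mul (n : ℤ) (a c : A) : cf n (a * c) = ∑' m : ℤ, cf m a * cf (n - m) c := by
  have h := H937R3.EllOne.conv_apply (G := Multiplicative ℤ) a c (Multiplicative.ofAdd n)
  have h2 : cf n (a * c) = ∑' x : Multiplicative ℤ, H937R3.EllOne.coeff a x *
      H937R3.EllOne.coeff c (x⁻¹ * Multiplicative.ofAdd n) := h
  rw [h2, ← Multiplicative.ofAdd.tsum_eq]
  refine tsum_congr fun m => ?_
  have : (Multiplicative.ofAdd m)⁻¹ * Multiplicative.ofAdd n = Multiplicative.ofAdd (n - m) := by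
    rw [← ofAdd_neg, ← ofAdd_add]
    congr 1
    ring
  rw [this]
  rfl

lemma continuous_cf (n : ℤ) : Continuous fun a : A => cf n a := (cfL n).continuous

lemma algebraMap_A (r : ℝ) : algebraMap ℝ A r = r • dl 0 := by
  rw [Algebra.algebraMap_eq_smul_one, one_eq]

/-- Series without negative modes. -/
noncomputable def Aplus : Subalgebra ℝ A where
  carrier := {a | ∀ n : ℤ, n < 0 → cf n a = 0}
  mul_mem' := by
    intro a c ha hc n hn
    rw [cf_mul]
    rw [show (fun m : ℤ => cf m a * cf (n - m) c) = fun _ => 0 from ?_, tsum_zero]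
    funext m
    rcases lt_or_ge m 0 with h | h
    · rw [ha m h, zero_mul]
    · rw [hc (n - m) (by omega), mul_zero]
  add_mem' := by
    intro a c ha hc n hn
    rw [cf_add, ha n hn, hc n hn, add_zero]
  algebraMap_mem' := by
    intro r n hn
    rw [algebraMap_A, cf_smulR, cf_dl, if_neg (by omega), mul_zero]

lemma mem_Aplus {a : A} : a ∈ Aplus ↔ ∀ n : ℤ, n < 0 → cf n a = 0 := Iff.rfl

lemma isClosed_Aplus : IsClosed (Aplus : Set A) := by
  have : (Aplus : Set A) = ⋂ n : ℤ, ⋂ _ : n < 0, {a | cf n a = 0} := by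
    ext a
    simp only [Set.mem_iInter, Set.mem_ofPred_eq]
    exact mem_Aplus
  rw [this]
  exact isClosed_iInter fun n => isClosed_iInter fun _ =>
    isClosed_eq (continuous_cf n) continuous_const

/-- Real series. -/
noncomputable def Areal : Subalgebra ℝ A where
  carrier := {a | ∀ n : ℤ, (cf n a).im = 0}
  mul_mem' := by
    intro a c ha hc n
    rw [cf_mul]
    have h : (fun m : ℤ => cf m a * cf (n - m) c)
        = fun m : ℤ => (((cf m a).re * (cf (n - m) c).re : ℝ) : ℂ) := by
      funext m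
      have h1 : cf m a = ((cf m a).re : ℂ) := by
        apply Complex.ext
        · simp
        · simpa using ha m
      have h2 : cf (n - m) c = ((cf (n - m) c).re : ℂ) := by
        apply Complex.ext
        · simp
        · simpa using hc (n - m)
      rw [h1, h2]
      simp
    rw [h, ← Complex.ofReal_tsum]
    exact Complex.ofReal_im _
  add_mem' := by
    intro a c ha hc n
    rw [cf_add, Complex.add_im, ha n, hc n, add_zero]
  algebraMap_mem' := by
    intro r n
    rw [algebraMap_A, cf_smulR, cf_dl]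
    split_ifs <;> simp

lemma mem_Areal {a : A} : a ∈ Areal ↔ ∀ n : ℤ, (cf n a).im = 0 := Iff.rfl

lemma isClosed_Areal : IsClosed (Areal : Set A) := by
  have : (Areal : Set A) = ⋂ n : ℤ, {a | (cf n a).im = 0} := by
    ext a
    simp only [Set.mem_iInter, Set.mem_ofPred_eq]
    exact mem_Areal
  rw [this]
  exact isClosed_iInter fun n =>
    isClosed_eq (Complex.continuous_im.comp (continuous_cf n)) continuous_const

lemma dl_mem_Areal (m : ℤ) : dl m ∈ Areal := by
  intro n
  rw [cf_dl]
  split_ifs <;> simp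

lemma liftV_mem_Areal (v : ℕ → A) (C : ℝ) (hv : ∀ j, ‖v j‖ ≤ C) (h : ∀ j, v j ∈ Areal) (b : V) :
    liftV v C hv b ∈ Areal := by
  have hs := (summable_liftV v C hv b).hasSum
  rw [liftV_apply]
  refine isClosed_Areal.mem_of_tendsto hs.tendsto_sum_nat (Filter.Eventually.of_forall fun n => ?_)
  exact Subalgebra.sum_mem _ fun i _ => Areal.smul_mem (h i) _

lemma thL_mem (b : V) : thL b ∈ Areal := by
  refine liftV_mem_Areal _ _ _ (fun j => ?_) b
  unfold thv
  split_ifs
  · exact Areal.zero_mem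
  · exact dl_mem_Areal _

lemma thcL_mem (b : V) : thcL b ∈ Areal := by
  refine liftV_mem_Areal _ _ _ (fun j => ?_) b
  unfold thcv
  split_ifs
  · exact Areal.zero_mem
  · exact dl_mem_Areal _

lemma hL_mem (b : V) : hL b ∈ Areal := by
  refine liftV_mem_Areal _ _ _ (fun j => ?_) b
  unfold hv
  split_ifs
  · exact Areal.zero_mem
  · exact Areal.smul_mem (dl_mem_Areal _) _

lemma hcL_mem (b : V) : hcL b ∈ Areal := by
  refine liftV_mem_Areal _ _ _ (fun j => ?_) b
  unfold hcv
  split_ifs
  · exact Areal.zero_mem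
  · exact Areal.smul_mem (dl_mem_Areal _) _

theorem task_REAL : S_REAL := by
  intro s b
  have huu : uu b ∈ Areal :=
    Areal.add_mem (Areal.add_mem (dl_mem_Areal _) (dl_mem_Areal _))
      (Areal.add_mem (hL_mem b) (hcL_mem b))
  have hth : th b ∈ Areal := Areal.add_mem (dl_mem_Areal _) (thL_mem b)
  have hthc : thc b ∈ Areal := Areal.add_mem (dl_mem_Areal _) (thcL_mem b)
  have hW : Wf s b ∈ Areal :=
    Areal.add_mem (Areal.smul_mem Areal.one_mem _) (Areal.smul_mem huu _)
  have hv : vf s b ∈ Areal := exp_mem _ isClosed_Areal hW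
  have hE : Ef s b ∈ Areal := exp_mem _ isClosed_Areal (Areal.neg_mem hv)
  have hQ : Qf s b ∈ Areal :=
    Areal.sub_mem (Areal.mul_mem (Areal.mul_mem (Areal.add_mem Areal.one_mem hv) hE)
      (Areal.add_mem Areal.one_mem (Areal.smul_mem hth _)))
      (Areal.smul_mem (Areal.mul_mem (Areal.mul_mem hv hE) (Areal.sub_mem hth hthc)) _)
  exact mem_Areal.1 hQ

lemma dl_pow (k : ℕ) : dl 1 ^ k = dl k := by
  induction k with
  | zero => rw [pow_zero, one_eq]; rfl
  | succ k ih =>
    rw [pow_succ, ih, dl_mul]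
    push_cast
    rfl

theorem task_ORTH : S_ORTH := by
  intro k h q hk hh hq
  have h1 : NormedSpace.exp ((k : ℝ) • h) ∈ Aplus :=
    exp_mem _ isClosed_Aplus (Aplus.smul_mem (mem_Aplus.2 hh) _)
  have h2 : NormedSpace.exp ((k : ℝ) • h) * q ∈ Aplus := Aplus.mul_mem h1 (mem_Aplus.2 hq)
  rw [mul_assoc, dl_pow, cf_mul, tsum_eq_single (k : ℤ)]
  · rw [mem_Aplus.1 h2 (0 - (k : ℤ)) (by omega), mul_zero]
  · intro m hm
    rw [cf_dl, if_neg hm, zero_mul]

end Q69.HW
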