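import Pool.Agent.Q69.HW.Asm
import Pool.Agent.Q69.HW.PHI1
import Pool.Agent.Q69.HW.DIAG
import Pool.Agent.Q69.HW.IFT
import Pool.Agent.Q69.HW.CF
import Pool.Agent.Q69.HW.GG
import Pool.Agent.Q69.HW.SUB
import Pool.Agent.Q69.HW.CHI
import Pool.Agent.Q69.HW.CHIV
import Pool.Agent.Q69.HW.CURVE
import Pool.Agent.Q69.HW.PSI
import Pool.Agent.Q69.HW.IJ
import Pool.Agent.Q69.HW.BND
import Pool.Agent.Q69.HW.POL
import Pool.Agent.Q69.HW.HERM
import Pool.Agent.Q69.HW.BARG
import Pool.Agent.Q69.HW.SER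
import Pool.Agent.Q69.HW.EIG

/-!
# Final assembly (MP_11bc5f_an)
-/

set_option autoImplicit false

open MeasureTheory

namespace Q69.HW

/-- Star-shaped domains with continuously differentiable boundary, arbitrarily close to the disc of
area one but not discs, for which `h_0` is an eigenfunction of the localization operator with
window `h_1`. -/
theorem final (ε : ℝ) (hε : 0 < ε) :
    ∃ R : ℝ → ℝ, ContDiff ℝ 1 R ∧ (∀ θ, R (θ + 2 * Real.pi) = R θ) ∧
      (∀ θ, 0 < R θ ∧ |R θ - 1 / Real.sqrt Real.pi| < ε) ∧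
      IsOpen (dom R) ∧ SimplyConnectedSpace (dom R) ∧ 0 < volume (dom R) ∧ volume (dom R) < ⊤ ∧
      (∀ ρ : ℝ, ¬ (dom R =ᵐ[volume] {w : ℝ × ℝ | w.1 ^ 2 + w.2 ^ 2 < ρ ^ 2})) ∧
      IsEigenfunction 1 0 (dom R) :=
  main task_PHI1 task_DIAG task_IFT task_PB task_GG task_REAL task_ORTH task_HP task_CHI task_CHIV
    task_NONC task_CURVE task_PSI task_IJ task_BND task_RMOM task_POL task_CONT task_TOP task_NDISC
    task_HERM task_BARG task_STFT task_BZERO task_SER task_EIG ε hε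

end Q69.HW
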