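import Pool.Agent.Q69.HW.Stm

set_option autoImplicit false

open MeasureTheory Topology

namespace Q69.HW

/-- Taylor coefficients -/
noncomputable def tc (F : ℂ → ℂ) (k : ℕ) : ℂ := (k.factorial : ℂ)⁻¹ * iteratedDeriv k F 0

lemma hasSum_F {F : ℂ → ℂ} (hF : Differentiable ℂ F) (ζ : ℂ) :
    HasSum (fun k : ℕ => tc F k * ζ ^ k) (F ζ) := by
  have h := Complex.hasSum_taylorSeries_of_entire hF 0 ζ
  have e : (fun k : ℕ => tc F k * ζ ^ k)
      = fun n : ℕ => (n.factorial : ℂ)⁻¹ • (ζ - 0) ^ n • iteratedDeriv n F 0 := by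
    funext k
    simp only [tc, smul_eq_mul, sub_zero]
    ring
  rw [e]
  exact h

lemma hasSum_F' {F : ℂ → ℂ} (hF : Differentiable ℂ F) (ζ : ℂ) :
    HasSum (fun k : ℕ => (k : ℂ) * (tc F k * ζ ^ k)) (ζ * deriv F ζ) := by
  have hd : Differentiable ℂ (deriv F) := by
    have h1 : ContDiff ℂ 2 F := hF.contDiff
    exact (contDiff_succ_iff_deriv (n := 1).1 h1).2.2.differentiable (by norm_num)
  have h := (hasSum_F hd ζ).mul_left ζ
  have e : (fun k : ℕ => ζ * (tc (deriv F) k * ζ ^ k))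
      = fun k : ℕ => (((k + 1 : ℕ) : ℂ)) * (tc F (k + 1) * ζ ^ (k + 1)) := by
    funext k
    simp only [tc]
    rw [← iteratedDeriv_succ', Nat.factorial_succ]
    have h1 : (((k + 1 : ℕ) : ℂ)) ≠ 0 := by exact_mod_cast Nat.succ_ne_zero k
    have h2 : ((k.factorial : ℕ) : ℂ) ≠ 0 := by exact_mod_cast k.factorial_ne_zero
    push_cast at h1 ⊢
    field_simp
    try ring
  rw [e] at h
  have h2 := (hasSum_nat_add_iff (f := fun k : ℕ => (k : ℂ) * (tc F k * ζ ^ k)) 1).1 h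
  simpa using h2

lemma norm_pt (w : ℝ × ℝ) : ‖pt w‖ = Real.sqrt (w.1 ^ 2 + w.2 ^ 2) := by
  unfold pt
  rw [Complex.norm_add_mul_I]

lemma pt_mul_conj (w : ℝ × ℝ) : pt w * (starRingEnd ℂ) (pt w) = ((w.1 ^ 2 + w.2 ^ 2 : ℝ) : ℂ) := by
  rw [Complex.mul_conj, Complex.normSq_eq_norm_sq, norm_pt, Real.sq_sqrt (by positivity)]

lemma continuous_pt : Continuous pt := by
  unfold pt
  fun_prop

lemma continuous_mw (k : ℕ) : Continuous (mw k) := by
  unfold mw
  have := continuous_pt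
  fun_prop

theorem task_SER : S_SER := by
  intro Ω hΩ ⟨C, hC⟩ hmom F hF
  -- a radius
  set M : ℝ := Real.sqrt C with hM
  have hM0 : 0 ≤ M := Real.sqrt_nonneg _
  have hpi := Real.pi_pos
  have hnorm : ∀ w ∈ Ω, ‖pt w‖ ≤ M := by
    intro w hw
    rw [norm_pt]
    exact Real.sqrt_le_sqrt (hC w hw)
  have hfin : volume Ω < ⊤ := by
    have hb : Bornology.IsBounded Ω := by
      rw [isBounded_iff_forall_norm_le]
      refine ⟨Real.sqrt C, fun w hw => ?_⟩
      have := hC w hw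
      rw [Prod.norm_def]
      refine max_le ?_ ?_
      · rw [Real.norm_eq_abs]
        exact Real.abs_le_sqrt (by nlinarith [sq_nonneg w.2])
      · rw [Real.norm_eq_abs]
        exact Real.abs_le_sqrt (by nlinarith [sq_nonneg w.1])
    exact hb.measure_lt_top
  haveI : IsFiniteMeasure (volume.restrict Ω) := ⟨by rwa [Measure.restrict_apply_univ]⟩
  -- the terms
  let T : ℕ → ℝ × ℝ → ℂ := fun k w => -(tc F k * (starRingEnd ℂ) (mw k w))
  have hmwb : ∀ (k : ℕ), ∀ w ∈ Ω, ‖mw k w‖ ≤ M ^ k * (Real.pi * M ^ 2 + k) := by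
    intro k w hw
    have h1 := hnorm w hw
    unfold mw
    rw [norm_mul, norm_pow, Complex.norm_real, Real.norm_eq_abs, abs_mul,
      abs_of_pos (Real.exp_pos _)]
    have h2 : w.1 ^ 2 + w.2 ^ 2 ≤ M ^ 2 := by
      have h3 : ‖pt w‖ ^ 2 ≤ M ^ 2 := by gcongr
      rwa [norm_pt, Real.sq_sqrt (by positivity)] at h3
    have h4 : |Real.pi * (w.1 ^ 2 + w.2 ^ 2) - k| ≤ Real.pi * M ^ 2 + k := by
      have h5 : 0 ≤ w.1 ^ 2 + w.2 ^ 2 := by positivity
      have h6 : (0 : ℝ) ≤ k := Nat.cast_nonneg k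
      rw [abs_le]
      constructor <;> nlinarith
    have h7 : Real.exp (-(Real.pi * (w.1 ^ 2 + w.2 ^ 2))) ≤ 1 := by
      rw [Real.exp_le_one_iff]
      have : 0 ≤ Real.pi * (w.1 ^ 2 + w.2 ^ 2) := by positivity
      linarith
    calc ‖pt w‖ ^ k * (|Real.pi * (w.1 ^ 2 + w.2 ^ 2) - k| * Real.exp (-(Real.pi * (w.1 ^ 2 + w.2 ^ 2))))
        ≤ M ^ k * ((Real.pi * M ^ 2 + k) * 1) := by gcongr
      _ = M ^ k * (Real.pi * M ^ 2 + k) := by ring
  have hTb : ∀ (k : ℕ), ∀ w ∈ Ω, ‖T k w‖ ≤ ‖tc F k‖ * (M ^ k * (Real.pi * M ^ 2 + k)) := by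
    intro k w hw
    show ‖-(tc F k * (starRingEnd ℂ) (mw k w))‖ ≤ _
    rw [norm_neg, norm_mul, RCLike.norm_conj]
    exact mul_le_mul_of_nonneg_left (hmwb k w hw) (norm_nonneg _)
  have hTc : ∀ k, Continuous (T k) := fun k =>
    (continuous_const.mul (Complex.continuous_conj.comp (continuous_mw k))).neg
  have hTi : ∀ k, Integrable (T k) (volume.restrict Ω) := by
    intro k
    refine Integrable.of_bound (hTc k).aestronglyMeasurable
      (‖tc F k‖ * (M ^ k * (Real.pi * M ^ 2 + k))) ?_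
    exact (ae_restrict_iff' hΩ).2 (Filter.Eventually.of_forall (hTb k))
  have hs1 : Summable fun k : ℕ => ‖tc F k * (M : ℂ) ^ k‖ := (hasSum_F hF (M : ℂ)).summable.norm
  have hs2 : Summable fun k : ℕ => ‖(k : ℂ) * (tc F k * (M : ℂ) ^ k)‖ :=
    (hasSum_F' hF (M : ℂ)).summable.norm
  have hsB : Summable fun k : ℕ => ‖tc F k‖ * (M ^ k * (Real.pi * M ^ 2 + k)) := by
    have h := (hs1.mul_left (Real.pi * M ^ 2)).add hs2
    refine h.congr fun k => ?_
    rw [norm_mul, norm_mul, norm_mul, norm_pow, Complex.norm_real, Real.norm_eq_abs,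
      abs_of_nonneg hM0, Complex.norm_natCast]
    ring
  have hsI : Summable fun k : ℕ => ∫ w in Ω, ‖T k w‖ := by
    refine Summable.of_nonneg_of_le (fun k => integral_nonneg fun _ => norm_nonneg _) (fun k => ?_)
      (hsB.mul_right (volume.real Ω))
    calc ∫ w in Ω, ‖T k w‖ ≤ ∫ _ in Ω, ‖tc F k‖ * (M ^ k * (Real.pi * M ^ 2 + k)) := by
          refine setIntegral_mono_on (hTi k).norm (integrable_const _) hΩ fun w hw => hTb k w hw
      _ = ‖tc F k‖ * (M ^ k * (Real.pi * M ^ 2 + k)) * volume.real Ω := by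
          rw [setIntegral_const, smul_eq_mul, mul_comm]
  have hsum := hasSum_integral_of_summable_integral_norm hTi hsI
  -- the sum of the terms
  have hpoint : ∀ w : ℝ × ℝ, (starRingEnd ℂ) (pt w) * (deriv F ((starRingEnd ℂ) (pt w)) -
      Real.pi * pt w * F ((starRingEnd ℂ) (pt w))) * Real.exp (-(Real.pi * (w.1 ^ 2 + w.2 ^ 2)))
      = ∑' k, T k w := by
    intro w
    set ζ : ℂ := (starRingEnd ℂ) (pt w) with hζ
    have h1 := (hasSum_F' hF ζ).sub ((hasSum_F hF ζ).mul_left (Real.pi * (pt w * ζ)))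
    have h2 := h1.mul_right ((Real.exp (-(Real.pi * (w.1 ^ 2 + w.2 ^ 2))) : ℝ) : ℂ)
    have h3 : (fun k : ℕ => ((k : ℂ) * (tc F k * ζ ^ k) - Real.pi * (pt w * ζ) * (tc F k * ζ ^ k))
        * ((Real.exp (-(Real.pi * (w.1 ^ 2 + w.2 ^ 2))) : ℝ) : ℂ)) = fun k => T k w := by
      funext k
      show _ = -(tc F k * (starRingEnd ℂ) (mw k w))
      unfold mw
      rw [map_mul, map_pow, Complex.conj_ofReal, ← hζ, hζ, pt_mul_conj, ← hζ]
      push_cast
      ring
    rw [h3] at h2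
    rw [h2.tsum_eq]
    ring
  simp_rw [hpoint]
  rw [← hsum.tsum_eq, tsum_eq_single 0]
  · show ∫ w in Ω, -(tc F 0 * (starRingEnd ℂ) (mw 0 w)) = _
    rw [integral_neg, integral_const_mul, integral_conj]
    have h1 : tc F 0 = F 0 := by simp [tc]
    have h2 : ∫ w in Ω, mw 0 w = ((∫ w in Ω, Real.pi * (w.1 ^ 2 + w.2 ^ 2) *
        Real.exp (-(Real.pi * (w.1 ^ 2 + w.2 ^ 2))) : ℝ) : ℂ) := by
      rw [← integral_complex_ofReal]
      congr 1
      funext w
      unfold mw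
      simp
    rw [h1, h2, Complex.conj_ofReal]
    ring
  · intro k hk
    show ∫ w in Ω, -(tc F k * (starRingEnd ℂ) (mw k w)) = 0
    rw [integral_neg, integral_const_mul, integral_conj, hmom k (Nat.one_le_iff_ne_zero.2 hk)]
    simp

end Q69.HW
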