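import Pool.Agent.Q69.HW.Base

/-!
# Statements of the lemmas (MP_11bc5f_an)

Each `S_XX` is a proposition; the docstring has the proof.
-/

set_option autoImplicit false

open MeasureTheory

namespace Q69.HW

/-! ## Stage 1: a solution of the equation in `ℓ¹(ℤ)` -/

/-- **PHI1.** The function `φ(x) = (exp x - 1) / x` on a commutative real Banach algebra.

Proof: `φ(x) = ∑ x^n / (n+1)!`.  Take `p = FormalMultilinearSeries.ofScalars B (fun n => ((n+1)! : ℝ)⁻¹)`;
its radius is `⊤` (`FormalMultilinearSeries.ofScalars_radius_eq_top_of_tendsto`, ratio `1/(n+2)`), so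
`p.sum` is analytic everywhere (`FormalMultilinearSeries.hasFPowerSeriesOnBall`), hence `ContDiff`
(`AnalyticOnNhd.contDiff` or similar).  The value is `∑' n, ((n+1)!)⁻¹ • x^n` and multiplying with `x`
and comparing with `NormedSpace.exp_eq_tsum` (`∑' n, (n!)⁻¹ • x^n`, drop the term `n = 0`,
`NormedSpace.expSeries_summable'`) gives the identity. -/
def S_PHI1 : Prop := ∀ (B : Type) [NormedCommRing B] [NormedAlgebra ℝ B] [CompleteSpace B],
  ∃ φ : B → B, ContDiff ℝ 1 φ ∧ φ 0 = 1 ∧ ∀ x, x * φ x = NormedSpace.exp x - 1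

/-- **DIAG.** Diagonal operators on `ℓ¹(ℕ)` with entries bounded and bounded below are invertible.

Proof: `b ↦ (d_j b_j)` is `liftV (fun j => d j • lp.single 1 j 1)` (or build it by
`LinearMap.mkContinuous`); the inverse is the diagonal operator with entries `1 / d_j`; use
`ContinuousLinearEquiv.equivOfInverse`. -/
def S_DIAG : Prop := ∀ (d : ℕ → ℝ) (c C : ℝ), 0 < c → (∀ j, c ≤ |d j|) → (∀ j, |d j| ≤ C) →
  ∃ D : V ≃L[ℝ] V, ∀ (b : V) (j : ℕ), D b j = d j * b j

/-- `λ_j (x) = e^x e^{-e^x} (1 - e^x / (j+1))` -/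
noncomputable def lamf (x : ℝ) (j : ℕ) : ℝ :=
  Real.exp x * Real.exp (-Real.exp x) * (1 - Real.exp x / ((j : ℝ) + 1))

/-- **IFT.** Small solutions with `s > 0`.

Proof: `G (0, 0) = 0` because `lamf 0 0 = 0` and `lamf 0 j * 0 = 0`.  `G` is strictly differentiable at
`(0, 0)` (`ContDiff.hasStrictFDerivAt`), with derivative `G'`.  For each `b` and `j`,
`(G' (0, b)) j = d/dr (G (0, r b)) j` at `r = 0` `= d_j b_j` with `d_0 = -e^{-1}` (derivative of
`lamf (r b_0) 0`, as `lamf x 0 = e^x e^{-e^x} (1 - e^x)`), and `d_j = lamf 0 j = e^{-1} j / (j+1)` for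
`j ≥ 1` (`lamf (r b_0) j * (r b_j)`).  Hence `G' (0, b) = D b` with the invertible diagonal operator `D`
of `S_DIAG` (`c = e^{-1}/2`, `C = 1`).  The map `f (s, b) = (s, G (s, b))` has strict derivative
`(s, b) ↦ (s, G' (s, 0) + D b)` at `0`, a continuous linear equivalence with inverse
`(s, y) ↦ (s, D⁻¹ (y - G' (s, 0)))`.  By `HasStrictFDerivAt.map_nhds_eq_of_equiv` the image under `f` of
the neighbourhood `{(s, b) : |s| < ε, ‖b‖ < ε}` of `(0, 0)` is a neighbourhood of `f (0,0) = (0, 0)`,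
so it contains `(s, 0)` for a small `s > 0`: there is `b` with `‖b‖ < ε` and `G (s, b) = 0`. -/
def S_IFT : Prop := S_DIAG → ∀ G : ℝ × V → V, ContDiff ℝ 1 G →
  (∀ (b : V) (j : ℕ), G (0, b) j = if j = 0 then lamf (b 0) 0 else lamf (b 0) j * b j) →
  ∀ ε : ℝ, 0 < ε → ∃ (s : ℝ) (b : V), 0 < s ∧ s < ε ∧ ‖b‖ < ε ∧ G (s, b) = 0

/-- **PB.** Values of the projection `P`.

Proof: `P a j = re (cf (-(j+1)) a)`, and `cf m (dl n) = if m = n then 1 else 0`
(`H937R3.L1.delta_apply`).  For the four maps `thL` ... note that `P` is continuous and real-linear,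
so `P (liftV v b) = ∑' j, b j • P (v j)` (`ContinuousLinearMap.map_tsum`, `summable_liftV`), where
`P (dl (i+1)) = 0` and `P (dl (-(i+1))) = lp.single 1 i 1`; evaluate at `j` (again a continuous linear
map, e.g. `lp.evalCLM`), the sum has at most one nonzero term. -/
def S_PB : Prop :=
  (∀ r : ℝ, P (r • (1 : A)) = 0) ∧ P (dl 1) = 0 ∧
  (∀ j : ℕ, P (dl (-1)) j = if j = 0 then 1 else 0) ∧
  (∀ b : V, P (thL b) = 0) ∧ (∀ b : V, P (hL b) = 0) ∧
  (∀ (b : V) (j : ℕ), P (thcL b) j = if j = 0 then 0 else b j) ∧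
  (∀ (b : V) (j : ℕ), P (hcL b) j = if j = 0 then 0 else b j / ((j : ℝ) + 1))

/-- **GG.** The function `G (s, b) = s⁻¹ P (Qf s b)` extends to a `C¹` function at `s = 0`.

Proof: let `φ` be the function of `S_PHI1` for `B = A`; so `exp x = 1 + x φ(x)` (in particular
`NormedSpace.exp` is `ContDiff ℝ 1` on `A`).  Write `x = b 0` (a continuous linear function of `b`),
`u = uu b` (affine), `v0 = exp x` (a real number).  As `1` commutes with everything,
`vf s b = exp (x • 1 + s • u) = v0 • exp (s • u) = v0 • 1 + s • v1`, with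
`v1 = v0 • (u * φ (s • u))`.  Next `Ef s b = exp (-v0 • 1 - s • v1) = e0 • exp (-(s • v1))`
`= e0 • 1 + s • E1`, with `e0 = exp (-v0)`, `E1 = -e0 • (v1 * φ (-(s • v1)))`.  And
`(1 + v) E = ((1 + v0) e0) • 1 + s • K1`, with `K1 = (1 + v) E1 + e0 • v1` (because
`(1 + v) E - (1 + v0) e0 = (1 + v) (E - e0) + (v - v0) e0`).  Hence
`Qf s b = ((1 + v0) e0) • 1 + s • (K1 + (1 + v) E θ - v E (θ - θ̄))`, and since `P` kills real
multiples of `1`, `P (Qf s b) = s • G (s, b)` for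
`G (s, b) = P (K1 + (1 + v) E θ - v E (θ - θ̄))`,
which is `ContDiff ℝ 1` in `(s, b)` as a composition of continuous linear maps, products, `φ` and the
real exponential (`θ = th b = dl 1 + thL b`, etc.).

At `s = 0`: `φ 0 = 1`, so `v = v0`, `E = e0`, `v1 = v0 u`, `E1 = -e0 v0 u`,
`K1 = -(1 + v0) e0 v0 u + e0 v0 u = -v0² e0 u`, and by `S_PB`
`(P u)_0 = 1`, `(P u)_j = b_j/(j+1)` for `j ≥ 1`, `P θ = 0`, `(P θ̄)_0 = 1`, `(P θ̄)_j = b_j`:
`G (0, b)_0 = -v0² e0 + v0 e0 = lamf x 0`,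
`G (0, b)_j = -v0² e0 b_j/(j+1) + v0 e0 b_j = lamf x j * b_j`. -/
def S_GG : Prop := S_PHI1 → S_PB →
  ∃ G : ℝ × V → V, ContDiff ℝ 1 G ∧
    (∀ (b : V) (j : ℕ), G (0, b) j = if j = 0 then lamf (b 0) 0 else lamf (b 0) j * b j) ∧
    ∀ (s : ℝ) (b : V), s • G (s, b) = P (Qf s b)

/-- **REAL.** The coefficients of `Qf s b` are real.

Proof: the set `S = {a : A | ∀ n, (cf n a).im = 0}` is closed, contains `1` and all `dl n`, is a real
linear subspace and is closed under products (`H937R3.EllOne.conv_apply`: `cf n (a * c)` is the sum of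
a series with real terms; `Complex.im_tsum` or `Complex.hasSum_iff`).  Hence it contains `exp a` for
`a ∈ S` (partial sums of the exponential series and closedness), and the sums `thL b` etc.  So it
contains `Qf s b`. -/
def S_REAL : Prop := ∀ (s : ℝ) (b : V) (n : ℤ), (cf n (Qf s b)).im = 0

/-- **ORTH.** Series without negative modes.

Proof: `S = {a : A | ∀ n < 0, cf n a = 0}` is a closed subalgebra
(`cf n (a * c) = ∑' m, cf m a * cf (n - m) c` by `H937R3.EllOne.conv_apply`; if `n < 0` then `m < 0` or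
`n - m < 0`), so it contains `exp (k • h)` (limit of partial sums) and `c = exp (k • h) * q`.  Finally
`dl 1 ^ k = dl k` and `cf 0 (dl k * c) = cf (-k) c = 0`. -/
def S_ORTH : Prop := ∀ (k : ℕ) (h q : A), 1 ≤ k → (∀ n : ℤ, n < 0 → cf n h = 0) →
  (∀ n : ℤ, n < 0 → cf n q = 0) → cf 0 (dl 1 ^ k * NormedSpace.exp ((k : ℝ) • h) * q) = 0

/-- **HP.** `hh s b` has no negative modes.

Proof: `cf n` is a continuous linear functional (`‖cf n a‖ ≤ ‖a‖`), `cf n (dl m) = 0` for `n ≠ m`;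
`hh s b = c • 1 + s • (dl 1 + hL b)`, `1 = dl 0`, and `hL b = ∑' j, b j • hv j` (`liftV_apply`). -/
def S_HP : Prop := ∀ (s : ℝ) (b : V) (n : ℤ), n < 0 → cf n (hh s b) = 0

/-- **CHI.** Evaluation on the unit circle.

Proof: multiplicativity: for fixed `t` both sides are continuous bilinear in `(a, c)`, and they agree
on basis vectors (`dl m * dl n = dl (m + n)`); use `H937R3.EllOne.clm_ext` twice (as in `comm` proofs
of `Pool/Agent/H937R3/ZProducts.lean`).  `1 = dl 0`.  `chi t (exp a) = exp (chi t a)`: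
`NormedSpace.map_exp` for the continuous ring homomorphism `chi t`, and `NormedSpace.exp = Complex.exp`
on `ℂ`.  Continuity in `t`: `chi t a = ∑' n, cf n a * exp (i n t)`, uniform convergence
(`continuous_tsum` with the bound `‖cf n a‖`).  The integral over `[-π, π]`: exchange sum and integral
(`intervalIntegral.hasSum_integral_of_summable_norm` or both sides are continuous linear in `a` and
agree on `dl n`), `∫ exp (i n t) dt = 2 π` if `n = 0` and `0` otherwise.  Periodicity: termwise.  The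
norm bound: `‖chi t a‖ ≤ ∑ ‖cf n a‖ = ‖a‖`. -/
def S_CHI : Prop :=
  (∀ (t : ℝ) (a c : A), chi t (a * c) = chi t a * chi t c) ∧ (∀ t : ℝ, chi t 1 = 1) ∧
  (∀ (t : ℝ) (a : A), chi t (NormedSpace.exp a) = Complex.exp (chi t a)) ∧
  (∀ a : A, Continuous fun t => chi t a) ∧
  (∀ a : A, ∫ t in (-Real.pi)..Real.pi, chi t a = 2 * Real.pi * cf 0 a) ∧
  (∀ (t : ℝ) (a : A), chi (t + 2 * Real.pi) a = chi t a) ∧
  (∀ (t : ℝ) (a : A), ‖chi t a‖ ≤ ‖a‖)

/-- **CHIV.** The values of `chi t` on the four maps.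

Proof: `chi t` (restricted to real scalars) is continuous and linear, so
`chi t (liftV v b) = ∑' j, b j * chi t (v j)`, where `chi t (v j)` is `0` for `j = 0` and for `j ≥ 1`
`exp (i (j+1) t)`, `exp (-i (j+1) t)`, `exp (i (j+1) t) / (j+1)`, `exp (-i (j+1) t) / (j+1)`.
Conjugation: termwise (`Complex.conj_tsum`, `b j` is real).  The derivative: `hasDerivAt_tsum` with
the summable bound `‖b j‖` for the derivatives `b j * i * exp (i (j+1) t)`.  The bounds:
`liftV_bound` and `‖chi t a‖ ≤ ‖a‖`, or termwise. -/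
def S_CHIV : Prop :=
  (∀ (t : ℝ) (b : V), chi t (thcL b) = (starRingEnd ℂ) (chi t (thL b))) ∧
  (∀ (t : ℝ) (b : V), chi t (hcL b) = (starRingEnd ℂ) (chi t (hL b))) ∧
  (∀ (b : V) (t : ℝ), HasDerivAt (fun r => chi r (hL b)) (Complex.I * chi t (thL b)) t) ∧
  (∀ (t : ℝ) (b : V), ‖chi t (hL b)‖ ≤ ‖b‖) ∧ (∀ (t : ℝ) (b : V), ‖chi t (thL b)‖ ≤ ‖b‖) ∧
  (∀ (t : ℝ) (b : V), chi (-t) (hL b) = (starRingEnd ℂ) (chi t (hL b)))

/-- **NONC.** The real part of the curve is not constant.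

Proof: suppose `re (chi t (hh s b)) = c` for all `t`.  By `S_CHIV` (second part) and
`chi t (dl (-1)) = conj (chi t (dl 1))` the element
`a = hh s b + ((b 0 - log π) / 2) • 1 + s • (dl (-1) + hcL b)` has `chi t a = 2 re (chi t (hh s b))
= 2 c`.  Hence `chi t (dl (-1) * a) = 2 c exp (-i t)` has integral `0` over `[-π, π]`, so
`cf 1 a = cf 0 (dl (-1) * a) = 0` by `S_CHI`.  But `cf 1 a = s`, because `cf 1 (dl 1) = 1`,
`cf 1 1 = 0`, `cf 1 (dl (-1)) = 0`, `cf 1 (hL b) = 0`, `cf 1 (hcL b) = 0` (only modes `±(j+1)` with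
`j ≥ 1`). -/
def S_NONC : Prop := S_CHI → S_CHIV → ∀ (s : ℝ) (b : V), s ≠ 0 →
  ∃ t : ℝ, (chi t (hh s b)).re ≠ (chi 0 (hh s b)).re

/-- **CURVE.** From a solution to a good curve.

Proof: put `H t = chi t (hh s b)`, `τ t = s * chi t (th b)`, `x = b 0`.  `H t = (x - log π)/2 +
s (exp (i t) + chi t (hL b))`.  Continuity of `τ`, derivative, periodicity and the symmetry
`H (-t) = conj (H t)` are immediate from `S_CHI`, `S_CHIV` (`chi_dl` for the mode `1`).
`‖τ t‖ ≤ s (1 + ‖b‖) ≤ 2 s ≤ 1/2`.  `re H + log π / 2 = x / 2 + s re (exp (i t) + chi t (hL b))` has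
absolute value `≤ ‖b‖ / 2 + s (1 + ‖b‖) ≤ ε / 2 + 2 s ≤ ε` (`|b 0| ≤ ‖b‖`, `lp.norm_apply_le_norm`).
Nonconstant: `S_NONC`.

The moments: `chi t (Wf s b) = x + s * 2 re (exp (i t) + chi t (hL b)) = 2 re (H t) + log π` (real), so
`chi t (vf s b) = exp (..) = π exp (2 re (H t)) = vv H t` and `chi t (Ef s b) = exp (-vv H t)`, and
`chi t (thc b) = conj (chi t (th b))`.  Hence with `v = vv H t`, `e = exp (-v)`,
`chi t (Qf s b) = (1 + v) e (1 + τ) - v e (τ - conj τ) = e ((1 + τ) + v (1 + conj τ))`.  By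
`P (Qf s b) = 0` and `S_REAL` all coefficients of `Qf s b` with negative index vanish (`P_apply`; for
`n < 0` put `n = -(j+1)`).  By `S_HP` and `S_ORTH` with `h = hh s b`, `q = Qf s b` the coefficient of
index `0` of `a = dl 1 ^ k * exp (k • h) * q` is zero, so `∫ chi t a dt = 0`, and
`chi t a = exp (i t)^k * exp (k H t) * chi t q`, which is the integrand of the moment condition. -/
def S_CURVE : Prop := S_CHI → S_CHIV → S_NONC → S_ORTH → S_HP → S_REAL →
  ∀ (s ε : ℝ) (b : V), 0 < s → s ≤ 1 / 4 → s ≤ ε / 4 → ‖b‖ ≤ 1 → ‖b‖ ≤ ε → P (Qf s b) = 0 →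
    GoodCurve ε (fun t => chi t (hh s b)) (fun t => s * chi t (th b))

/-! ## Stage 2: the domain -/

/-- **PSI.** The angle `φ` is a `C¹` diffeomorphism of the line.

Proof: `φ = phi H` has derivative `1 + re (τ t) ≥ 1/2` (the imaginary part of `H' = i τ` is `re τ`), which
is continuous.  So `φ` is strictly increasing and surjective (`φ t - t/2` is monotone, or
`φ (t + 2π) = φ t + 2π`), its inverse `ψ` has derivative `1 / (1 + re (τ (ψ θ)))`
(`HasDerivAt.of_local_left_inverse`), which is continuous, so `ψ` is `C¹`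
(`contDiff_one_iff_deriv`).  `φ (t + 2π) = φ t + 2π` gives the third claim.  The symmetry
`H (-t) = conj (H t)` gives `φ (-t) = -φ t`, and with periodicity `im H (π) = im H (-π) = -im H (π)`,
so `im H (π) = 0`, `φ (π) = π`, `φ (-π) = -π`. -/
def S_PSI : Prop := ∀ (ε : ℝ) (H τ : ℝ → ℂ), GoodCurve ε H τ →
  ∃ ψ : ℝ → ℝ, ContDiff ℝ 1 ψ ∧ (∀ t, ψ (phi H t) = t) ∧ (∀ θ, phi H (ψ θ) = θ) ∧
    (∀ θ, ψ (θ + 2 * Real.pi) = ψ θ + 2 * Real.pi) ∧
    phi H (-Real.pi) = -Real.pi ∧ phi H Real.pi = Real.pi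

/-- **IJ.** Integration by parts for `I_k`.

Proof: the derivative of `ρ^{k+2} exp (-π ρ²)` is `(k+2) ρ^{k+1} exp (..) - 2 π ρ^{k+3} exp (..)`; integrate
from `0` to `r` (`intervalIntegral.integral_eq_sub_of_hasDerivAt`). -/
def S_IJ : Prop := ∀ (k : ℕ) (r : ℝ),
  Ik k r = -(1 / 2) * (r ^ (k + 2) * Real.exp (-(Real.pi * r ^ 2))) + (2 - (k : ℝ)) / 2 * Jk k r

/-- **BND.** The moment condition on the boundary curve.

Proof: write `H = X + i Y`, `X' = -im τ`, `Y' = re τ` (from `H' = i τ`), `φ = t + Y`, `r = exp X`,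
`v = π r²`, `e = exp (-v)`, `z = exp (i t + H) = r exp (i φ)`, so
`z^k = exp (k (i t + H)) = r^k exp (i k φ)`.  All functions below are `C¹` and `2π`-periodic, or
continuous; integrals are over `[-π, π]`.
(a) `d/dt (exp (i k φ) J_k (r)) = i k φ' exp (i k φ) J_k (r) + exp (i k φ) r^{k+1} e r X'`, so
`∫ exp (i k φ) J_k (r) φ' = (i / k) ∫ z^k e r² X'` (endpoints agree: `φ (π) = φ (-π) + 2π`; this uses
periodicity of `H`).
(b) By `S_IJ`, `∫ exp (i k φ) I_k (r) φ' = ∫ z^k e r² (-φ' / 2 + ((2 - k) / 2) (i / k) X')`.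
(c) `d/dt (z^k e) = z^k e (k (X' + i φ') - 2 v X')` has integral `0`; since
`(1 + τ) = φ' - i X' = (X' + i φ') / i`, we get
`∫ z^k e (1 + τ) = (1 / (i k)) ∫ z^k e 2 v X' = -(2 i / k) ∫ z^k e v X'`.
(d) The moment condition says `0 = ∫ z^k e ((1 + τ) + v (φ' + i X'))` (as `1 + conj τ = φ' + i X'`)
`= ∫ z^k e v (φ' + i (1 - 2 / k) X')`, with `v = π r²`.
(e) The right side of (b) is `-(1 / (2 π)) ∫ z^k e v (φ' + i ((k - 2) / k) X')`, which is `0` by (d).
Here `φ' = 1 + re τ`. -/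
def S_BND : Prop := S_IJ → ∀ (ε : ℝ) (H τ : ℝ → ℂ), GoodCurve ε H τ → ∀ k : ℕ, 1 ≤ k →
  ∫ t in (-Real.pi)..Real.pi, Complex.exp (k * phi H t * Complex.I) * Ik k (rad H t) *
    ((1 + (τ t).re : ℝ) : ℂ) = 0

/-- **RMOM.** The same in polar coordinates, with `R = r ∘ ψ`.

Proof: substitution `θ = φ (t)` (`intervalIntegral.integral_comp_mul_deriv` or the `smul` version) with
`φ (±π) = ±π`, `φ' = 1 + re τ`, `ψ (φ t) = t`. -/
def S_RMOM : Prop := S_BND → S_IJ → ∀ (ε : ℝ) (H τ : ℝ → ℂ), GoodCurve ε H τ →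
  ∀ ψ : ℝ → ℝ, ContDiff ℝ 1 ψ → (∀ t, ψ (phi H t) = t) → (∀ θ, phi H (ψ θ) = θ) →
  phi H (-Real.pi) = -Real.pi → phi H Real.pi = Real.pi → ∀ k : ℕ, 1 ≤ k →
  ∫ θ in (-Real.pi)..Real.pi, Complex.exp (k * θ * Complex.I) * Ik k (rad H (ψ θ)) = 0

/-- **POL.** Polar coordinates for the moments of a star-shaped domain.

Proof: `integral_comp_polarCoord_symm` (applied to the indicator of `dom R` times `mw k`):
`∫_{dom R} mw k = ∫_{-π}^{π} ∫_0^∞ 1_{ρ < R θ} ρ mw k (ρ cos θ, ρ sin θ) dρ dθ`; for `ρ > 0`,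
`-π < θ < π` we have `pt = ρ exp (i θ)`, `arg = θ`, `sqrt (w₁² + w₂²) = ρ`, and
`ρ mw k = exp (i k θ) ρ^{k+1} (π ρ² - k) exp (-π ρ²)`.  `R` is bounded on `[-π, π]`, so the indicator
function is bounded with bounded support (integrable), Fubini applies. -/
def S_POL : Prop := ∀ R : ℝ → ℝ, Continuous R → (∀ θ, 0 < R θ) → ∀ k : ℕ,
  ∫ w in dom R, mw k w = ∫ θ in (-Real.pi)..Real.pi, Complex.exp (k * θ * Complex.I) * Ik k (R θ)

/-- **CONT.** `R ∘ arg` is continuous away from `0`.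

Proof: on the slit plane `Complex.arg` is continuous (`Complex.continuousAt_arg`).  Near a point `w`
with negative real part, `arg (pt w)` equals `arg (-pt w) + π` or `arg (-pt w) - π`
(`Complex.arg_neg_eq_arg_add_pi_of_im_neg` etc.), so `R (arg z) = R (arg (-z) + π)` by periodicity
(`R (θ - π) = R (θ + π)`), which is continuous there.  Alternatively use
`Complex.continuousAt_arg_coe_angle` and `Function.Periodic.lift`. -/
def S_CONT : Prop := ∀ R : ℝ → ℝ, Continuous R → (∀ θ, R (θ + 2 * Real.pi) = R θ) →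
  ∀ w : ℝ × ℝ, w ≠ 0 → ContinuousAt (fun w => R (Complex.arg (pt w))) w

/-- **TOP.** `dom R` is open, star-shaped and bounded.

Proof: `R` is periodic and continuous, so `m ≤ R ≤ M` with `m > 0` (compactness of `[0, 2π]`).  Open:
near a point `w ≠ 0` use `S_CONT` and continuity of `sqrt (w₁² + w₂²)`; near `0` the disc of radius
`m` is contained in `dom R`.  Star-shaped about `0`: for `0 < a ≤ 1` we have
`arg (a z) = arg z` (`Complex.arg_real_mul`) and `|a z| = a |z|`; for `a = 0` the point is `0`, which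
lies in `dom R` as `0 < R (arg 0)`.  Bounded by `M`. -/
def S_TOP : Prop := S_CONT → ∀ R : ℝ → ℝ, Continuous R → (∀ θ, R (θ + 2 * Real.pi) = R θ) →
  (∀ θ, 0 < R θ) → IsOpen (dom R) ∧ StarConvex ℝ (0 : ℝ × ℝ) (dom R) ∧ (0 : ℝ × ℝ) ∈ dom R ∧
    ∃ C : ℝ, ∀ w ∈ dom R, w.1 ^ 2 + w.2 ^ 2 ≤ C

/-- **NDISC.** `dom R` differs from every disc by a set of positive measure.

Proof: let `D` be the disc; suppose `dom R =ᵐ D`.  Some `θ` has `R θ ≠ |ρ|`; we may take
`θ ∈ (-π, π)`: by periodicity in `[-π, π]`, and by continuity in the open interval.  If `R θ > |ρ|`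
take `r` between: the point `w = (r cos θ, r sin θ)` lies in the open set
`dom R ∩ {w : w₁² + w₂² > ρ²}`, which is contained in `dom R \ D`, so this difference has positive
measure (`IsOpen.measure_pos`), a contradiction.  If `R θ < |ρ|` take `r` between them: `w` lies in
the set `{w ≠ 0 : sqrt (w₁² + w₂²) > R (arg (pt w))} ∩ D`, which is open by `S_CONT` and contained in
`D \ dom R`; contradiction again. -/
def S_NDISC : Prop := S_CONT → S_TOP → ∀ R : ℝ → ℝ, Continuous R →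
  (∀ θ, R (θ + 2 * Real.pi) = R θ) → (∀ θ, 0 < R θ) → (∃ θ θ', R θ ≠ R θ') →
  ∀ ρ : ℝ, ¬ (dom R =ᵐ[volume] {w : ℝ × ℝ | w.1 ^ 2 + w.2 ^ 2 < ρ ^ 2})

/-! ## Stage 3: from the moments to the eigenfunction -/

/-- **HERM.** The Hermite functions `h_0`, `h_1`.

Proof: `hermiteRaw 0 t = exp (π t²) exp (-2 π t²) = exp (-π t²)`, `iteratedDeriv_one`:
`hermiteRaw 1 t = -4 π t exp (-π t²)`; the integrals of the squares are positive (continuous,
nonnegative, not zero, integrable: `integral_gaussian` and `exp (-b t²)` moments; or only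
positivity of the integral, `MeasureTheory.integral_pos_iff_support_of_nonneg`...). -/
def S_HERM : Prop :=
  (∃ c0 : ℝ, 0 < c0 ∧ ∀ t : ℝ, hermiteFn 0 t = ((c0 * Real.exp (-(Real.pi * t ^ 2)) : ℝ) : ℂ)) ∧
  (∃ c1 : ℝ, c1 ≠ 0 ∧ ∀ t : ℝ, hermiteFn 1 t = ((c1 * (t * Real.exp (-(Real.pi * t ^ 2))) : ℝ) : ℂ))

/-- **BARG.** `barg g` is entire, with the expected derivative.

Proof: `hasDerivAt_integral_of_dominated_loc_of_deriv_le` on the ball of radius `1` about `ζ₀`: the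
kernel `k (t, ζ) = exp (-π t² + 2 π t ζ - π ζ² / 2)` has derivative `(2 π t - π ζ) k (t, ζ)`, bounded for
`‖ζ‖ ≤ M` by `C (1 + |t|) exp (-π t² + 2 π M |t|) ≤ C' exp (-π t² / 2)`, which is in `L²`, so `g` times
the bound is integrable (Hoelder, `MemLp.integrable_mul`); measurability: `g` is
a.e. strongly measurable and the kernel is continuous. -/
def S_BARG : Prop := ∀ g : ℝ → ℂ, MemLp g 2 → ∀ ζ : ℂ,
  HasDerivAt (barg g) (∫ t : ℝ, g t * ((2 * Real.pi * t - Real.pi * ζ) *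
    Complex.exp (-(Real.pi * t ^ 2 : ℝ) + 2 * Real.pi * t * ζ - Real.pi * ζ ^ 2 / 2))) ζ

/-- **STFT.** The short-time Fourier transform with window `t exp (-π t²)`.

Proof: let `w = (x, ξ)`, `ζ = x - i ξ = conj (pt w)`.  The complex conjugate of the shifted window is
`c1 (t - x) exp (-π (t - x)²) exp (-2 π i ξ t)`.  Here `t - x = (1 / (2 π)) ((2 π t - π ζ) - π conj ζ)`
(as `ζ + conj ζ = 2 x`) and `exp (-π (t - x)² - 2 π i ξ t) = exp (-π i x ξ) exp (-π |w|² / 2) k (t, ζ)`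
with `k (t, ζ) = exp (-π t² + 2 π t ζ - π ζ² / 2)` (expand the exponents: `ζ² = x² - ξ² - 2 i x ξ`).
So the integrand is `(c1 / (2 π)) exp (-π i x ξ) exp (-π |w|²/2) g(t) ((2 π t - π ζ) k - π (conj ζ) k)`;
the integral of the first part is the derivative of `barg g` by `S_BARG`, both parts are integrable
(Gaussian times `L²`). -/
def S_STFT : Prop := S_BARG → ∀ g : ℝ → ℂ, MemLp g 2 → ∀ (c1 : ℝ) (w : ℝ × ℝ),
  stft (fun t => ((c1 * (t * Real.exp (-(Real.pi * t ^ 2))) : ℝ) : ℂ)) g w =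
    (c1 / (2 * Real.pi)) * Complex.exp (-(Real.pi * w.1 * w.2 : ℝ) * Complex.I) *
      Real.exp (-(Real.pi * (w.1 ^ 2 + w.2 ^ 2) / 2)) *
      (deriv (barg g) ((starRingEnd ℂ) (pt w)) - Real.pi * pt w * barg g ((starRingEnd ℂ) (pt w)))

/-- **BZERO.** The transform of the Gaussian is constant.

Proof: `exp (-π t²) k (t, ζ) = exp (-2 π (t - ζ/2)²)`, whose integral over the line is `1 / sqrt 2` for
every complex `ζ` (`integral_cexp_quadratic` or `GaussianFourier.integral_cexp_neg_mul_sq_add_const`,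
`GaussianFourier.integral_cexp_neg_mul_sq_add_real_mul_I`). -/
def S_BZERO : Prop := ∃ κ : ℝ, 0 < κ ∧ ∀ (c0 : ℝ) (ζ : ℂ),
  barg (fun t => ((c0 * Real.exp (-(Real.pi * t ^ 2)) : ℝ) : ℂ)) ζ = c0 * κ

/-- **SER.** The moments determine the integral for every entire function.

Proof: `F (ζ) = ∑ a_k ζ^k` and `deriv F ζ = ∑ k a_k ζ^{k-1}` with `∑ k |a_k| M^k < ∞` for every `M`
(entire function: `Complex.hasSum_taylorSeries_of_entire` or similar).  With `ζ = conj (pt w)`,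
`pt w * ζ = w₁² + w₂²`, the integrand is
`∑_k a_k ζ^k (k - π |w|²) exp (-π |w|²)`, and for `k ≥ 1` the `k`-th term is `-a_k conj (mw k w)`, whose
integral is `0`; the term `k = 0` is `-a_0 π |w|² exp (-π |w|²)`, `a_0 = F 0`.  `Ω` is bounded, so the series
of the norms of the terms converges uniformly (bound `|a_k| (k + π M²) M^k`), and sum and integral
can be exchanged (`MeasureTheory.hasSum_integral_of_summable_integral_norm`). -/
def S_SER : Prop := ∀ Ω : Set (ℝ × ℝ), MeasurableSet Ω → (∃ C : ℝ, ∀ w ∈ Ω, w.1 ^ 2 + w.2 ^ 2 ≤ C) →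
  (∀ k : ℕ, 1 ≤ k → ∫ w in Ω, mw k w = 0) → ∀ F : ℂ → ℂ, Differentiable ℂ F →
  ∫ w in Ω, (starRingEnd ℂ) (pt w) * (deriv F ((starRingEnd ℂ) (pt w)) -
      Real.pi * pt w * F ((starRingEnd ℂ) (pt w))) * Real.exp (-(Real.pi * (w.1 ^ 2 + w.2 ^ 2)))
    = -((∫ w in Ω, Real.pi * (w.1 ^ 2 + w.2 ^ 2) * Real.exp (-(Real.pi * (w.1 ^ 2 + w.2 ^ 2))) : ℝ) : ℂ)
        * F 0

/-- **EIG.** If the moments of `Ω` of index `k ≥ 1` vanish then `h_0` is an eigenfunction of `H¹_Ω`.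

Proof: let `g ∈ L²`, `F = barg g` (entire by `S_BARG`), `ζ = conj (pt w)`.  By `S_HERM`, `S_STFT`:
`stft h_1 g w = (c1 / 2π) exp (-π i x ξ) exp (-π |w|²/2) (F' ζ - π (pt w) F ζ)`, and for `h_0` in place of
`g` (in `L²`: Gaussian; `barg h_0` is the constant `c0 κ` by `S_BZERO`, derivative `0`):
`stft h_1 h_0 w = (c1 / 2π) exp (-π i x ξ) exp (-π |w|²/2) (-π (pt w) c0 κ)`.  So
`stft h_1 h_0 w * conj (stft h_1 g w) = conj (C * exp (-π |w|²) * ζ * (F' ζ - π (pt w) F ζ))` with the real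
constant `C = -(c1 / 2π)² π c0 κ` (the phases cancel).  By `S_SER` the integral over `Ω` is
`conj (-C L F 0) = -C L conj (F 0)` with `L` real.  Finally `F 0 = ∫ g exp (-π t²) = (1 / c0) ∫ g h_0`, so
`conj (F 0) = (1 / c0) ∫ h_0 conj g` (`integral_conj`).  Take `lam = -C L / c0`. -/
def S_EIG : Prop := S_HERM → S_BARG → S_STFT → S_BZERO → S_SER →
  ∀ Ω : Set (ℝ × ℝ), MeasurableSet Ω → (∃ C : ℝ, ∀ w ∈ Ω, w.1 ^ 2 + w.2 ^ 2 ≤ C) →
  (∀ k : ℕ, 1 ≤ k → ∫ w in Ω, mw k w = 0) → IsEigenfunction 1 0 Ω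

end Q69.HW
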