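import Pool.Agent.Q69.HW.Stm

set_option autoImplicit false

open MeasureTheory Topology

namespace Q69.HW

lemma continuous_pt' : Continuous pt := by
  unfold pt
  fun_prop

lemma pt_ne_zero {w : ℝ × ℝ} (hw : w ≠ 0) : pt w ≠ 0 := by
  intro h
  apply hw
  have h1 := congrArg Complex.re h
  have h2 := congrArg Complex.im h
  simp [pt] at h1 h2
  exact Prod.ext h1 h2

theorem task_CONT : S_CONT := by
  intro R hR hper w hw
  have hp : Function.Periodic R (2 * Real.pi) := hper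
  let Rl : Real.Angle → ℝ := Function.Periodic.lift hp
  have hRl : Continuous Rl := continuous_coinduced_dom.2 hR
  have h1 : ContinuousAt (((↑) : ℝ → Real.Angle) ∘ Complex.arg) (pt w) :=
    Complex.continuousAt_arg_coe_angle (pt_ne_zero hw)
  have h2 : ContinuousAt (fun w => (((↑) : ℝ → Real.Angle) ∘ Complex.arg) (pt w)) w :=
    ContinuousAt.comp (f := pt) h1 continuous_pt'.continuousAt
  have h3 : ContinuousAt (fun w => Rl ((((↑) : ℝ → Real.Angle) ∘ Complex.arg) (pt w))) w :=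
    hRl.continuousAt.comp h2
  exact h3

lemma continuous_sq : Continuous fun w : ℝ × ℝ => Real.sqrt (w.1 ^ 2 + w.2 ^ 2) := by
  fun_prop

lemma exists_bounds (R : ℝ → ℝ) (hR : Continuous R) (h0 : ∀ θ, 0 < R θ) :
    ∃ m M : ℝ, 0 < m ∧ 0 < M ∧ ∀ z : ℂ, m ≤ R (Complex.arg z) ∧ R (Complex.arg z) ≤ M := by
  have hne : (Set.Icc (-Real.pi) Real.pi).Nonempty := ⟨0, by constructor <;> linarith [Real.pi_pos]⟩
  obtain ⟨a, -, ha⟩ := isCompact_Icc.exists_isMinOn hne hR.continuousOn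
  obtain ⟨c, -, hc⟩ := isCompact_Icc.exists_isMaxOn hne hR.continuousOn
  refine ⟨R a, R c, h0 a, h0 c, fun z => ?_⟩
  have hz : Complex.arg z ∈ Set.Icc (-Real.pi) Real.pi :=
    ⟨(Complex.neg_pi_lt_arg z).le, Complex.arg_le_pi z⟩
  exact ⟨ha hz, hc hz⟩

lemma mem_dom (R : ℝ → ℝ) (w : ℝ × ℝ) :
    w ∈ dom R ↔ Real.sqrt (w.1 ^ 2 + w.2 ^ 2) < R (Complex.arg (pt w)) := Iff.rfl

theorem task_TOP : S_TOP := by
  intro hcont R hR hper h0
  obtain ⟨m, M, hm, hM, hb⟩ := exists_bounds R hR h0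
  have hzero : (0 : ℝ × ℝ) ∈ dom R := by
    rw [mem_dom]
    simpa using h0 _
  refine ⟨?_, ?_, hzero, M ^ 2, ?_⟩
  · rw [isOpen_iff_mem_nhds]
    intro w hw
    by_cases hw0 : w = 0
    · subst hw0
      have h1 : ∀ᶠ v in 𝓝 (0 : ℝ × ℝ), Real.sqrt (v.1 ^ 2 + v.2 ^ 2) < m := by
        refine continuous_sq.continuousAt.eventually_lt continuousAt_const ?_
        simpa using hm
      filter_upwards [h1] with v hv
      rw [mem_dom]
      exact hv.trans_le (hb _).1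
    · exact (continuous_sq.continuousAt.eventually_lt (hcont R hR hper w hw0) hw)
  · rw [starConvex_zero_iff]
    intro w hw a ha ha1
    rcases ha.eq_or_lt with h | h
    · rw [← h, zero_smul]
      exact hzero
    · rw [mem_dom] at hw ⊢
      have h1 : pt (a • w) = (a : ℂ) * pt w := by
        unfold pt
        simp
        ring
      have h2 : Real.sqrt ((a • w).1 ^ 2 + (a • w).2 ^ 2) = a * Real.sqrt (w.1 ^ 2 + w.2 ^ 2) := by
        have : (a • w).1 ^ 2 + (a • w).2 ^ 2 = a ^ 2 * (w.1 ^ 2 + w.2 ^ 2) := by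
          simp
          ring
        rw [this, Real.sqrt_mul (sq_nonneg a), Real.sqrt_sq ha]
      rw [h1, h2, Complex.arg_real_mul _ h]
      have h3 : 0 ≤ Real.sqrt (w.1 ^ 2 + w.2 ^ 2) := Real.sqrt_nonneg _
      nlinarith
  · intro w hw
    rw [mem_dom] at hw
    have h1 := hw.trans_le (hb _).2
    have h2 : 0 ≤ w.1 ^ 2 + w.2 ^ 2 := by positivity
    have h3 := Real.sq_sqrt h2
    rw [← h3]
    have h4 : 0 ≤ Real.sqrt (w.1 ^ 2 + w.2 ^ 2) := Real.sqrt_nonneg _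
    nlinarith

lemma arg_polar (r θ : ℝ) (hr : 0 < r) (hθ : θ ∈ Set.Ioc (-Real.pi) Real.pi) :
    Complex.arg (pt (r * Real.cos θ, r * Real.sin θ)) = θ := by
  have h1 : pt (r * Real.cos θ, r * Real.sin θ)
      = (r : ℂ) * (Complex.cos θ + Complex.sin θ * Complex.I) := by
    unfold pt
    push_cast
    ring
  rw [h1, Complex.arg_mul_cos_add_sin_mul_I hr hθ]

lemma sqrt_polar (r θ : ℝ) (hr : 0 < r) :
    Real.sqrt ((r * Real.cos θ) ^ 2 + (r * Real.sin θ) ^ 2) = r := by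
  have h1 : (r * Real.cos θ) ^ 2 + (r * Real.sin θ) ^ 2 = r ^ 2 := by
    have := Real.sin_sq_add_cos_sq θ
    nlinarith
  rw [h1, Real.sqrt_sq hr.le]

theorem task_NDISC : S_NDISC := by
  intro hcont htop R hR hper h0 ⟨θ₁, θ₂, hne⟩ ρ hae
  have hD : MeasurableSet {w : ℝ × ℝ | w.1 ^ 2 + w.2 ^ 2 < ρ ^ 2} :=
    (isOpen_lt (by fun_prop) continuous_const).measurableSet
  -- an angle with `R θ ≠ |ρ|`
  obtain ⟨θ₃, hθ₃⟩ : ∃ θ, R θ ≠ |ρ| := by
    by_contra hcon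
    push Not at hcon
    exact hne (by rw [hcon, hcon])
  obtain ⟨θ, hθ, hθne⟩ : ∃ θ ∈ Set.Ioc (-Real.pi) Real.pi, R θ ≠ |ρ| := by
    have hp : Function.Periodic R (2 * Real.pi) := hper
    obtain ⟨y, hy, hy2⟩ := hp.exists_mem_Ioc (by positivity) θ₃ (-Real.pi)
    refine ⟨y, ⟨hy.1, by have := hy.2; linarith⟩, by rwa [← hy2]⟩
  rcases lt_or_gt_of_ne hθne with hlt | hgt
  · -- `R θ < |ρ|`
    obtain ⟨r, hr1, hr2⟩ := exists_between hlt
    have hr0 : 0 < r := (h0 θ).trans hr1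
    let U : Set (ℝ × ℝ) := {w | w ≠ 0 ∧ R (Complex.arg (pt w)) < Real.sqrt (w.1 ^ 2 + w.2 ^ 2)
      ∧ w.1 ^ 2 + w.2 ^ 2 < ρ ^ 2}
    have hU : IsOpen U := by
      rw [isOpen_iff_mem_nhds]
      rintro w ⟨hw1, hw2, hw3⟩
      have e1 : ∀ᶠ v in 𝓝 w, v ≠ 0 := isOpen_ne.mem_nhds hw1
      have e2 : ∀ᶠ v in 𝓝 w, R (Complex.arg (pt v)) < Real.sqrt (v.1 ^ 2 + v.2 ^ 2) :=
        (hcont R hR hper w hw1).eventually_lt continuous_sq.continuousAt hw2
      have e3 : ∀ᶠ v in 𝓝 w, v.1 ^ 2 + v.2 ^ 2 < ρ ^ 2 :=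
        (isOpen_lt (by fun_prop) continuous_const : IsOpen {w : ℝ × ℝ | w.1 ^ 2 + w.2 ^ 2 < ρ ^ 2}).mem_nhds hw3
      filter_upwards [e1, e2, e3] with v a b c
      exact ⟨a, b, c⟩
    have hmem : ((r * Real.cos θ, r * Real.sin θ) : ℝ × ℝ) ∈ U := by
      refine ⟨?_, ?_, ?_⟩
      · intro h
        have h1 := sqrt_polar r θ hr0
        have h2 : (r * Real.cos θ) = 0 := congrArg Prod.fst h
        have h3 : (r * Real.sin θ) = 0 := congrArg Prod.snd h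
        rw [h2, h3] at h1
        simp at h1
        linarith
      · rw [arg_polar r θ hr0 hθ, sqrt_polar r θ hr0]
        exact hr1
      · have h1 : (r * Real.cos θ) ^ 2 + (r * Real.sin θ) ^ 2 = r ^ 2 := by
          have := Real.sin_sq_add_cos_sq θ
          nlinarith
        show (r * Real.cos θ) ^ 2 + (r * Real.sin θ) ^ 2 < ρ ^ 2
        rw [h1, ← sq_abs ρ]
        nlinarith
    have hpos : 0 < volume U := hU.measure_pos volume ⟨_, hmem⟩
    have hsub : U ⊆ {w | w ∈ dom R ↔ w ∈ {w : ℝ × ℝ | w.1 ^ 2 + w.2 ^ 2 < ρ ^ 2}}ᶜ := by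
      rintro w ⟨_, hw2, hw3⟩ hiff
      have h1 : w ∈ dom R := hiff.2 hw3
      rw [mem_dom] at h1
      linarith
    have hzero : volume {w | w ∈ dom R ↔ w ∈ {w : ℝ × ℝ | w.1 ^ 2 + w.2 ^ 2 < ρ ^ 2}}ᶜ = 0 := by
      have := Filter.eventuallyEq_set.1 hae
      exact this
    have := measure_mono_null hsub hzero
    exact hpos.ne' this
  · -- `R θ > |ρ|`
    obtain ⟨r, hr1, hr2⟩ := exists_between hgt
    have hr0 : 0 < r := (abs_nonneg ρ).trans_lt hr1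
    have hdo : IsOpen (dom R) := (htop hcont R hR hper h0).1
    let U : Set (ℝ × ℝ) := dom R ∩ {w | ρ ^ 2 < w.1 ^ 2 + w.2 ^ 2}
    have hU : IsOpen U := hdo.inter (isOpen_lt continuous_const (by fun_prop))
    have hmem : ((r * Real.cos θ, r * Real.sin θ) : ℝ × ℝ) ∈ U := by
      refine ⟨?_, ?_⟩
      · rw [mem_dom, arg_polar r θ hr0 hθ, sqrt_polar r θ hr0]
        exact hr2
      · have h1 : (r * Real.cos θ) ^ 2 + (r * Real.sin θ) ^ 2 = r ^ 2 := by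
          have := Real.sin_sq_add_cos_sq θ
          nlinarith
        show ρ ^ 2 < (r * Real.cos θ) ^ 2 + (r * Real.sin θ) ^ 2
        rw [h1, ← sq_abs ρ]
        nlinarith [abs_nonneg ρ]
    have hpos : 0 < volume U := hU.measure_pos volume ⟨_, hmem⟩
    have hsub : U ⊆ {w | w ∈ dom R ↔ w ∈ {w : ℝ × ℝ | w.1 ^ 2 + w.2 ^ 2 < ρ ^ 2}}ᶜ := by
      rintro w ⟨hw1, hw2⟩ hiff
      have h1 : w.1 ^ 2 + w.2 ^ 2 < ρ ^ 2 := hiff.1 hw1
      have h2 : ρ ^ 2 < w.1 ^ 2 + w.2 ^ 2 := hw2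
      linarith
    have hzero : volume {w | w ∈ dom R ↔ w ∈ {w : ℝ × ℝ | w.1 ^ 2 + w.2 ^ 2 < ρ ^ 2}}ᶜ = 0 := by
      have := Filter.eventuallyEq_set.1 hae
      exact this
    have := measure_mono_null hsub hzero
    exact hpos.ne' this

end Q69.HW
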